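import Pool.Agent.H456.Coh.Stm

/-!
(C10) `S_base`: a quartic with nonzero discriminant over a separably closed field has a root on the
projective line.
-/

set_option autoImplicit false
set_option linter.all false

open Polynomial WeierstrassCurve IsDedekindDomain
open Pool.Agent.H456.BQ
open Pool.Agent.H456.EC (toK toK_inj sig toK_eq reflect_toK)

namespace Pool.Agent.H456.Coh

/-- a quartic with a double root has discriminant zero -/
theorem base_double {R : Type*} [CommRing R] (g : Q4 R) (r : R)
    (h1 : g.A * r ^ 4 + g.B * r ^ 3 + g.C * r ^ 2 + g.D * r + g.E = 0)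
    (h2 : 4 * g.A * r ^ 3 + 3 * g.B * r ^ 2 + 2 * g.C * r + g.D = 0) : g.res.disc = 0 := by
  have h3 := Q4.res_sub g ⟨1, r, 0, 1⟩
  have hd : (⟨1, r, 0, 1⟩ : M2 R).det = 1 := by
    simp only [M2.det]
    ring
  rw [hd, one_pow, Cub.sc_one] at h3
  have hE : (g.sub ⟨1, r, 0, 1⟩).E = 0 := by
    simp only [Q4.sub]
    linear_combination h1
  have hD : (g.sub ⟨1, r, 0, 1⟩).D = 0 := by
    simp only [Q4.sub]
    linear_combination h2
  have h4 : (g.sub ⟨1, r, 0, 1⟩).res.disc = 0 := by
    simp only [Q4.res, Cub.disc, hE, hD]
    ring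
  rwa [h3, Cub.disc_tr] at h4

/-- the dehomogenized quartic -/
noncomputable def basePoly {L : Type} [Field L] (g : Q4 L) : L[X] :=
  C g.A * X ^ 4 + C g.B * X ^ 3 + C g.C * X ^ 2 + C g.D * X + C g.E

theorem base_root {L : Type} [Field L] [IsSepClosed L] (g : Q4 L) (hg : g.res.disc ≠ 0) :
    ∃ u v : L, ¬ (u = 0 ∧ v = 0) ∧ g.ev u v = 0 := by
  by_cases hA : g.A = 0
  · refine ⟨1, 0, fun h => one_ne_zero h.1, ?_⟩
    simp only [Q4.ev, hA]
    ring
  · have hdeg : (basePoly g).coeff 4 = g.A := by
      unfold basePoly
      simp [coeff_X, coeff_C]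
    have hsep : (basePoly g).Separable := by
      unfold Polynomial.Separable
      rw [Polynomial.isCoprime_iff_aeval_ne_zero_of_isAlgClosed L (AlgebraicClosure L)]
      intro a
      by_contra hcon
      push Not at hcon
      obtain ⟨h1, h2⟩ := hcon
      have h3 : (g.map (algebraMap L (AlgebraicClosure L))).res.disc = 0 := by
        apply base_double _ a
        · rw [← h1]
          unfold basePoly
          simp only [Q4.map, map_add, map_mul, map_pow, aeval_C, aeval_X]
        · rw [← h2]
          unfold basePoly
          simp only [Q4.map, derivative_add, derivative_mul, derivative_C, derivative_X_pow,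
            derivative_X, map_add, map_mul, map_pow, aeval_C, aeval_X, map_zero, map_one]
          push_cast
          simp only [map_ofNat]
          ring
      rw [Q4.map_res] at h3
      apply hg
      have h4 : (g.res.map (algebraMap L (AlgebraicClosure L))).disc =
          algebraMap L (AlgebraicClosure L) g.res.disc := by
        simp only [Cub.disc, Cub.map, map_add, map_sub, map_mul, map_pow, map_ofNat]
      rw [h4] at h3
      exact (map_eq_zero_iff _ (algebraMap L (AlgebraicClosure L)).injective).1 h3
    have hd0 : (basePoly g).degree ≠ 0 := by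
      intro h0
      have h1 : (basePoly g).coeff 4 = 0 := by
        apply coeff_eq_zero_of_degree_lt
        rw [h0]
        norm_num
      exact hA (hdeg.symm.trans h1)
    obtain ⟨x, hx⟩ := IsSepClosed.exists_root (basePoly g) hd0 hsep
    refine ⟨x, 1, fun h => one_ne_zero h.2, ?_⟩
    have h1 : (basePoly g).eval x = 0 := hx
    unfold basePoly at h1
    simp only [eval_add, eval_mul, eval_C, eval_pow, eval_X] at h1
    simp only [Q4.ev]
    linear_combination h1

theorem t_base : S_base := by
  intro L _ _ h2 f hf s hs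
  have h4 : (4 : L) ≠ 0 := by
    have h5 : (4 : L) = 2 ^ 2 := by norm_num
    rw [h5]
    exact pow_ne_zero _ h2
  obtain ⟨u, v, huv, h⟩ := base_root s.1 (by
    rw [hs, Cub.disc_tr, Cub.disc_sc]
    exact mul_ne_zero (pow_ne_zero _ h4) hf)
  obtain ⟨M, hM⟩ := PE.of_root h2 hf hs huv h
  exact ⟨M.adj, hM.symm⟩

end Pool.Agent.H456.Coh
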