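import Pool.Agent.H456.Coh.Stm

/-!
(C16) `S_basis` from `S_desc`. `Ks = SeparableClosure K`, `V = Ks × Ks × Ks` (or `Fin 3 → Ks`) = trace zero matrices `X = ⟨α, β, γ, -α⟩`. Action `ρ σ X = (mT (c σ))⁻¹ (X.map σ) (mT (c σ))` with `A⁻¹ = A.adj.scal (det A)⁻¹` (`det (mT T) ≠ 0` by `S_mPE`). It is additive, semilinear, `ρ 1 = id`
(`c 1 = 0`, from the cocycle relation), `ρ (στ) = ρ σ ∘ ρ τ`: `mT (c (στ)) = mT (c σ + σ (c τ)) ~ mT (c σ) ... ` use `S_mmul` in the order `mT(c(στ)) ~ (mT (σ c τ)) (mT (c σ))` (the group of points is commutative): `ρ σ (ρ τ X) = (mT c σ)⁻¹ σ((mT c τ)⁻¹ τX (mT c τ)) (mT c σ) = (mT(σ c τ) mT(c σ))⁻¹ (στ X) (mT (σ c τ) mT (c σ))`; scalars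
cancel in a conjugation. Here `mT (Affine.Point.map σ.toAlgHom T) = (mT T).map σ` (by cases). The stabilizer of `X` is open: `ρ σ X` depends only on `c σ` (locally constant) and on the images of the entries of `X` (fixing subgroup of a finite extension is open); so `σ ↦ ρ σ X` is locally constant. Then `S_desc`: the fixed vectors span `V`, so
there are three linearly independent ones (`Submodule.span` = top, finrank 3; `exists_linearIndependent`, or: a spanning set contains a basis `Module.Basis.ofSpan`/`exists_fun_fin_finrank_span_eq`...), i.e. `dt X Y Z ≠ 0` (e.g. if `dt` vanished on all triples of fixed vectors, then by multilinearity on all triples, but `dt` of the standard basis is `±1`: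
`Submodule.span_induction` three times, this is the shortest way). `ρ σ X = X` is equivalent to the equation in `Tw`.
-/

set_option autoImplicit false
set_option linter.all false

open Polynomial WeierstrassCurve IsDedekindDomain
open Pool.Agent.H456.BQ
open Pool.Agent.H456.EC (toK toK_inj sig toK_eq reflect_toK)

namespace Pool.Agent.H456.Coh

section aux

variable {K : Type} [Field K] {L : Type} [Field L]

/-- the matrix of trace zero with the given entries -/
def basis_mx (v : L × L × L) : M2 L := ⟨v.1, v.2.1, v.2.2, -v.1⟩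

/-- the conjugate `A⁻¹ X A` -/
def basis_cj (A : M2 L) (v : L × L × L) : L × L × L :=
  (A.det⁻¹ * (A.δ * (v.1 * A.α + v.2.1 * A.γ) - A.β * (v.2.2 * A.α - v.1 * A.γ)),
   A.det⁻¹ * (A.δ * (v.1 * A.β + v.2.1 * A.δ) - A.β * (v.2.2 * A.β - v.1 * A.δ)),
   A.det⁻¹ * (A.α * (v.2.2 * A.α - v.1 * A.γ) - A.γ * (v.1 * A.α + v.2.1 * A.γ)))

theorem basis_cj_spec {A : M2 L} (hA : A.det ≠ 0) (v : L × L × L) :
    A.mul (basis_mx (basis_cj A v)) = (basis_mx v).mul A := by
  have h1 : A.det⁻¹ * A.det = 1 := inv_mul_cancel₀ hA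
  have h2 : A.det = A.α * A.δ - A.β * A.γ := rfl
  ext
  · simp only [M2.mul, basis_mx, basis_cj]
    linear_combination (v.1 * A.α + v.2.1 * A.γ) * h1 -
      A.det⁻¹ * (v.1 * A.α + v.2.1 * A.γ) * h2
  · simp only [M2.mul, basis_mx, basis_cj]
    linear_combination (v.1 * A.β + v.2.1 * A.δ) * h1 -
      A.det⁻¹ * (v.1 * A.β + v.2.1 * A.δ) * h2
  · simp only [M2.mul, basis_mx, basis_cj]
    linear_combination (v.2.2 * A.α - v.1 * A.γ) * h1 -
      A.det⁻¹ * (v.2.2 * A.α - v.1 * A.γ) * h2
  · simp only [M2.mul, basis_mx, basis_cj]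
    linear_combination (v.2.2 * A.β - v.1 * A.δ) * h1 -
      A.det⁻¹ * (v.2.2 * A.β - v.1 * A.δ) * h2

theorem basis_cj_scal (A : M2 L) {k : L} (hk : k ≠ 0) (v : L × L × L) :
    basis_cj (A.scal k) v = basis_cj A v := by
  have h1 : (A.scal k).det⁻¹ * (k * k) = A.det⁻¹ := by
    rw [M2.det_scal, mul_inv, ← pow_two, mul_comm ((k ^ 2)⁻¹), mul_assoc,
      inv_mul_cancel₀ (pow_ne_zero 2 hk), mul_one]
  refine Prod.ext ?_ (Prod.ext ?_ ?_)
  · change (A.scal k).det⁻¹ * (k * A.δ * (v.1 * (k * A.α) + v.2.1 * (k * A.γ)) -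
      k * A.β * (v.2.2 * (k * A.α) - v.1 * (k * A.γ))) =
      A.det⁻¹ * (A.δ * (v.1 * A.α + v.2.1 * A.γ) - A.β * (v.2.2 * A.α - v.1 * A.γ))
    rw [← h1]
    ring
  · change (A.scal k).det⁻¹ * (k * A.δ * (v.1 * (k * A.β) + v.2.1 * (k * A.δ)) -
      k * A.β * (v.2.2 * (k * A.β) - v.1 * (k * A.δ))) =
      A.det⁻¹ * (A.δ * (v.1 * A.β + v.2.1 * A.δ) - A.β * (v.2.2 * A.β - v.1 * A.δ))
    rw [← h1]
    ring
  · change (A.scal k).det⁻¹ * (k * A.α * (v.2.2 * (k * A.α) - v.1 * (k * A.γ)) -
      k * A.γ * (v.1 * (k * A.α) + v.2.1 * (k * A.γ))) =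
      A.det⁻¹ * (A.α * (v.2.2 * A.α - v.1 * A.γ) - A.γ * (v.1 * A.α + v.2.1 * A.γ))
    rw [← h1]
    ring

theorem basis_cj_mul (M N : M2 L) (v : L × L × L) :
    basis_cj (M.mul N) v = basis_cj N (basis_cj M v) := by
  have h1 : (M.mul N).det⁻¹ = N.det⁻¹ * M.det⁻¹ := by
    rw [M2.det_mul, mul_inv, mul_comm]
  refine Prod.ext ?_ (Prod.ext ?_ ?_)
  · simp only [basis_cj]
    rw [h1]
    simp only [M2.mul]
    ring
  · simp only [basis_cj]
    rw [h1]
    simp only [M2.mul]
    ring
  · simp only [basis_cj]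
    rw [h1]
    simp only [M2.mul]
    ring

theorem basis_cj_map {L' : Type} [Field L'] (φ : L →+* L') (A : M2 L) (v : L × L × L) :
    basis_cj (A.map φ) (φ v.1, φ v.2.1, φ v.2.2) =
      (φ (basis_cj A v).1, φ (basis_cj A v).2.1, φ (basis_cj A v).2.2) := by
  have h1 : (A.map φ).det⁻¹ = φ (A.det⁻¹) := by
    rw [M2.map_det, map_inv₀]
  refine Prod.ext ?_ (Prod.ext ?_ ?_)
  · simp only [basis_cj]
    rw [h1]
    simp only [M2.map, map_mul, map_add, map_sub]
  · simp only [basis_cj]
    rw [h1]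
    simp only [M2.map, map_mul, map_add, map_sub]
  · simp only [basis_cj]
    rw [h1]
    simp only [M2.map, map_mul, map_add, map_sub]

theorem basis_cj_one (v : L × L × L) : basis_cj ⟨1, 0, 0, 1⟩ v = v := by
  have h1 : (⟨1, 0, 0, 1⟩ : M2 L).det⁻¹ = 1 := by
    have h2 : (⟨1, 0, 0, 1⟩ : M2 L).det = 1 := by
      simp only [M2.det]
      ring
    rw [h2, inv_one]
  refine Prod.ext ?_ (Prod.ext ?_ ?_)
  · simp only [basis_cj]
    rw [h1]
    ring
  · simp only [basis_cj]
    rw [h1]
    ring
  · simp only [basis_cj]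
    rw [h1]
    ring

theorem basis_cj_zero (A : M2 L) : basis_cj A (0, 0, 0) = 0 := by
  refine Prod.ext ?_ (Prod.ext ?_ ?_)
  · simp only [basis_cj, Prod.fst_zero]
    ring
  · simp only [basis_cj, Prod.snd_zero, Prod.fst_zero]
    ring
  · simp only [basis_cj, Prod.snd_zero]
    ring

theorem basis_cj_add (A : M2 L) (v w : L × L × L) :
    basis_cj A (v + w) = basis_cj A v + basis_cj A w := by
  refine Prod.ext ?_ (Prod.ext ?_ ?_)
  · simp only [basis_cj, Prod.fst_add, Prod.snd_add]
    ring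
  · simp only [basis_cj, Prod.fst_add, Prod.snd_add]
    ring
  · simp only [basis_cj, Prod.fst_add, Prod.snd_add]
    ring

theorem basis_cj_smul (A : M2 L) (a : L) (v : L × L × L) :
    basis_cj A (a • v) = a • basis_cj A v := by
  refine Prod.ext ?_ (Prod.ext ?_ ?_)
  · simp only [basis_cj, Prod.smul_fst, Prod.smul_snd, smul_eq_mul]
    ring
  · simp only [basis_cj, Prod.smul_fst, Prod.smul_snd, smul_eq_mul]
    ring
  · simp only [basis_cj, Prod.smul_fst, Prod.smul_snd, smul_eq_mul]
    ring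

/-- the images of the entries -/
def basis_fr {L' : Type} [Field L'] (φ : L →+* L') (v : L × L × L) : L' × L' × L' :=
  (φ v.1, φ v.2.1, φ v.2.2)

/-- the determinant of three triples -/
def basis_dt (X Y Z : L × L × L) : L :=
  X.1 * (Y.2.1 * Z.2.2 - Y.2.2 * Z.2.1) - X.2.1 * (Y.1 * Z.2.2 - Y.2.2 * Z.1) +
    X.2.2 * (Y.1 * Z.2.1 - Y.2.1 * Z.1)

/-- if the determinant vanishes on all triples in `S`, then the span of `S` is not everything -/
theorem basis_span {S : Set (L × L × L)} (hS : Submodule.span L S = ⊤) :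
    ∃ X ∈ S, ∃ Y ∈ S, ∃ Z ∈ S, basis_dt X Y Z ≠ 0 := by
  by_contra hcon
  push Not at hcon
  have h1 : ∀ X ∈ S, ∀ Y ∈ S, ∀ Z : L × L × L, basis_dt X Y Z = 0 := by
    intro X hX Y hY Z
    have hZ : Z ∈ Submodule.span L S := by
      rw [hS]
      trivial
    induction hZ using Submodule.span_induction with
    | mem x hx => exact hcon X hX Y hY x hx
    | zero =>
      simp only [basis_dt, Prod.fst_zero, Prod.snd_zero]
      ring
    | add x y _ _ hx hy =>
      simp only [basis_dt, Prod.fst_add, Prod.snd_add] at hx hy ⊢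
      linear_combination hx + hy
    | smul a x _ hx =>
      simp only [basis_dt, Prod.smul_fst, Prod.smul_snd, smul_eq_mul] at hx ⊢
      linear_combination a * hx
  have h2 : ∀ X ∈ S, ∀ Y Z : L × L × L, basis_dt X Y Z = 0 := by
    intro X hX Y Z
    have hY : Y ∈ Submodule.span L S := by
      rw [hS]
      trivial
    induction hY using Submodule.span_induction with
    | mem x hx => exact h1 X hX x hx Z
    | zero =>
      simp only [basis_dt, Prod.fst_zero, Prod.snd_zero]
      ring
    | add x y _ _ hx hy =>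
      simp only [basis_dt, Prod.fst_add, Prod.snd_add] at hx hy ⊢
      linear_combination hx + hy
    | smul a x _ hx =>
      simp only [basis_dt, Prod.smul_fst, Prod.smul_snd, smul_eq_mul] at hx ⊢
      linear_combination a * hx
  have h3 : ∀ X Y Z : L × L × L, basis_dt X Y Z = 0 := by
    intro X Y Z
    have hX : X ∈ Submodule.span L S := by
      rw [hS]
      trivial
    induction hX using Submodule.span_induction with
    | mem x hx => exact h2 x hx Y Z
    | zero =>
      simp only [basis_dt, Prod.fst_zero, Prod.snd_zero]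
      ring
    | add x y _ _ hx hy =>
      simp only [basis_dt, Prod.fst_add, Prod.snd_add] at hx hy ⊢
      linear_combination hx + hy
    | smul a x _ hx =>
      simp only [basis_dt, Prod.smul_fst, Prod.smul_snd, smul_eq_mul] at hx ⊢
      linear_combination a * hx
  have h4 := h3 (1, 0, 0) (0, 1, 0) (0, 0, 1)
  simp only [basis_dt] at h4
  apply one_ne_zero (α := L)
  linear_combination h4

end aux

section gal

variable {K : Type} [Field K]

theorem basis_dev (f : Cub K) (σ : Gal K) (x : SeparableClosure K) :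
    (fL f (SeparableClosure K)).dev (σ x) = σ ((fL f (SeparableClosure K)).dev x) := by
  simp only [Cub.dev, Cub.map, map_add, map_mul, map_pow, AlgEquiv.commutes]
  have h3 : σ (3 : SeparableClosure K) = 3 := map_ofNat σ 3
  have h2 : σ (2 : SeparableClosure K) = 2 := map_ofNat σ 2
  rw [h3, h2]

open Classical in
theorem basis_mT_map (f : Cub K) (σ : Gal K) (T : Pt (crv f) (SeparableClosure K)) :
    mT (Affine.Point.map σ.toAlgHom T) =
      (mT T).map (σ.toAlgHom : SeparableClosure K →+* SeparableClosure K) := by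
  rcases T with _ | ⟨x, y, h⟩
  · change (⟨1, 0, 0, 1⟩ : M2 (SeparableClosure K)) = _
    change _ = (⟨σ 1, σ 0, σ 0, σ 1⟩ : M2 (SeparableClosure K))
    rw [map_one, map_zero]
  · change (⟨σ x, (fL f (SeparableClosure K)).dev (σ x) - (σ x) ^ 2, 1, -(σ x)⟩ :
      M2 (SeparableClosure K)) =
      ⟨σ x, σ ((fL f (SeparableClosure K)).dev x - x ^ 2), σ 1, σ (-x)⟩
    rw [basis_dev, map_sub, map_pow, map_one, map_neg]

theorem basis_hPE (hPE : S_mPE) (K L : Type) [Field K] [Field L] [Algebra K L]
    [inst : DecidableEq L] (h2 : (2 : K) ≠ 0) (f : Cub K) (hf : f.disc ≠ 0) (T : Pt (crv f) L)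
    (hT : 2 • T = 0) : PE (mT T) (zp (fL f L)) (zp (fL f L)) := by
  have h : inst = fun a b => Classical.propDecidable (a = b) := Subsingleton.elim _ _
  subst h
  exact hPE K L h2 f hf T hT

theorem basis_hmul (hmul : S_mmul) (K L : Type) [Field K] [Field L] [Algebra K L]
    [inst : DecidableEq L] (h2 : (2 : K) ≠ 0) (f : Cub K) (hf : f.disc ≠ 0) (T T' : Pt (crv f) L)
    (hT : 2 • T = 0) (hT' : 2 • T' = 0) :
    ∃ k : L, k ≠ 0 ∧ (mT T).mul (mT T') = (mT (T + T')).scal k := by
  have h : inst = fun a b => Classical.propDecidable (a = b) := Subsingleton.elim _ _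
  subst h
  exact hmul K L h2 f hf T T' hT hT'

theorem basis_lc (x : SeparableClosure K) : IsLocallyConstant fun σ : Gal K => σ x := by
  rw [IsLocallyConstant.iff_exists_open]
  intro σ
  refine ⟨(fun τ => σ⁻¹ * τ) ⁻¹' (MulAction.stabilizer (Gal K) x : Set (Gal K)), ?_, ?_, ?_⟩
  · exact (stabilizer_isOpen_of_isIntegral (K := K) x).preimage (continuous_const_mul _)
  · change σ⁻¹ * σ ∈ MulAction.stabilizer (Gal K) x
    rw [inv_mul_cancel]
    exact one_mem _
  · intro τ hτ
    have h1 : (σ⁻¹ * τ) x = x := hτ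
    have h2 : σ ((σ⁻¹ * τ) x) = τ x := by
      change (σ * (σ⁻¹ * τ)) x = τ x
      rw [mul_inv_cancel_left]
    change τ x = σ x
    rw [← h2, h1]

end gal

open Classical in
theorem t_basis : S_desc → S_mPE → S_mmul → S_basis := by
  intro hdesc hPE hmul K _ h2 f hf c hc
  have hdet : ∀ σ, (mT (c σ)).det ≠ 0 := fun σ =>
    (basis_hPE hPE K (SeparableClosure K) h2 f hf (c σ) (hc.tors σ)).det
  have hc1 : c 1 = 0 := by
    have h1 := hc.mul 1 1
    have h3 : Affine.Point.map (1 : Gal K).toAlgHom (c 1) = c 1 := by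
      rcases c 1 with _ | ⟨x, y, h⟩ <;> rfl
    rw [mul_one, h3] at h1
    exact left_eq_add.1 h1
  let ρ : Gal K → (SeparableClosure K × SeparableClosure K × SeparableClosure K) →+
      (SeparableClosure K × SeparableClosure K × SeparableClosure K) := fun σ =>
    { toFun := fun v => basis_cj (mT (c σ))
        (basis_fr (σ.toAlgHom : SeparableClosure K →+* SeparableClosure K) v)
      map_zero' := by
        have h1 : basis_fr (σ.toAlgHom : SeparableClosure K →+* SeparableClosure K) 0 =
            (0, 0, 0) := by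
          change ((σ.toAlgHom : SeparableClosure K →+* SeparableClosure K) 0,
            (σ.toAlgHom : SeparableClosure K →+* SeparableClosure K) 0,
            (σ.toAlgHom : SeparableClosure K →+* SeparableClosure K) 0) = _
          rw [map_zero]
        rw [h1, basis_cj_zero]
      map_add' := by
        intro v w
        have h1 : basis_fr (σ.toAlgHom : SeparableClosure K →+* SeparableClosure K) (v + w) =
            basis_fr (σ.toAlgHom : SeparableClosure K →+* SeparableClosure K) v +
            basis_fr (σ.toAlgHom : SeparableClosure K →+* SeparableClosure K) w := by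
          refine Prod.ext ?_ (Prod.ext ?_ ?_)
          · exact map_add _ _ _
          · exact map_add _ _ _
          · exact map_add _ _ _
        rw [h1, basis_cj_add] }
  have hρ : ∀ σ v, ρ σ v = basis_cj (mT (c σ))
      (basis_fr (σ.toAlgHom : SeparableClosure K →+* SeparableClosure K) v) := fun _ _ => rfl
  have hspan := hdesc K _ ρ ?_ ?_ ?_ ?_
  · obtain ⟨X, hX, Y, hY, Z, hZ, hd⟩ := basis_span hspan
    have hTw : ∀ v, (∀ σ, ρ σ v = v) → Tw f c (basis_mx v) := by
      intro v hv
      refine ⟨rfl, fun σ => ?_⟩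
      have h1 := basis_cj_spec (hdet σ)
        (basis_fr (σ.toAlgHom : SeparableClosure K →+* SeparableClosure K) v)
      rw [← hρ, hv σ] at h1
      rw [h1]
      congr 1
      change (⟨_, _, _, _⟩ : M2 (SeparableClosure K)) = ⟨_, _, _, _⟩
      congr 1
      exact map_neg _ _
    exact ⟨basis_mx X, basis_mx Y, basis_mx Z, hTw X hX, hTw Y hY, hTw Z hZ, hd⟩
  · intro σ a v
    rw [hρ, hρ, ← basis_cj_smul]
    congr 1
    refine Prod.ext ?_ (Prod.ext ?_ ?_)
    · exact map_mul _ _ _
    · exact map_mul _ _ _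
    · exact map_mul _ _ _
  · intro v
    rw [hρ, hc1]
    exact basis_cj_one v
  · intro σ τ v
    obtain ⟨k, hk, h1⟩ := basis_hmul hmul K (SeparableClosure K) h2 f hf
      (Affine.Point.map σ.toAlgHom (c τ)) (c σ) (by
        rw [← map_nsmul, hc.tors, map_zero]) (hc.tors σ)
    rw [add_comm, ← hc.mul, basis_mT_map] at h1
    rw [hρ, ← basis_cj_scal _ hk, ← h1, basis_cj_mul, hρ, hρ]
    congr 1
    exact basis_cj_map (σ.toAlgHom : SeparableClosure K →+* SeparableClosure K) (mT (c τ))
      (basis_fr (τ.toAlgHom : SeparableClosure K →+* SeparableClosure K) v)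
  · intro v
    have h1 : IsLocallyConstant fun σ : Gal K => ρ σ v := by
      have h3 := hc.cont.prodMk ((basis_lc v.1).prodMk ((basis_lc v.2.1).prodMk (basis_lc v.2.2)))
      exact h3.comp fun a => basis_cj (mT a.1) a.2
    exact h1.isOpen_fiber v

end Pool.Agent.H456.Coh
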