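import Pool.Agent.H456.Coh.Stm

/-!
(C12), (C13). `Ks = SeparableClosure K`, `σ M` means `M.map σ`, `~` means equal up to a nonzero scalar. Given `PE M zp s`, `σ M ~ mT(c σ) M` and `PE M' zp s'`, `σ M' ~ mT(c' σ) M'` for all `σ`. (C12) If `PE N s s'` over `K`, then `PE (M N) zp s'`, so
`(M N) M'.adj` stabilizes `zp` and `M N ~ mT T · M'` with `2 T = 0` (`S_mstab`). Apply `σ` (it fixes `N`): `mT(c σ) M N ~ σ(mT T) mT(c' σ) M'`, so `mT(c σ) mT(T) M' ~ mT(σ T) mT(c' σ) M'`; cancel `M'`, use `S_mmul`, `S_minj`: `c σ + T = σ T + c' σ`. So with `T' = -T = T`: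
`c' σ = c σ + T - σ T = c σ + (σ T' - T')` for `T' = -T`. (C13) If `c' σ = c σ + σ T - T`: put `M'' = (mT T).mul M`; `σ M'' ~ mT(σ T) mT(c σ) M ~ mT(σ T + c σ) M = mT(c' σ + T) M ~ mT(c' σ) M''`, and `PE M'' zp s` (`PE.trans`, `S_mPE`). Then `N = M''.adj.mul M'` satisfies
`PE N s s'` over `Ks` and `σ N ~ N` for all `σ` (`(mT A)` invertible; `adj` of a product). `N` has a nonzero entry; divide by it: `N₀ = N.scal ν⁻¹` has one entry equal to `1` and `σ N₀ ~ N₀`, hence `σ N₀ = N₀`, so the entries of `N₀` are in `K`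
(fixed field of the absolute Galois group: `IsGalois K (SeparableClosure K)`, `InfiniteGalois.mem_bot_iff_fixed`/`IsGalois.mem_bot_iff_fixed`), and `PE N₀ s s'` over `K` by injectivity of `algebraMap` (`PE.scal`, `Q4.map_inj`, `Q4.map_sub`, ...).
`mT (Affine.Point.map σ.toAlgHom T) = (mT T).map σ` by cases.
-/

set_option autoImplicit false
set_option linter.all false

open Polynomial WeierstrassCurve IsDedekindDomain
open Pool.Agent.H456.BQ
open Pool.Agent.H456.EC (toK toK_inj sig toK_eq reflect_toK)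

namespace Pool.Agent.H456.Coh

section sim

variable {L : Type} [Field L]

/-- equality up to a nonzero scalar -/
def coh_sim (M N : M2 L) : Prop := ∃ k : L, k ≠ 0 ∧ M = N.scal k

theorem coh_scal_one (M : M2 L) : M.scal 1 = M := by
  ext <;> simp only [M2.scal] <;> ring

theorem coh_refl (M : M2 L) : coh_sim M M := ⟨1, one_ne_zero, (coh_scal_one M).symm⟩

theorem coh_sim.symm {M N : M2 L} (h : coh_sim M N) : coh_sim N M := by
  obtain ⟨k, hk, rfl⟩ := h
  refine ⟨k⁻¹, inv_ne_zero hk, ?_⟩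
  rw [M2.scal_scal, mul_inv_cancel₀ hk, coh_scal_one]

theorem coh_sim.trans {M N P : M2 L} (h : coh_sim M N) (h' : coh_sim N P) : coh_sim M P := by
  obtain ⟨k, hk, rfl⟩ := h
  obtain ⟨l, hl, rfl⟩ := h'
  exact ⟨l * k, mul_ne_zero hl hk, by rw [M2.scal_scal]⟩

theorem coh_sim.mul {M M' N N' : M2 L} (h : coh_sim M M') (h' : coh_sim N N') :
    coh_sim (M.mul N) (M'.mul N') := by
  obtain ⟨k, hk, rfl⟩ := h
  obtain ⟨l, hl, rfl⟩ := h'
  refine ⟨k * l, mul_ne_zero hk hl, ?_⟩
  rw [M2.mul_scal, M2.scal_mul, M2.scal_scal, mul_comm]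

theorem coh_sim.map {L' : Type} [Field L'] (φ : L →+* L') {M N : M2 L} (h : coh_sim M N) :
    coh_sim (M.map φ) (N.map φ) := by
  obtain ⟨k, hk, rfl⟩ := h
  refine ⟨φ k, (_root_.map_ne_zero φ).2 hk, ?_⟩
  ext <;> simp only [M2.map, M2.scal, map_mul]

theorem coh_mul_diag (M : M2 L) (d : L) : M.mul ⟨d, 0, 0, d⟩ = M.scal d := by
  ext <;> simp only [M2.mul, M2.scal] <;> ring

theorem coh_diag_mul (M : M2 L) (d : L) : (⟨d, 0, 0, d⟩ : M2 L).mul M = M.scal d := by
  ext <;> simp only [M2.mul, M2.scal] <;> ring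

/-- cancellation on the right -/
theorem coh_cancel {M N P : M2 L} (hP : P.det ≠ 0) (h : coh_sim (M.mul P) (N.mul P)) : coh_sim M N := by
  have h1 := h.mul (coh_refl P.adj)
  rw [M2.mul_assoc, M2.mul_assoc, M2.mul_adj, coh_mul_diag, coh_mul_diag] at h1
  have e : ∀ X : M2 L, coh_sim X (X.scal P.det) := fun X =>
    coh_sim.symm (M := X.scal P.det) (N := X) ⟨P.det, hP, rfl⟩
  exact ((e M).trans h1).trans (e N).symm

/-- the adjugate -/
theorem coh_sim.adj {M N : M2 L} (h : coh_sim M N) : coh_sim M.adj N.adj := by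
  obtain ⟨k, hk, rfl⟩ := h
  refine ⟨k, hk, ?_⟩
  ext <;> simp only [M2.adj, M2.scal] <;> ring

theorem coh_adj_mul (M N : M2 L) : (M.mul N).adj = N.adj.mul M.adj := by
  ext <;> simp only [M2.adj, M2.mul] <;> ring

theorem coh_map_adj {L' : Type} [Field L'] (φ : L →+* L') (M : M2 L) : M.adj.map φ = (M.map φ).adj := by
  ext <;> simp only [M2.adj, M2.map, map_neg]

theorem coh_mul_adj {M : M2 L} (h : M.det ≠ 0) : coh_sim (M.mul M.adj) ⟨1, 0, 0, 1⟩ := by
  refine ⟨M.det, h, ?_⟩
  rw [M2.mul_adj]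
  ext <;> simp only [M2.scal] <;> ring

theorem coh_adj_mul' {M : M2 L} (h : M.det ≠ 0) : coh_sim (M.adj.mul M) ⟨1, 0, 0, 1⟩ := by
  refine ⟨M.det, h, ?_⟩
  rw [M2.adj_mul]
  ext <;> simp only [M2.scal] <;> ring

theorem coh_one_mul (M : M2 L) : (⟨1, 0, 0, 1⟩ : M2 L).mul M = M := by
  rw [coh_diag_mul, coh_scal_one]

end sim

section gal

variable {K : Type} [Field K]

open Classical in
/-- the matrices and the Galois action -/
theorem coh_mT_map {f : Cub K} (σ : Gal K) (T : Pt (crv f) (SeparableClosure K)) :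
    (mT T).map (σ.toAlgHom : SeparableClosure K →+* SeparableClosure K) = mT (Affine.Point.map σ.toAlgHom T) := by
  rcases T with _ | ⟨x, y, h⟩
  · change (M2.map _ ⟨1, 0, 0, 1⟩ : M2 (SeparableClosure K)) = ⟨1, 0, 0, 1⟩
    ext <;> simp [M2.map]
  · change (M2.map _ ⟨x, (fL f (SeparableClosure K)).dev x - x ^ 2, 1, -x⟩ : M2 (SeparableClosure K)) =
      ⟨σ.toAlgHom x, (fL f (SeparableClosure K)).dev (σ.toAlgHom x) - (σ.toAlgHom x) ^ 2, 1, -σ.toAlgHom x⟩
    refine M2.ext ?_ ?_ ?_ ?_ <;> simp only [M2.map, Cub.dev, Cub.map, map_sub, map_add, map_mul, map_pow,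
      map_ofNat, map_one, map_neg, AlgHom.coe_toRingHom, RingHom.coe_coe, AlgHom.commutes]

/-- rational matrices are fixed -/
theorem coh_fix (N : M2 K) (σ : Gal K) :
    (N.map (algebraMap K (SeparableClosure K))).map (σ.toAlgHom : SeparableClosure K →+* SeparableClosure K) =
      N.map (algebraMap K (SeparableClosure K)) := by
  ext <;> simp [M2.map]

theorem coh_PE_map {L : Type} [Field L] [Algebra K L] {N : M2 K} {s s' : Q4 K × K} (h : PE N s s') :
    PE (N.map (algebraMap K L)) (mapP L s) (mapP L s') := by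
  refine ⟨?_, ?_, ?_⟩
  · rw [M2.map_det]
    exact (_root_.map_ne_zero _).2 h.det
  · change (s.1.map (algebraMap K L)).sub _ = (s'.1.map (algebraMap K L)).smul _
    rw [← Q4.map_sub, h.sub, Q4.map_smul, M2.map_det, map_pow]
  · change (s.1.map (algebraMap K L)).tau _ = (algebraMap K L s'.2 - algebraMap K L s.2) * _
    rw [Q4.map_tau, h.tau, M2.map_det, map_mul, map_pow, map_sub]

theorem coh_PE_of_map {L : Type} [Field L] [Algebra K L] {N : M2 K} {s s' : Q4 K × K}
    (h : PE (N.map (algebraMap K L)) (mapP L s) (mapP L s')) : PE N s s' := by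
  have inj : Function.Injective (algebraMap K L) := (algebraMap K L).injective
  obtain ⟨h1, h2, h3⟩ := h
  rw [M2.map_det] at h1 h2 h3
  refine ⟨(_root_.map_ne_zero _).1 h1, ?_, ?_⟩
  · apply Q4.map_inj (algebraMap K L) inj
    rw [Q4.map_sub, Q4.map_smul, map_pow]
    exact h2
  · apply inj
    rw [← Q4.map_tau, map_mul, map_pow, map_sub]
    exact h3

/-- a matrix which is fixed up to scalars is rational up to a scalar -/
theorem coh_rat (N : M2 (SeparableClosure K)) (hN : N.det ≠ 0)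
    (h : ∀ σ : Gal K, coh_sim (N.map (σ.toAlgHom : SeparableClosure K →+* SeparableClosure K)) N) :
    ∃ N₀ : M2 K, coh_sim N (N₀.map (algebraMap K (SeparableClosure K))) := by
  -- the quotients of the entries
  have key : ∀ a b : M2 (SeparableClosure K) → SeparableClosure K,
      (∀ (k : SeparableClosure K) M, a (M.scal k) = k * a M) → (∀ (k : SeparableClosure K) M, b (M.scal k) = k * b M) →
      (∀ (σ : Gal K), a (N.map (σ.toAlgHom : SeparableClosure K →+* SeparableClosure K)) = σ (a N)) →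
      (∀ (σ : Gal K), b (N.map (σ.toAlgHom : SeparableClosure K →+* SeparableClosure K)) = σ (b N)) →
      b N ≠ 0 → ∃ x : K, algebraMap K (SeparableClosure K) x = (b N)⁻¹ * a N := by
    intro a b ha hb ha' hb' h0
    have h1 : (b N)⁻¹ * a N ∈ Set.range (algebraMap K (SeparableClosure K)) := by
      rw [InfiniteGalois.mem_range_algebraMap_iff_fixed]
      intro σ
      obtain ⟨k, hk, e⟩ := h σ
      have e1 := congrArg a e
      have e2 := congrArg b e
      rw [ha', ha] at e1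
      rw [hb', hb] at e2
      rw [map_mul, map_inv₀]
      change (σ (b N))⁻¹ * σ (a N) = _
      rw [e1, e2]
      field_simp
    exact h1
  have main : ∀ b : M2 (SeparableClosure K) → SeparableClosure K,
      (∀ (k : SeparableClosure K) M, b (M.scal k) = k * b M) →
      (∀ (σ : Gal K), b (N.map (σ.toAlgHom : SeparableClosure K →+* SeparableClosure K)) = σ (b N)) →
      b N ≠ 0 → ∃ N₀ : M2 K, coh_sim N (N₀.map (algebraMap K (SeparableClosure K))) := by
    intro b hb hb' h0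
    obtain ⟨α, hα⟩ := key M2.α b (fun _ _ => rfl) hb (fun _ => rfl) hb' h0
    obtain ⟨β, hβ⟩ := key M2.β b (fun _ _ => rfl) hb (fun _ => rfl) hb' h0
    obtain ⟨γ, hγ⟩ := key M2.γ b (fun _ _ => rfl) hb (fun _ => rfl) hb' h0
    obtain ⟨δ, hδ⟩ := key M2.δ b (fun _ _ => rfl) hb (fun _ => rfl) hb' h0
    refine ⟨⟨α, β, γ, δ⟩, b N, h0, M2.ext ?_ ?_ ?_ ?_⟩
    · change N.α = b N * algebraMap K (SeparableClosure K) α
      rw [hα, mul_inv_cancel_left₀ h0]
    · change N.β = b N * algebraMap K (SeparableClosure K) β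
      rw [hβ, mul_inv_cancel_left₀ h0]
    · change N.γ = b N * algebraMap K (SeparableClosure K) γ
      rw [hγ, mul_inv_cancel_left₀ h0]
    · change N.δ = b N * algebraMap K (SeparableClosure K) δ
      rw [hδ, mul_inv_cancel_left₀ h0]
  by_cases h1 : N.α = 0
  · have h2 : N.β ≠ 0 := by
      intro h2
      apply hN
      simp only [M2.det]
      rw [h1, h2]
      ring
    exact main M2.β (fun _ _ => rfl) (fun _ => rfl) h2
  · exact main M2.α (fun _ _ => rfl) (fun _ => rfl) h1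

end gal

section gen

variable {K L : Type} [Field K] [Field L] [Algebra K L] [inst : DecidableEq L]

theorem coh_mPE (hm : S_mPE) (h2 : (2 : K) ≠ 0) {f : Cub K} (hf : f.disc ≠ 0) {T : Pt (crv f) L}
    (hT : 2 • T = 0) : PE (mT T) (zp (fL f L)) (zp (fL f L)) := by
  have e : inst = fun a b => Classical.propDecidable (a = b) := Subsingleton.elim _ _
  subst e
  exact hm K L h2 f hf T hT

theorem coh_mstab (hst : S_mstab) (h2 : (2 : K) ≠ 0) {f : Cub K} (hf : f.disc ≠ 0) {M : M2 L}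
    (hM : PE M (zp (fL f L)) (zp (fL f L))) : ∃ T : Pt (crv f) L, 2 • T = 0 ∧ coh_sim M (mT T) := by
  have e : inst = fun a b => Classical.propDecidable (a = b) := Subsingleton.elim _ _
  subst e
  obtain ⟨T, k, hT, hk, h⟩ := hst K L h2 f hf M hM
  exact ⟨T, hT, k, hk, h⟩

theorem coh_mmul (hmu : S_mmul) (h2 : (2 : K) ≠ 0) {f : Cub K} (hf : f.disc ≠ 0) {T T' : Pt (crv f) L}
    (hT : 2 • T = 0) (hT' : 2 • T' = 0) : coh_sim ((mT T).mul (mT T')) (mT (T + T')) := by
  have e : inst = fun a b => Classical.propDecidable (a = b) := Subsingleton.elim _ _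
  subst e
  exact hmu K L h2 f hf T T' hT hT'

theorem coh_minj (hin : S_minj) (h2 : (2 : K) ≠ 0) {f : Cub K} (hf : f.disc ≠ 0) {T T' : Pt (crv f) L}
    (hT : 2 • T = 0) (hT' : 2 • T' = 0) (h : coh_sim (mT T) (mT T')) : T = T' := by
  have e : inst = fun a b => Classical.propDecidable (a = b) := Subsingleton.elim _ _
  subst e
  obtain ⟨k, -, h⟩ := h
  exact hin K L h2 f hf T T' k hT hT' h

end gen

open Classical in
theorem t_coh1 (hm : S_mPE) (hst : S_mstab) (hmu : S_mmul) (hin : S_minj) : S_coh1 := by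
  intro K _ h2 f hf c c' hc hc' s s' ⟨M, hM, hM2⟩ ⟨M', hM', hM2'⟩ ⟨N, hN⟩
  have hN' := coh_PE_map (L := SeparableClosure K) hN
  have hz := (hM.trans hN').trans hM'.symm
  obtain ⟨T, hT, hsim⟩ := coh_mstab hst h2 hf hz
  set Nb := N.map (algebraMap K (SeparableClosure K)) with hNb
  -- `M N ~ mT T M'`
  have s1 : coh_sim (M.mul Nb) ((mT T).mul M') := by
    have a2 := hsim.mul (coh_refl M')
    rw [M2.mul_assoc] at a2
    have a3 := ((coh_refl (M.mul Nb)).mul (coh_adj_mul' hM'.det)).symm.trans a2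
    rw [coh_mul_diag, coh_scal_one] at a3
    exact a3
  refine ⟨-T, by rw [smul_neg, hT, neg_zero], fun σ => ?_⟩
  have b1 := s1.map (σ.toAlgHom : SeparableClosure K →+* SeparableClosure K)
  rw [M2.map_mul, M2.map_mul, coh_fix, coh_mT_map] at b1
  have b2 : coh_sim (M.map (σ.toAlgHom : SeparableClosure K →+* SeparableClosure K)) ((mT (c σ)).mul M) := hM2 σ
  have b3 : coh_sim (M'.map (σ.toAlgHom : SeparableClosure K →+* SeparableClosure K)) ((mT (c' σ)).mul M') := hM2' σ
  have hσT : 2 • Affine.Point.map σ.toAlgHom T = 0 := by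
    rw [← map_nsmul, hT, map_zero]
  have b4 : coh_sim ((mT (c σ + T)).mul M') ((mT (Affine.Point.map σ.toAlgHom T + c' σ)).mul M') := by
    have c1 : coh_sim ((mT (c σ)).mul (mT T)) (mT (c σ + T)) := coh_mmul hmu h2 hf (hc.tors σ) hT
    have c2 : coh_sim ((mT (Affine.Point.map σ.toAlgHom T)).mul (mT (c' σ)))
        (mT (Affine.Point.map σ.toAlgHom T + c' σ)) := coh_mmul hmu h2 hf hσT (hc'.tors σ)
    have c3 := (c1.mul (coh_refl M')).symm
    rw [M2.mul_assoc] at c3
    have c4 := c3.trans ((coh_refl (mT (c σ))).mul s1.symm)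
    rw [← M2.mul_assoc] at c4
    have c5 := c4.trans ((b2.symm.mul (coh_refl Nb)).trans b1)
    have c6 := c5.trans ((coh_refl _).mul b3)
    rw [← M2.mul_assoc] at c6
    exact c6.trans (c2.mul (coh_refl M'))
  have e3 := coh_minj hin h2 hf (by rw [smul_add, hc.tors, hT, add_zero])
    (by rw [smul_add, hc'.tors, hσT, add_zero]) (coh_cancel hM'.det b4)
  have e4 : c' σ = c σ + T - Affine.Point.map σ.toAlgHom T := by
    rw [e3]
    abel
  rw [e4, map_neg]
  abel

open Classical in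
theorem t_coh2 (hm : S_mPE) (hst : S_mstab) (hmu : S_mmul) (hin : S_minj) : S_coh2 := by
  intro K _ h2 f hf c c' hc hc' s s' ⟨M, hM, hM2⟩ ⟨M', hM', hM2'⟩ T hT hcc
  have hMT := (coh_mPE hm h2 hf hT).trans hM
  have hN : PE (((mT T).mul M).adj.mul M') (mapP (SeparableClosure K) s) (mapP (SeparableClosure K) s') :=
    hMT.symm.trans hM'
  set M1 := (mT T).mul M with hM1
  have hfix : ∀ σ : Gal K, coh_sim ((M1.adj.mul M').map
      (σ.toAlgHom : SeparableClosure K →+* SeparableClosure K)) (M1.adj.mul M') := by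
    intro σ
    have hσT : 2 • Affine.Point.map σ.toAlgHom T = 0 := by
      rw [← map_nsmul, hT, map_zero]
    have b2 : coh_sim (M.map (σ.toAlgHom : SeparableClosure K →+* SeparableClosure K)) ((mT (c σ)).mul M) := hM2 σ
    have b3 : coh_sim (M'.map (σ.toAlgHom : SeparableClosure K →+* SeparableClosure K)) ((mT (c' σ)).mul M') := hM2' σ
    -- `σ M1 ~ mT (c' σ) M1`
    have b4 : coh_sim (M1.map (σ.toAlgHom : SeparableClosure K →+* SeparableClosure K)) ((mT (c' σ)).mul M1) := by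
      rw [hM1, M2.map_mul, coh_mT_map]
      have c1 : coh_sim ((mT (Affine.Point.map σ.toAlgHom T)).mul (mT (c σ)))
          (mT (Affine.Point.map σ.toAlgHom T + c σ)) := coh_mmul hmu h2 hf hσT (hc.tors σ)
      have c2 : coh_sim ((mT (c' σ)).mul (mT T)) (mT (c' σ + T)) := coh_mmul hmu h2 hf (hc'.tors σ) hT
      have e : c' σ + T = Affine.Point.map σ.toAlgHom T + c σ := by
        rw [hcc]
        abel
      rw [e] at c2
      have c3 := (coh_refl (mT (Affine.Point.map σ.toAlgHom T))).mul b2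
      rw [← M2.mul_assoc] at c3
      have c4 := c3.trans ((c1.trans c2.symm).mul (coh_refl M))
      rw [M2.mul_assoc] at c4
      exact c4
    rw [M2.map_mul, coh_map_adj]
    have c1 := b4.adj.mul b3
    rw [coh_adj_mul, M2.mul_assoc, ← M2.mul_assoc (mT (c' σ)).adj] at c1
    have c2 := (coh_adj_mul' (coh_mPE hm h2 hf (hc'.tors σ)).det).mul (coh_refl M')
    rw [coh_one_mul] at c2
    exact c1.trans ((coh_refl _).mul c2)
  obtain ⟨N₀, l, hl, e⟩ := coh_rat _ hN.det hfix
  refine ⟨N₀, coh_PE_of_map (L := SeparableClosure K) ?_⟩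
  have e2 : N₀.map (algebraMap K (SeparableClosure K)) = (M1.adj.mul M').scal l⁻¹ := by
    rw [e, M2.scal_scal, mul_inv_cancel₀ hl, coh_scal_one]
  rw [e2]
  exact hN.scal (inv_ne_zero hl)

theorem t_coh : S_mPE → S_mstab → S_mmul → S_minj → S_coh1 ∧ S_coh2 :=
  fun hm hst hmu hin => ⟨t_coh1 hm hst hmu hin, t_coh2 hm hst hmu hin⟩

end Pool.Agent.H456.Coh
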