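import Pool.Agent.H456.Coh.Stm

/-!
(C18). `Ks = SeparableClosure K`, `Kvs = SeparableClosure Kv`. `S_coef`: for trace zero matrices `det (x X + y Y + z Z) = x² det X + y² det Y + z² det Z + xy β(X, Y) + xz β(X, Z) + yz β(Y, Z)`, `β(X, Y) = det (X + Y) - det X - det Y`. For `X` with `Tw f c X`: `(X.map σ).mul m = m.mul X`, so `σ (det X) = det (X.map σ) = det X`
(`det m ≠ 0`: `m = mT (c σ)`, `det = 1` or `-f'(e)`, nonzero because `f.disc ≠ 0` and `f(e) = 0`; `2 • c σ = 0` gives `y = 0`; or prove it via `PE`), also `Tw` is stable under sums, so `det X, β(X, Y) ∈ K` (fixed field of the absolute Galois group: `IsGalois K (SeparableClosure K)`, `InfiniteGalois.mem_bot_iff_fixed`). `S_coord`: there is an embedding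
`ι : Ks →ₐ[K] Kvs` (`IsSepClosed.lift` or similar), and `S_iso` gives `W` over `Kvs`. Since `dt (ι X) (ι Y) (ι Z) = ι (dt X Y Z) ≠ 0` there are unique `a, b, c ∈ Kvs` with `W = a ιX + b ιY + c ιZ` (Cramer), not all zero. For `σ : Gal Kv` choose `τ : Gal K` with `ι ∘ τ = σ ∘ ι` (`Ks/K` normal: `Algebra Ks Kvs := ι.toAlgebra`,
`AlgEquiv.restrictNormal`). Apply `σ`: `(W.map σ) m = m W` and `(σ(ιX)) m = (ι(τX)) (ι mT (c τ)) = m (ιX)`, so `W.map σ = σa (ιX).map σ + ...` multiplied by `m` gives `m W = m (σa ιX + σb ιY + σc ιZ)`; cancel `m`; uniqueness: `σ a = a`, ... Hence `a, b, c ∈ Kv` and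
`0 = det W = (q.map).ev a b c` (the identity for `lin3` over `Ks` implies the same identity over `Kvs` for all arguments: both sides are quadratic forms; compare coefficients by specializing `(x,y,z) = (1,0,0), (1,1,0)...` over `Ks`, then map by `ι`); finally `algebraMap Kv Kvs` is injective.
-/

set_option autoImplicit false
set_option linter.all false

open Polynomial WeierstrassCurve IsDedekindDomain
open Pool.Agent.H456.BQ
open Pool.Agent.H456.EC (toK toK_inj sig toK_eq reflect_toK)

namespace Pool.Agent.H456.Coh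

/-- the matrices of the translations are invertible -/
theorem coord_det {K L : Type} [Field K] [Field L] [DecidableEq L] [Algebra K L] (h2 : (2 : K) ≠ 0) {f : Cub K} (hf : f.disc ≠ 0)
    (T : Pt (crv f) L) (hT : 2 • T = 0) : (mT T).det ≠ 0 := by
  have h2L : (2 : L) ≠ 0 := by
    intro h0
    apply h2
    apply (algebraMap K L).injective
    rw [map_ofNat, map_zero]
    exact h0
  rcases T with _ | ⟨x, y, h⟩
  · simp only [mT, M2.det]
    intro h0
    apply one_ne_zero (α := L)
    linear_combination h0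
  · have h1 : Affine.Point.some x y h + Affine.Point.some x y h = 0 := by
      rw [← two_nsmul]
      exact hT
    have h3 := eq_neg_of_add_eq_zero_left h1
    rw [Affine.Point.neg_some] at h3
    injection h3 with hx hy
    have hy2 : y = -y := by
      have e : Affine.negY ((crv f).toAffine.baseChange L).toAffine x y = -y := by
        have e1 : ((crv f).toAffine.baseChange L).toAffine.a₁ = 0 := map_zero (algebraMap K L)
        have e3 : ((crv f).toAffine.baseChange L).toAffine.a₃ = 0 := map_zero (algebraMap K L)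
        simp only [Affine.negY, e1, e3]
        ring
      rw [e] at hy
      exact hy
    have hy0 : y = 0 := by
      have : (2 : L) * y = 0 := by linear_combination hy2
      exact (mul_eq_zero.1 this).resolve_left h2L
    have he : (fL f L).ev x = 0 := by
      have h4 := (Affine.equation_iff _ _).1 h.1
      have e1 : ((crv f).toAffine.baseChange L).toAffine.a₁ = 0 := map_zero (algebraMap K L)
      have e3 : ((crv f).toAffine.baseChange L).toAffine.a₃ = 0 := map_zero (algebraMap K L)
      have e2 : ((crv f).toAffine.baseChange L).toAffine.a₂ = algebraMap K L f.a := rfl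
      have e4 : ((crv f).toAffine.baseChange L).toAffine.a₄ = algebraMap K L f.b := rfl
      have e6 : ((crv f).toAffine.baseChange L).toAffine.a₆ = algebraMap K L f.c := rfl
      rw [e1, e2, e3, e4, e6, hy0] at h4
      simp only [Cub.ev, Cub.map]
      linear_combination -h4
    intro h0
    have hd : (fL f L).dev x = 0 := by
      simp only [mT, M2.det] at h0
      linear_combination -h0
    have h5 := disc_zero he hd
    rw [Cub.map_disc] at h5
    exact hf ((map_eq_zero _).1 h5)

section coord_field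

variable {L : Type} [Field L]

theorem coord_cancel {m A B : M2 L} (hm : m.det ≠ 0) (h : m.mul A = m.mul B) : A = B := by
  have h1 : (m.adj.mul m).mul A = (m.adj.mul m).mul B := by
    rw [M2.mul_assoc, M2.mul_assoc, h]
  rw [M2.adj_mul] at h1
  have ha := congrArg M2.α h1
  have hb := congrArg M2.β h1
  have hc := congrArg M2.γ h1
  have hd := congrArg M2.δ h1
  simp only [M2.mul, zero_mul, add_zero, zero_add] at ha hb hc hd
  ext
  · exact mul_left_cancel₀ hm ha
  · exact mul_left_cancel₀ hm hb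
  · exact mul_left_cancel₀ hm hc
  · exact mul_left_cancel₀ hm hd

theorem coord_map_lin3 {S : Type} [Field S] (φ : L →+* S) (x y z : L) (X Y Z : M2 L) :
    (lin3 x y z X Y Z).map φ = lin3 (φ x) (φ y) (φ z) (X.map φ) (Y.map φ) (Z.map φ) := by
  ext <;> simp only [M2.map, lin3, map_add, map_mul]

theorem coord_lin3_mul (x y z : L) (X Y Z m : M2 L) :
    (lin3 x y z X Y Z).mul m = lin3 x y z (X.mul m) (Y.mul m) (Z.mul m) := by
  ext <;> simp only [M2.mul, lin3] <;> ring

theorem coord_mul_lin3 (x y z : L) (X Y Z m : M2 L) :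
    m.mul (lin3 x y z X Y Z) = lin3 x y z (m.mul X) (m.mul Y) (m.mul Z) := by
  ext <;> simp only [M2.mul, lin3] <;> ring

theorem coord_dt1 (x y z : L) (X Y Z : M2 L) : dt (lin3 x y z X Y Z) Y Z = x * dt X Y Z := by
  simp only [dt, lin3]; ring

theorem coord_dt2 (x y z : L) (X Y Z : M2 L) : dt X (lin3 x y z X Y Z) Z = y * dt X Y Z := by
  simp only [dt, lin3]; ring

theorem coord_dt3 (x y z : L) (X Y Z : M2 L) : dt X Y (lin3 x y z X Y Z) = z * dt X Y Z := by
  simp only [dt, lin3]; ring

/-- Cramer -/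
theorem coord_cramer {X Y Z W : M2 L} (hX : X.δ = -X.α) (hY : Y.δ = -Y.α) (hZ : Z.δ = -Z.α) (hW : W.δ = -W.α)
    (h : dt X Y Z ≠ 0) : ∃ x y z : L, W = lin3 x y z X Y Z := by
  refine ⟨dt W Y Z / dt X Y Z, dt X W Z / dt X Y Z, dt X Y W / dt X Y Z, ?_⟩
  have ea : W.α = dt W Y Z / dt X Y Z * X.α + dt X W Z / dt X Y Z * Y.α + dt X Y W / dt X Y Z * Z.α := by
    rw [div_mul_eq_mul_div, div_mul_eq_mul_div, div_mul_eq_mul_div, ← add_div, ← add_div, eq_div_iff h]
    simp only [dt]; ring
  have eb : W.β = dt W Y Z / dt X Y Z * X.β + dt X W Z / dt X Y Z * Y.β + dt X Y W / dt X Y Z * Z.β := by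
    rw [div_mul_eq_mul_div, div_mul_eq_mul_div, div_mul_eq_mul_div, ← add_div, ← add_div, eq_div_iff h]
    simp only [dt]; ring
  have ec : W.γ = dt W Y Z / dt X Y Z * X.γ + dt X W Z / dt X Y Z * Y.γ + dt X Y W / dt X Y Z * Z.γ := by
    rw [div_mul_eq_mul_div, div_mul_eq_mul_div, div_mul_eq_mul_div, ← add_div, ← add_div, eq_div_iff h]
    simp only [dt]; ring
  ext
  · exact ea
  · exact eb
  · exact ec
  · simp only [lin3]
    rw [hW, hX, hY, hZ, ea]
    ring

/-- coordinates are unique -/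
theorem coord_uniq {X Y Z : M2 L} (h : dt X Y Z ≠ 0) {x y z x' y' z' : L}
    (e : lin3 x y z X Y Z = lin3 x' y' z' X Y Z) : x = x' ∧ y = y' ∧ z = z' := by
  refine ⟨?_, ?_, ?_⟩
  · have := coord_dt1 x y z X Y Z
    rw [e, coord_dt1] at this
    exact (mul_right_cancel₀ h this).symm
  · have := coord_dt2 x y z X Y Z
    rw [e, coord_dt2] at this
    exact (mul_right_cancel₀ h this).symm
  · have := coord_dt3 x y z X Y Z
    rw [e, coord_dt3] at this
    exact (mul_right_cancel₀ h this).symm

/-- the determinant is a quadratic form -/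
theorem coord_form (X Y Z : M2 L) (x y z : L) : (lin3 x y z X Y Z).det =
    X.det * x ^ 2 + Y.det * y ^ 2 + Z.det * z ^ 2 +
      ((lin3 1 1 0 X Y Z).det - X.det - Y.det) * (x * y) +
      ((lin3 1 0 1 X Y Z).det - X.det - Z.det) * (x * z) +
      ((lin3 0 1 1 X Y Z).det - Y.det - Z.det) * (y * z) := by
  simp only [M2.det, lin3]; ring

theorem coord_dt_map {S : Type} [Field S] (φ : L →+* S) (X Y Z : M2 L) :
    dt (X.map φ) (Y.map φ) (Z.map φ) = φ (dt X Y Z) := by
  simp only [dt, M2.map, map_sub, map_add, map_mul]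

end coord_field

/-- the elements fixed by the Galois group -/
theorem coord_fixed {K : Type} [Field K] {a : SeparableClosure K} (h : ∀ σ : Gal K, σ a = a) :
    ∃ b : K, algebraMap K (SeparableClosure K) b = a :=
  (InfiniteGalois.mem_range_algebraMap_iff_fixed a).2 h

open Classical in
/-- the determinant of a twisted matrix is fixed -/
theorem coord_det_fixed {K : Type} [Field K] (h2 : (2 : K) ≠ 0) {f : Cub K} (hf : f.disc ≠ 0)
    {c : Gal K → Pt (crv f) (SeparableClosure K)} (hc : IsCoc f c) {X : M2 (SeparableClosure K)} (hX : Tw f c X) :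
    ∃ b : K, algebraMap K (SeparableClosure K) b = X.det := by
  refine coord_fixed fun σ => ?_
  have h1 := congrArg M2.det (hX.2 σ)
  rw [M2.det_mul, M2.det_mul, M2.map_det, mul_comm] at h1
  exact mul_left_cancel₀ (coord_det h2 hf (c σ) (hc.tors σ)) h1

theorem coord_Tw_lin3 {K : Type} [Field K] {f : Cub K} {c : Gal K → Pt (crv f) (SeparableClosure K)}
    {X Y Z : M2 (SeparableClosure K)} (hX : Tw f c X) (hY : Tw f c Y) (hZ : Tw f c Z) {x y z : SeparableClosure K}
    (hx : ∀ σ : Gal K, σ x = x) (hy : ∀ σ : Gal K, σ y = y) (hz : ∀ σ : Gal K, σ z = z) :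
    Tw f c (lin3 x y z X Y Z) := by
  refine ⟨?_, fun σ => ?_⟩
  · simp only [lin3]
    rw [hX.1, hY.1, hZ.1]
    ring
  · have ex : (σ.toAlgHom : SeparableClosure K →+* SeparableClosure K) x = x := hx σ
    have ey : (σ.toAlgHom : SeparableClosure K →+* SeparableClosure K) y = y := hy σ
    have ez : (σ.toAlgHom : SeparableClosure K →+* SeparableClosure K) z = z := hz σ
    rw [coord_map_lin3, coord_lin3_mul, coord_mul_lin3, hX.2, hY.2, hZ.2, ex, ey, ez]

theorem coord_coef : S_coef := by
  intro K _ h2 f hf c hc X Y Z hX hY hZ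
  have f0 : ∀ σ : Gal K, σ (0 : SeparableClosure K) = 0 := fun σ => map_zero σ
  have f1 : ∀ σ : Gal K, σ (1 : SeparableClosure K) = 1 := fun σ => map_one σ
  obtain ⟨A, hA⟩ := coord_det_fixed h2 hf hc hX
  obtain ⟨B, hB⟩ := coord_det_fixed h2 hf hc hY
  obtain ⟨C, hC⟩ := coord_det_fixed h2 hf hc hZ
  obtain ⟨D, hD⟩ := coord_det_fixed h2 hf hc (coord_Tw_lin3 hX hY hZ f1 f1 f0)
  obtain ⟨E, hE⟩ := coord_det_fixed h2 hf hc (coord_Tw_lin3 hX hY hZ f1 f0 f1)
  obtain ⟨G, hG⟩ := coord_det_fixed h2 hf hc (coord_Tw_lin3 hX hY hZ f0 f1 f1)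
  refine ⟨⟨A, B, C, D - A - B, E - A - C, G - B - C⟩, fun x y z => ?_⟩
  rw [coord_form]
  simp only [TF.ev, TF.map, map_sub]
  rw [hA, hB, hC, hD, hE, hG]

/-- the coefficients of the form -/
theorem coord_coefs {L : Type} [Field L] {X Y Z : M2 L} {q : TF L}
    (h : ∀ x y z : L, (lin3 x y z X Y Z).det = q.ev x y z) :
    q.A = X.det ∧ q.B = Y.det ∧ q.C = Z.det ∧ q.D = (lin3 1 1 0 X Y Z).det - X.det - Y.det ∧
      q.E = (lin3 1 0 1 X Y Z).det - X.det - Z.det ∧ q.G = (lin3 0 1 1 X Y Z).det - Y.det - Z.det := by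
  have e1 := h 1 0 0
  have e2 := h 0 1 0
  have e3 := h 0 0 1
  have e4 := h 1 1 0
  have e5 := h 1 0 1
  have e6 := h 0 1 1
  have l1 : lin3 1 0 0 X Y Z = X := by
    ext <;> simp only [lin3] <;> ring
  have l2 : lin3 0 1 0 X Y Z = Y := by
    ext <;> simp only [lin3] <;> ring
  have l3 : lin3 0 0 1 X Y Z = Z := by
    ext <;> simp only [lin3] <;> ring
  rw [l1] at e1
  rw [l2] at e2
  rw [l3] at e3
  simp only [TF.ev] at e1 e2 e3 e4 e5 e6
  refine ⟨?_, ?_, ?_, ?_, ?_, ?_⟩
  · linear_combination -e1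
  · linear_combination -e2
  · linear_combination -e3
  · linear_combination e1 + e2 - e4
  · linear_combination e1 + e3 - e5
  · linear_combination e2 + e3 - e6

open Classical in
theorem coord_coord (hiso : S_iso) : S_coord := by
  intro K Kv _ _ _ h2 f hf c hc hloc X Y Z hX hY hZ hdt q hq
  -- an embedding of the separable closures
  have hι : Nonempty (SeparableClosure K →ₐ[K] SeparableClosure Kv) :=
    ⟨IsSepClosed.lift⟩
  obtain ⟨ι⟩ := hι
  obtain ⟨W, hW0, hWt, hWd, hWσ⟩ := hiso K Kv h2 f hf c hc hloc ι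
  set φ : SeparableClosure K →+* SeparableClosure Kv := (ι : SeparableClosure K →+* SeparableClosure Kv) with hφ
  have hdt' : dt (X.map φ) (Y.map φ) (Z.map φ) ≠ 0 := by
    rw [coord_dt_map]
    exact fun h0 => hdt ((map_eq_zero φ).1 h0)
  have tX : (X.map φ).δ = -(X.map φ).α := by
    simp only [M2.map]
    rw [hX.1, map_neg]
  have tY : (Y.map φ).δ = -(Y.map φ).α := by
    simp only [M2.map]
    rw [hY.1, map_neg]
  have tZ : (Z.map φ).δ = -(Z.map φ).α := by
    simp only [M2.map]
    rw [hZ.1, map_neg]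
  obtain ⟨x, y, z, hxyz⟩ := coord_cramer tX tY tZ hWt hdt'
  -- restriction of the automorphisms
  have hres : ∀ σ : Gal Kv, ∃ τ : Gal K, ∀ u, ι (τ u) = σ (ι u) := by
    intro σ
    letI : Algebra (SeparableClosure K) (SeparableClosure Kv) := φ.toAlgebra
    haveI : IsScalarTower K (SeparableClosure K) (SeparableClosure Kv) :=
      IsScalarTower.of_algebraMap_eq fun a => (ι.commutes a).symm
    refine ⟨(σ.restrictScalars K).restrictNormal (SeparableClosure K), fun u => ?_⟩
    exact AlgEquiv.restrictNormal_commutes (σ.restrictScalars K) (SeparableClosure K) u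
  have hfix : ∀ σ : Gal Kv, σ x = x ∧ σ y = y ∧ σ z = z := by
    intro σ
    obtain ⟨τ, hτ⟩ := hres σ
    have h1 := hWσ σ τ hτ
    have hmd : ((mT (c τ)).map φ).det ≠ 0 := by
      rw [M2.map_det]
      exact fun h0 => coord_det h2 hf (c τ) (hc.tors τ) ((map_eq_zero φ).1 h0)
    have hT : ∀ V : M2 (SeparableClosure K), Tw f c V →
        (((V.map φ).map (σ.toAlgHom : SeparableClosure Kv →+* SeparableClosure Kv)).mul ((mT (c τ)).map φ)) =
          ((mT (c τ)).map φ).mul (V.map φ) := by
      intro V hV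
      have e1 : (V.map φ).map (σ.toAlgHom : SeparableClosure Kv →+* SeparableClosure Kv) =
          (V.map (τ.toAlgHom : SeparableClosure K →+* SeparableClosure K)).map φ := by
        exact M2.ext (hτ V.α).symm (hτ V.β).symm (hτ V.γ).symm (hτ V.δ).symm
      rw [e1, ← M2.map_mul, hV.2 τ, M2.map_mul]
    have h3 : ((mT (c τ)).map φ).mul W =
        ((mT (c τ)).map φ).mul (lin3 (σ x) (σ y) (σ z) (X.map φ) (Y.map φ) (Z.map φ)) := by
      rw [← h1, coord_mul_lin3, ← hT X hX, ← hT Y hY, ← hT Z hZ, hxyz, coord_map_lin3, coord_lin3_mul]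
      rfl
    have h4 := coord_cancel hmd h3
    rw [hxyz] at h4
    have h5 := coord_uniq hdt' h4
    exact ⟨h5.1.symm, h5.2.1.symm, h5.2.2.symm⟩
  obtain ⟨x', hx'⟩ := coord_fixed fun σ => (hfix σ).1
  obtain ⟨y', hy'⟩ := coord_fixed fun σ => (hfix σ).2.1
  obtain ⟨z', hz'⟩ := coord_fixed fun σ => (hfix σ).2.2
  refine ⟨x', y', z', ?_, ?_⟩
  · rintro ⟨rfl, rfl, rfl⟩
    rw [map_zero] at hx' hy' hz'
    apply hW0
    rw [hxyz, ← hx', ← hy', ← hz']
    refine M2.ext ?_ ?_ ?_ ?_ <;> simp only [lin3] <;> ring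
  · obtain ⟨cA, cB, cC, cD, cE, cG⟩ := coord_coefs hq
    have hcomp : ∀ a : K, φ (algebraMap K (SeparableClosure K) a) =
        algebraMap Kv (SeparableClosure Kv) (algebraMap K Kv a) := by
      intro a
      have e1 : φ (algebraMap K (SeparableClosure K) a) = algebraMap K (SeparableClosure Kv) a := ι.commutes a
      rw [e1, IsScalarTower.algebraMap_apply K Kv (SeparableClosure Kv)]
    apply (algebraMap Kv (SeparableClosure Kv)).injective
    rw [map_zero, ← hWd, hxyz, coord_form]
    simp only [TF.ev, TF.map] at cA cB cC cD cE cG ⊢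
    have dA := congrArg φ cA
    have dB := congrArg φ cB
    have dC := congrArg φ cC
    have dD := congrArg φ cD
    have dE := congrArg φ cE
    have dG := congrArg φ cG
    rw [hcomp] at dA dB dC dD dE dG
    have l1 : (lin3 1 1 0 (X.map φ) (Y.map φ) (Z.map φ)).det = φ (lin3 1 1 0 X Y Z).det := by
      rw [← M2.map_det, coord_map_lin3, map_one, map_zero]
    have l2 : (lin3 1 0 1 (X.map φ) (Y.map φ) (Z.map φ)).det = φ (lin3 1 0 1 X Y Z).det := by
      rw [← M2.map_det, coord_map_lin3, map_one, map_zero]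
    have l3 : (lin3 0 1 1 (X.map φ) (Y.map φ) (Z.map φ)).det = φ (lin3 0 1 1 X Y Z).det := by
      rw [← M2.map_det, coord_map_lin3, map_one, map_zero]
    rw [l1, l2, l3, M2.map_det, M2.map_det, M2.map_det, ← hx', ← hy', ← hz']
    simp only [map_add, map_mul, map_pow]
    rw [dA, dB, dC, dD, dE, dG]
    simp only [map_sub]

theorem t_coord : S_iso → S_coef ∧ S_coord := fun h => ⟨coord_coef, coord_coord h⟩

end Pool.Agent.H456.Coh
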