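import Pool.Agent.H456.Coh.Stm

/-!
(C23) `S_ctrl`, from `S_div`. `φ` is induced by the inclusion `torsionPts E 2 ≤ primaryPts E 2` (`QuotientAddGroup.map`). `2 • φ y = 0` since `2 • c = 0` for the cocycle. Conversely let `c ∈ selCocycles E (primaryPts E 2)` with `2 c σ = σ T - T`, `T ∈ primaryPts E 2`. By `S_div` over `Ks` (curve `E.baseChange Ks`, `Δ ≠ 0`, `(2 : Ks) ≠ 0`; `SeparableClosure` is separably closed)
`T = 2 S`, `S ∈ primaryPts`. `c' σ = c σ - (σ S - S)` is a cocycle with `2 c' = 0`, locally constant (`σ ↦ σ S` is locally constant: it depends only on the images of the two coordinates of `S`, fixing subgroup of a finite extension is open) and locally trivial (replace `Q` by `Q - ι S`: `ι (τ S) = σ (ι S)` for compatible `(σ, τ)`), and it differs from `c` by a coboundary.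
So `φ [c'] = [c]`. INJECTIVITY: let `c ∈ selCocycles E (torsionPts E 2)` be the coboundary of `T ∈ primaryPts E 2`: `c σ = σ T - T`. `0 = 2 c σ = σ (2T) - 2T`, so `2T` is fixed by the Galois group and comes from `E(K)` (coordinates fixed: `InfiniteGalois.mem_bot_iff_fixed`; `E.toAffine.Point` and `Pt E K = (E.toAffine.baseChange K).Point` differ by `map id`; construct the
point of `E.toAffine` directly from the coordinates, and transfer `2 •`-relations with the injective homomorphism `E.toAffine.Point → Pt E Ks`, e.g. `Affine.Point.map`/`baseChange` and `E.baseChange K = E` (`WeierstrassCurve.map_id`)). `E(K)` has no point of order two, so no element of order a power of two, hence `2T = 0`, `T ∈ torsionPts E 2` and `[c] = 0`.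
-/

set_option autoImplicit false
set_option linter.all false

open Polynomial WeierstrassCurve IsDedekindDomain
open Pool.Agent.H456.BQ
open Pool.Agent.H456.EC (toK toK_inj sig toK_eq reflect_toK)

namespace Pool.Agent.H456.Coh

section ctrl

variable {K : Type} [Field K] (E : WeierstrassCurve K)

open Classical in
theorem ctrl_mul (σ τ : Gal K) (P : Pt E (SeparableClosure K)) :
    Affine.Point.map (σ * τ).toAlgHom P =
      Affine.Point.map σ.toAlgHom (Affine.Point.map τ.toAlgHom P) := by
  rw [Affine.Point.map_map]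
  rfl

open Classical in
theorem ctrl_open (S : Pt E (SeparableClosure K)) : ∃ U : Subgroup (Gal K),
    IsOpen (U : Set (Gal K)) ∧ ∀ τ ∈ U, Affine.Point.map τ.toAlgHom S = S := by
  rcases S with _ | ⟨x, y, h⟩
  · exact ⟨⊤, isOpen_univ, fun τ _ => rfl⟩
  · refine ⟨MulAction.stabilizer (Gal K) x ⊓ MulAction.stabilizer (Gal K) y,
      (stabilizer_isOpen_of_isIntegral (K := K) x).inter
        (stabilizer_isOpen_of_isIntegral (K := K) y), ?_⟩
    rintro τ ⟨h1, h2⟩
    have h1' : τ x = x := h1
    have h2' : τ y = y := h2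
    rw [Affine.Point.map_some]
    simp only [Affine.Point.some.injEq]
    exact ⟨h1', h2'⟩

open Classical in
theorem ctrl_lc (S : Pt E (SeparableClosure K)) :
    IsLocallyConstant fun σ : Gal K => Affine.Point.map σ.toAlgHom S - S := by
  obtain ⟨U, hU, hUS⟩ := ctrl_open E S
  rw [IsLocallyConstant.iff_exists_open]
  intro σ
  refine ⟨(fun τ => σ⁻¹ * τ) ⁻¹' (U : Set (Gal K)), hU.preimage (continuous_const_mul σ⁻¹), ?_, ?_⟩
  · show σ⁻¹ * σ ∈ U
    rw [inv_mul_cancel]
    exact U.one_mem
  · intro τ hτ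
    have h1 := hUS _ hτ
    have h2 : τ = σ * (σ⁻¹ * τ) := by group
    rw [h2, ctrl_mul, h1]

open Classical in
theorem ctrl_loc {Kv : Type} [Field Kv] [Algebra K Kv] {c : Gal K → Pt E (SeparableClosure K)}
    (S : Pt E (SeparableClosure K)) (hc : LocTriv E Kv c) :
    LocTriv E Kv fun σ => c σ - (Affine.Point.map σ.toAlgHom S - S) := by
  intro ι
  obtain ⟨Q, hQ⟩ := hc ι
  refine ⟨Q - Affine.Point.map ι S, fun σ τ h => ?_⟩
  have h1 : Affine.Point.map ι (Affine.Point.map τ.toAlgHom S) =
      Affine.Point.map (σ.toAlgHom.restrictScalars K) (Affine.Point.map ι S) := by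
    rw [Affine.Point.map_map, Affine.Point.map_map]
    exact congrArg (fun g : SeparableClosure K →ₐ[K] SeparableClosure Kv =>
      Affine.Point.map g S) (AlgHom.ext fun x => h x)
  simp only [map_sub, hQ σ τ h, h1]
  abel


open Classical in
theorem ctrl_desc [DecidableEq K] (P : Pt E (SeparableClosure K))
    (hP : ∀ σ : Gal K, Affine.Point.map σ.toAlgHom P = P) :
    ∃ R : Pt E K, Affine.Point.map (Algebra.ofId K (SeparableClosure K)) R = P := by
  have key : ∀ x : SeparableClosure K, (∀ σ : Gal K, σ x = x) → ∃ a : K,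
      Algebra.ofId K (SeparableClosure K) a = x := by
    intro x hx
    have h1 := (InfiniteGalois.mem_bot_iff_fixed (k := K) x).2 hx
    exact IntermediateField.mem_bot.1 h1
  rcases P with _ | ⟨x, y, h⟩
  · exact ⟨0, rfl⟩
  · obtain ⟨a, rfl⟩ := key x (fun σ => by
      have h1 := hP σ
      rw [Affine.Point.map_some] at h1
      exact (Affine.Point.some.inj h1).1)
    obtain ⟨b, rfl⟩ := key y (fun σ => by
      have h1 := hP σ
      rw [Affine.Point.map_some] at h1
      exact (Affine.Point.some.inj h1).2)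
    exact ⟨Affine.Point.some _ _ ((E.toAffine.baseChange_nonsingular
      (f := Algebra.ofId K (SeparableClosure K)) (Algebra.ofId K (SeparableClosure K)).injective
        a b).1 h), rfl⟩

end ctrl

theorem ctrl_div (hdiv : S_div) (L : Type) [Field L] [IsSepClosed L] [inst : DecidableEq L]
    (h2 : (2 : L) ≠ 0) (E : WeierstrassCurve L) (hE : E.Δ ≠ 0) (P : E.toAffine.Point) :
    ∃ Q : E.toAffine.Point, 2 • Q = P := by
  have h := hdiv L h2 E hE P
  have e : inst = fun a b => Classical.propDecidable (a = b) := Subsingleton.elim _ _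
  subst e
  exact h

theorem ctrl_tor {K : Type} [Field K] [DecidableEq K] {W W' : WeierstrassCurve.Affine K}
    (hW : W' = W) (h : ∀ T : W.Point, 2 • T = 0 → T = 0) (k : ℕ) (R : W'.Point)
    (hR : 2 ^ k • R = 0) : R = 0 := by
  subst hW
  induction k with
  | zero => rwa [pow_zero, one_smul] at hR
  | succ k ih =>
    apply ih
    apply h
    rw [← mul_smul, ← pow_succ']
    exact hR

section ctrl2

variable {F : Type} [Field F] [DecidableEq (RatFunc F)] (E : WeierstrassCurve (RatFunc F))

open Classical in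
noncomputable def ctrl_mk (A : AddSubgroup (Pt E (SeparableClosure (RatFunc F)))) : selCocycles E A →+ SelmerGroup E A :=
  QuotientAddGroup.mk' ((coboundaries E A).addSubgroupOf (selCocycles E A))

open Classical in
theorem ctrl_mk_surj (A : AddSubgroup (Pt E (SeparableClosure (RatFunc F)))) : Function.Surjective (ctrl_mk E A) :=
  QuotientAddGroup.mk'_surjective _

open Classical in
theorem ctrl_mk_zero (A : AddSubgroup (Pt E (SeparableClosure (RatFunc F)))) (c : selCocycles E A) : ctrl_mk E A c = 0 ↔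
    (c : Gal (RatFunc F) → Pt E (SeparableClosure (RatFunc F))) ∈ coboundaries E A := by
  have h1 : ctrl_mk E A c = 0 ↔ c ∈ (coboundaries E A).addSubgroupOf (selCocycles E A) :=
    QuotientAddGroup.eq_zero_iff c
  rw [h1, AddSubgroup.mem_addSubgroupOf]

end ctrl2

theorem t_ctrl : S_div → S_ctrl := by
  intro hdiv F _ _ h2 E hE
  classical
  have h2K : (2 : RatFunc F) ≠ 0 := by
    have h1 : (algebraMap F (RatFunc F)) 2 ≠ 0 := by
      rw [Ne, map_eq_zero]
      exact h2
    rwa [map_ofNat] at h1
  have h2s : (2 : SeparableClosure (RatFunc F)) ≠ 0 := by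
    have h1 : (algebraMap (RatFunc F) (SeparableClosure (RatFunc F))) 2 ≠ 0 := by
      rw [Ne, map_eq_zero]
      exact h2K
    rwa [map_ofNat] at h1
  have hE' : (E.toAffine.baseChange (SeparableClosure (RatFunc F))).Δ ≠ 0 := by
    have h1 : (E.map (algebraMap (RatFunc F) (SeparableClosure (RatFunc F)))).Δ ≠ 0 := by
      rw [WeierstrassCurve.map_Δ, Ne, map_eq_zero]
      exact hE
    exact h1
  have hA : torsionPts E 2 ≤ primaryPts E 2 := fun T hT => ⟨1, by
    rw [pow_one]
    exact hT⟩
  have hC : selCocycles E (torsionPts E 2) ≤ selCocycles E (primaryPts E 2) :=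
    fun c hc => ⟨fun σ => hA (hc.1 σ), hc.2⟩
  have hB : (coboundaries E (torsionPts E 2)).addSubgroupOf (selCocycles E (torsionPts E 2)) ≤
      ((coboundaries E (primaryPts E 2)).addSubgroupOf (selCocycles E (primaryPts E 2))).comap
        (AddSubgroup.inclusion hC) := by
    rintro ⟨c, hc⟩ ⟨T, hT, hc'⟩
    exact ⟨T, hA hT, hc'⟩
  let φ : SelmerGroup E (torsionPts E 2) →+ SelmerGroup E (primaryPts E 2) :=
    QuotientAddGroup.map _ _ (AddSubgroup.inclusion hC) hB
  have hφ : ∀ c : selCocycles E (torsionPts E 2), φ (ctrl_mk E _ c) =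
      ctrl_mk E _ (AddSubgroup.inclusion hC c) := fun c => rfl
  refine ⟨φ, fun x => ⟨?_, ?_⟩, fun hT => ?_⟩
  · rintro ⟨y, rfl⟩
    obtain ⟨c, rfl⟩ := ctrl_mk_surj E _ y
    have h1 : 2 • c = 0 := by
      apply Subtype.ext
      funext σ
      exact c.2.1 σ
    rw [← map_nsmul, ← map_nsmul, h1, map_zero, map_zero]
  · intro hx
    obtain ⟨c, rfl⟩ := ctrl_mk_surj E _ x
    rw [← map_nsmul, ctrl_mk_zero] at hx
    obtain ⟨T, ⟨k, hk⟩, hc⟩ := hx
    obtain ⟨S, hS⟩ := ctrl_div hdiv (SeparableClosure (RatFunc F)) h2s _ hE' T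
    have hS' : 2 • S = T := hS
    have hmem : ∀ P, P ∈ torsionPts E 2 ↔ 2 • P = 0 := fun P => Iff.rfl
    obtain ⟨c1, c2, c3, c4, c5⟩ := c.2
    have hSp : S ∈ primaryPts E 2 := ⟨k + 1, by
      rw [pow_succ, mul_smul, hS']
      exact hk⟩
    have hcσ : ∀ σ, 2 • (c : Gal (RatFunc F) → Pt E (SeparableClosure (RatFunc F))) σ =
        Affine.Point.map σ.toAlgHom T - T := fun σ => hc σ
    let c' : selCocycles E (torsionPts E 2) := ⟨fun σ =>
      (c : Gal (RatFunc F) → Pt E (SeparableClosure (RatFunc F))) σ -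
        (Affine.Point.map σ.toAlgHom S - S), by
      refine ⟨fun σ => ?_, fun σ τ => ?_, ?_, fun v => ?_, ?_⟩
      · rw [hmem]
        simp only []
        rw [smul_sub, smul_sub, hcσ, ← map_nsmul, hS', sub_self]
      · simp only [c2, ctrl_mul, map_sub]
        abel
      · exact c3.sub (ctrl_lc E S)
      · exact ctrl_loc E S (c4 v)
      · exact ctrl_loc E S c5⟩
    refine ⟨ctrl_mk E _ c', ?_⟩
    rw [hφ, ← sub_eq_zero, ← map_sub, ctrl_mk_zero]
    refine ⟨-S, (primaryPts E 2).neg_mem hSp, fun σ => ?_⟩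
    show (c : Gal (RatFunc F) → Pt E (SeparableClosure (RatFunc F))) σ -
        (Affine.Point.map σ.toAlgHom S - S) -
        (c : Gal (RatFunc F) → Pt E (SeparableClosure (RatFunc F))) σ = _
    rw [map_neg]
    abel
  · rw [injective_iff_map_eq_zero]
    intro y hy
    obtain ⟨c, rfl⟩ := ctrl_mk_surj E _ y
    rw [hφ, ctrl_mk_zero] at hy
    obtain ⟨T, ⟨k, hk⟩, hc⟩ := hy
    have hcσ : ∀ σ, (c : Gal (RatFunc F) → Pt E (SeparableClosure (RatFunc F))) σ =
        Affine.Point.map σ.toAlgHom T - T := fun σ => hc σ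
    obtain ⟨R, hR⟩ := ctrl_desc E (2 • T) (fun σ => by
      have h1 : 2 • (c : Gal (RatFunc F) → Pt E (SeparableClosure (RatFunc F))) σ = 0 := c.2.1 σ
      rw [hcσ, smul_sub, ← map_nsmul, sub_eq_zero] at h1
      exact h1)
    have hR0 : 2 ^ k • R = 0 := by
      apply Affine.Point.map_injective (Algebra.ofId (RatFunc F) (SeparableClosure (RatFunc F)))
      rw [map_nsmul, hR, map_zero, ← mul_smul, mul_comm, mul_smul]
      have h1 : 2 ^ k • T = 0 := hk
      rw [h1, smul_zero]
    have hRz : R = 0 := ctrl_tor (W := E.toAffine) (E.map_id) hT k R hR0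
    rw [hRz, map_zero] at hR
    rw [ctrl_mk_zero]
    exact ⟨T, hR.symm, hcσ⟩

end Pool.Agent.H456.Coh
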