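import Pool.Agent.H456.Coh.Stm

/-!
(C16a) `S_desc`: Galois descent for vector spaces, `L = SeparableClosure K`, `G = Gal K`. PROOF. Let `v ∈ V`; the stabilizer `U = {σ | ρ σ v = v}` is an open subgroup, so there is a finite Galois subextension `L'/K` of `L` with `Gal(L/L') ≤ U` (Krull topology:
`krullTopology_mem_nhds_one_iff` or `..._of_normal`, `IntermediateField.fixingSubgroup`; normal closure of a finite extension). For a `K`-basis `a_1, ..., a_n` of `L'` put `w_j = ∑_{s ∈ Gal(L'/K)} s(a_j) • ρ(s~) v`, where `s~ ∈ G` is any lift of `s` (`ρ(s~) v` does not depend on the lift because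
`Gal(L/L') ≤ U`). Then `ρ σ w_j = w_j` for all `σ ∈ G` (`σ` permutes the sum). The vectors `(s(a_j))_s`, `j = 1..n`, span `L^{Gal(L'/K)}` (the matrix `(s (a_j))` is invertible: linear independence of the characters `s : L' → L`, `linearIndependent_monoidHom`; alternatively for a linear form: if
`∑_s c_s s(a) = 0` for all `a ∈ L'` then `c = 0`), so `v = ρ(1) v` is an `L`-linear combination of the `w_j`. One can avoid the matrix: let `W` be the span of the fixed vectors, suppose `v ∉ W`; choose a linear form `φ : V → L` with `φ(W) = 0`, `φ(v) ≠ 0` (`Submodule.exists_le_ker_of_notMem`/`exists_dual_map_eq_bot`...);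
then `∑_s φ(ρ(s~) v) s(a) = φ(w_a) = 0` for all `a ∈ L'`, so all `φ(ρ(s~) v) = 0` by independence of characters, contradiction for `s = 1`.
-/

set_option autoImplicit false
set_option linter.all false

open Polynomial WeierstrassCurve IsDedekindDomain
open Pool.Agent.H456.BQ
open Pool.Agent.H456.EC (toK toK_inj sig toK_eq reflect_toK)

namespace Pool.Agent.H456.Coh


/-- the stabilizer of a vector -/
def desc_stab {K V : Type} [Field K] [AddCommGroup V] (ρ : (SeparableClosure K ≃ₐ[K] SeparableClosure K) → V →+ V)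
    (h1 : ∀ v, ρ 1 v = v) (hm : ∀ σ τ v, ρ (σ * τ) v = ρ σ (ρ τ v)) (v : V) :
    Subgroup (SeparableClosure K ≃ₐ[K] SeparableClosure K) where
  carrier := {σ | ρ σ v = v}
  one_mem' := h1 v
  mul_mem' := by
    intro a b ha hb
    simp only [Set.mem_setOf_eq] at ha hb ⊢
    rw [hm, hb, ha]
  inv_mem' := by
    intro a ha
    simp only [Set.mem_setOf_eq] at ha ⊢
    rw [← ha, ← hm, inv_mul_cancel, h1, ha]

theorem desc_main (K V : Type) [Field K] [AddCommGroup V] [Module (SeparableClosure K) V]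
    (ρ : (SeparableClosure K ≃ₐ[K] SeparableClosure K) → V →+ V)
    (hs : ∀ σ (a : SeparableClosure K) v, ρ σ (a • v) = σ a • ρ σ v) (h1 : ∀ v, ρ 1 v = v)
    (hm : ∀ σ τ v, ρ (σ * τ) v = ρ σ (ρ τ v)) (ho : ∀ v, IsOpen {σ | ρ σ v = v}) :
    Submodule.span (SeparableClosure K) {v | ∀ σ, ρ σ v = v} = ⊤ := by
  classical
  rw [Submodule.eq_top_iff']
  intro v
  by_contra hv
  obtain ⟨φ, hφv, hφ⟩ := Submodule.exists_le_ker_of_notMem hv
  let U : Subgroup (SeparableClosure K ≃ₐ[K] SeparableClosure K) := desc_stab ρ h1 hm v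
  have hUo : IsOpen (U : Set (SeparableClosure K ≃ₐ[K] SeparableClosure K)) := ho v
  have hUc : IsClosed (U : Set (SeparableClosure K ≃ₐ[K] SeparableClosure K)) := Subgroup.isClosed_of_isOpen U hUo
  haveI hfin : Finite ((SeparableClosure K ≃ₐ[K] SeparableClosure K) ⧸ U) := Subgroup.quotient_finite_of_isOpen U hUo
  haveI : Fintype ((SeparableClosure K ≃ₐ[K] SeparableClosure K) ⧸ U) := Fintype.ofFinite _
  have hU : ∀ σ, σ ∈ U ↔ ρ σ v = v := fun σ => Iff.rfl
  let F : IntermediateField K (SeparableClosure K) := IntermediateField.fixedField U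
  have hF : ∀ a : F, ∀ u ∈ U, u (a : SeparableClosure K) = a := by
    intro a u hu
    exact (IntermediateField.mem_fixedField_iff U a.1).1 a.2 u hu
  have hfix : F.fixingSubgroup = U := InfiniteGalois.fixingSubgroup_fixedField ⟨U, hUc⟩
  -- the characters
  let χ : ((SeparableClosure K ≃ₐ[K] SeparableClosure K) ⧸ U) → (F →* SeparableClosure K) := fun q =>
    ((q.out : SeparableClosure K →ₐ[K] SeparableClosure K).comp F.val : F →* SeparableClosure K)
  have hχ : ∀ q (a : F), χ q a = q.out (a : SeparableClosure K) := fun q a => rfl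
  have hχ' : ∀ (σ : SeparableClosure K ≃ₐ[K] SeparableClosure K) (a : F), χ (σ : (SeparableClosure K ≃ₐ[K] SeparableClosure K) ⧸ U) a = σ a := by
    intro σ a
    rw [hχ]
    obtain ⟨h, hh⟩ := QuotientGroup.mk_out_eq_mul U σ
    rw [hh, AlgEquiv.mul_apply, hF a h.1 h.2]
  have hinj : Function.Injective χ := by
    intro q r hqr
    rw [← QuotientGroup.out_eq' q, ← QuotientGroup.out_eq' r, QuotientGroup.eq]
    refine (SetLike.ext_iff.1 hfix _).1 ?_
    rw [IntermediateField.mem_fixingSubgroup_iff]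
    intro x hx
    have := DFunLike.congr_fun hqr (⟨x, hx⟩ : F)
    rw [hχ, hχ] at this
    rw [AlgEquiv.mul_apply, ← this]
    exact AlgEquiv.symm_apply_apply _ _
  have hli := (linearIndependent_monoidHom F (SeparableClosure K)).comp χ hinj
  have hρ : ∀ (σ : SeparableClosure K ≃ₐ[K] SeparableClosure K), ρ (Quotient.out (σ : (SeparableClosure K ≃ₐ[K] SeparableClosure K) ⧸ U)) v = ρ σ v := by
    intro σ
    obtain ⟨h, hh⟩ := QuotientGroup.mk_out_eq_mul U σ
    rw [hh, hm, (hU h.1).1 h.2]
  -- the fixed vectors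
  have hw : ∀ a : F, ∀ σ, ρ σ (∑ q : (SeparableClosure K ≃ₐ[K] SeparableClosure K) ⧸ U, χ q a • ρ q.out v) =
      ∑ q : (SeparableClosure K ≃ₐ[K] SeparableClosure K) ⧸ U, χ q a • ρ q.out v := by
    intro a σ
    rw [map_sum, ← Equiv.sum_comp (MulAction.toPerm σ) (fun q : (SeparableClosure K ≃ₐ[K] SeparableClosure K) ⧸ U => χ q a • ρ q.out v)]
    refine Finset.sum_congr rfl fun q _ => ?_
    rw [hs, ← hm]
    obtain ⟨τ, rfl⟩ := QuotientGroup.mk_surjective q
    have e : (MulAction.toPerm σ) (τ : (SeparableClosure K ≃ₐ[K] SeparableClosure K) ⧸ U) =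
        ((σ * τ : SeparableClosure K ≃ₐ[K] SeparableClosure K) : (SeparableClosure K ≃ₐ[K] SeparableClosure K) ⧸ U) := rfl
    rw [e, hχ', hχ', hρ, hm, hm, hρ, AlgEquiv.mul_apply]
  have hz : ∀ a : F, ∑ q : (SeparableClosure K ≃ₐ[K] SeparableClosure K) ⧸ U, φ (ρ q.out v) * χ q a = 0 := by
    intro a
    have h2 := hφ (Submodule.subset_span (hw a))
    rw [LinearMap.mem_ker, map_sum] at h2
    rw [← h2]
    refine Finset.sum_congr rfl fun q _ => ?_
    rw [map_smul, smul_eq_mul, mul_comm]
  have hz' := (Fintype.linearIndependent_iff.1 hli) (fun q => φ (ρ q.out v)) (by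
    funext a
    simp only [Finset.sum_apply, Pi.smul_apply, Function.comp_apply, smul_eq_mul, Pi.zero_apply]
    exact hz a)
  have := hz' ((1 : SeparableClosure K ≃ₐ[K] SeparableClosure K) : (SeparableClosure K ≃ₐ[K] SeparableClosure K) ⧸ U)
  simp only [hρ, h1] at this
  exact hφv this

theorem t_desc : S_desc := by
  intro K V _ _ _ ρ hs h1 hm ho
  exact desc_main K V ρ hs h1 hm ho

end Pool.Agent.H456.Coh
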