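import Pool.Agent.H456.Coh.Stm

/-!
(C22) `S_div`: over a separably closed field `L` of characteristic ≠ 2 every point of an elliptic curve is divisible by `2`. PROOF. `P = 0` is trivial. First reduce to `y² = f(x)` (`crv f`): complete the square, `C = (1, 0, -a₁/2, -a₃/2)` (`pEquiv`, BQ/ files; `Cub`), or work directly with `ψ₂`. For `y² = f(x)`, `P = (x₀, y₀)`: `f` splits in `L` with distinct roots
`e₁, e₂, e₃` (`f` is separable as the discriminant is nonzero), and `x₀ - eᵢ = wᵢ²` with `wᵢ ∈ L` (square roots exist, char ≠ 2); choose the signs such that `w₁ w₂ w₃ = -y₀` or `y₀` (possible: if `y₀ = 0` any signs). Then `x = x₀ + w₁w₂ + w₁w₃ + w₂w₃`, `y = ± (w₁+w₂)(w₁+w₃)(w₂+w₃)` is a point with `2 (x, y) = P` (check: `x - e₁ = w₁² + w₁w₂ + w₁w₃ + w₂w₃ =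
(w₁+w₂)(w₁+w₃)`, so `f(x) = ((w₁+w₂)(w₁+w₃)(w₂+w₃))²`; the slope of the tangent is `± (w₁+w₂+w₃)`, `x(2Q) = slope² - a - 2x = x₀` and the `y`-coordinate is `± w₁w₂w₃`; `wᵢ + wⱼ ≠ 0` because `wᵢ² ≠ wⱼ²`). Alternatively the polynomial `x(2Q) = x₀` (degree four) as in BQ/T_fg.lean / BQ/Grp.lean if convenient.
-/

set_option autoImplicit false
set_option linter.all false

open Polynomial WeierstrassCurve IsDedekindDomain
open Pool.Agent.H456.BQ
open Pool.Agent.H456.EC (toK toK_inj sig toK_eq reflect_toK)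

namespace Pool.Agent.H456.Coh

/-- the roots of the two-torsion polynomial -/
theorem div_roots (L : Type) [Field L] [IsSepClosed L] (h2 : (2 : L) ≠ 0) (E : WeierstrassCurve L)
    (hΔ : E.Δ ≠ 0) : ∃ e1 e2 e3 : L, e1 ≠ e2 ∧ e1 ≠ e3 ∧ e2 ≠ e3 ∧
      E.b₂ = -4 * (e1 + e2 + e3) ∧ E.b₄ = 2 * (e1 * e2 + e1 * e3 + e2 * e3) ∧
      E.b₆ = -4 * (e1 * e2 * e3) := by
  have h4 : (4 : L) ≠ 0 := by
    have : (4 : L) = 2 * 2 := by norm_num
    rw [this]
    exact mul_ne_zero h2 h2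
  have ha : E.twoTorsionPolynomial.a ≠ 0 := h4
  have hd : E.twoTorsionPolynomial.discr ≠ 0 := by
    rw [E.twoTorsionPolynomial_discr]
    have : (16 : L) = 4 * 4 := by norm_num
    rw [this]
    exact mul_ne_zero (mul_ne_zero h4 h4) hΔ
  have hsep : (E.twoTorsionPolynomial.toPoly).Separable := by
    have hs : (E.twoTorsionPolynomial.toPoly.map (algebraMap L (AlgebraicClosure L))).Splits :=
      IsAlgClosed.splits _
    have hn := (Cubic.discr_ne_zero_iff_roots_nodup ha hs).1 hd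
    rw [Cubic.map_roots] at hn
    have h0 : E.twoTorsionPolynomial.toPoly.map (algebraMap L (AlgebraicClosure L)) ≠ 0 := by
      rw [Ne, Polynomial.map_eq_zero]
      exact Cubic.ne_zero_of_a_ne_zero ha
    have h1 := (Polynomial.nodup_roots_iff_of_splits h0 hs).1 hn
    exact (Polynomial.separable_map _).1 h1
  have hs2 : (E.twoTorsionPolynomial.toPoly.map (RingHom.id L)).Splits := by
    rw [Polynomial.map_id]
    exact IsSepClosed.splits_of_separable _ hsep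
  obtain ⟨x, y, z, h3⟩ := (Cubic.splits_iff_roots_eq_three ha).1 hs2
  have hb := Cubic.b_eq_three_roots ha h3
  have hc := Cubic.c_eq_three_roots ha h3
  have hdd := Cubic.d_eq_three_roots ha h3
  obtain ⟨h5, h6, h7⟩ := (Cubic.discr_ne_zero_iff_roots_ne ha h3).1 hd
  simp only [WeierstrassCurve.twoTorsionPolynomial, RingHom.id_apply] at hb hc hdd
  refine ⟨x, y, z, h5, h6, h7, by rw [hb]; ring, ?_, by rw [hdd]; ring⟩
  have : (2 : L) * E.b₄ = 2 * (2 * (x * y + x * z + y * z)) := by rw [hc]; ring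
  exact mul_left_cancel₀ h2 this

theorem t_div : S_div := by
  classical
  intro L _ _ h2 E hΔ P
  have : NeZero (2 : L) := ⟨h2⟩
  have h4 : (4 : L) ≠ 0 := by
    have : (4 : L) = 2 * 2 := by norm_num
    rw [this]
    exact mul_ne_zero h2 h2
  rcases P with _ | ⟨x0, y0, hP⟩
  · exact ⟨0, smul_zero 2⟩
  obtain ⟨e1, e2, e3, h12, h13, h23, hb2, hb4, hb6⟩ := div_roots L h2 E hΔ
  obtain ⟨w1, hw1⟩ := IsSepClosed.exists_eq_mul_self (x0 - e1)
  obtain ⟨w2, hw2⟩ := IsSepClosed.exists_eq_mul_self (x0 - e2)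
  obtain ⟨w3', hw3'⟩ := IsSepClosed.exists_eq_mul_self (x0 - e3)
  have hE : y0 ^ 2 + E.a₁ * x0 * y0 + E.a₃ * y0 = x0 ^ 3 + E.a₂ * x0 ^ 2 + E.a₄ * x0 + E.a₆ :=
    (Affine.equation_iff _ _).1 hP.1
  -- `4 f (x0) = (2 y0 + a₁ x0 + a₃) ^ 2`
  have hbf : ∀ x : L, 4 * ((x - e1) * (x - e2) * (x - e3)) =
      4 * x ^ 3 + E.b₂ * x ^ 2 + 2 * E.b₄ * x + E.b₆ := by
    intro x
    rw [hb2, hb4, hb6]
    ring
  have hη : (2 * y0 + E.a₁ * x0 + E.a₃) ^ 2 = (2 * (w1 * w2 * w3')) ^ 2 := by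
    have e1' := hbf x0
    rw [hw1, hw2, hw3'] at e1'
    have e2' : (2 * y0 + E.a₁ * x0 + E.a₃) ^ 2 =
        4 * x0 ^ 3 + E.b₂ * x0 ^ 2 + 2 * E.b₄ * x0 + E.b₆ := by
      simp only [WeierstrassCurve.b₂, WeierstrassCurve.b₄, WeierstrassCurve.b₆]
      linear_combination 4 * hE
    rw [e2', ← e1']
    ring
  obtain ⟨w3, hw3, hw⟩ : ∃ w3, x0 - e3 = w3 * w3 ∧ 2 * y0 + E.a₁ * x0 + E.a₃ = 2 * (w1 * w2 * w3) := by
    rcases sq_eq_sq_iff_eq_or_eq_neg.1 hη with h | h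
    · exact ⟨w3', hw3', h⟩
    · exact ⟨-w3', by rw [hw3']; ring, by rw [h]; ring⟩
  have n12 : w1 + w2 ≠ 0 := fun h => h12 (by linear_combination hw2 - hw1 + (w2 - w1) * h)
  have n13 : w1 + w3 ≠ 0 := fun h => h13 (by linear_combination hw3 - hw1 + (w3 - w1) * h)
  have n23 : w2 + w3 ≠ 0 := fun h => h23 (by linear_combination hw3 - hw2 + (w3 - w2) * h)
  obtain ⟨x, hx⟩ : ∃ x, x = x0 + w1 * w2 + w1 * w3 + w2 * w3 := ⟨_, rfl⟩
  obtain ⟨η, hη⟩ : ∃ η, η = (w1 + w2) * (w1 + w3) * (w2 + w3) := ⟨_, rfl⟩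
  obtain ⟨y, hy⟩ : ∃ y, 2 * y = 2 * η - E.a₁ * x - E.a₃ :=
    ⟨(2 * η - E.a₁ * x - E.a₃) / 2, by field_simp⟩
  have hη0 : η ≠ 0 := by
    rw [hη]
    exact mul_ne_zero (mul_ne_zero n12 n13) n23
  have hx1 : x - e1 = (w1 + w2) * (w1 + w3) := by linear_combination hx + hw1
  have hx2 : x - e2 = (w1 + w2) * (w2 + w3) := by linear_combination hx + hw2
  have hx3 : x - e3 = (w1 + w3) * (w2 + w3) := by linear_combination hx + hw3
  have hEq : y ^ 2 + E.a₁ * x * y + E.a₃ * y = x ^ 3 + E.a₂ * x ^ 2 + E.a₄ * x + E.a₆ := by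
    have e3' : 4 * (y ^ 2 + E.a₁ * x * y + E.a₃ * y) =
        4 * (x ^ 3 + E.a₂ * x ^ 2 + E.a₄ * x + E.a₆) := by
      have e1' := hbf x
      rw [hx1, hx2, hx3] at e1'
      simp only [WeierstrassCurve.b₂, WeierstrassCurve.b₄, WeierstrassCurve.b₆] at e1'
      have e4' : (2 * y + E.a₁ * x + E.a₃) ^ 2 = (2 * η) ^ 2 := by
        have : 2 * y + E.a₁ * x + E.a₃ = 2 * η := by linear_combination hy
        rw [this]
      have e5' : 4 * ((w1 + w2) * (w1 + w3) * ((w1 + w2) * (w2 + w3)) *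
          ((w1 + w3) * (w2 + w3))) = (2 * η) ^ 2 := by
        rw [hη]; ring
      linear_combination e4' - e5' + e1'
    exact mul_left_cancel₀ h4 e3'
  have hneg : y ≠ E.toAffine.negY x y := by
    intro h
    apply hη0
    have h5 : y = -y - E.a₁ * x - E.a₃ := h
    have h6 : 2 * η = 2 * 0 := by linear_combination h5 - hy
    exact mul_left_cancel₀ h2 h6
  have hns : E.toAffine.Nonsingular x y := by
    rw [Affine.nonsingular_iff]
    refine ⟨(Affine.equation_iff _ _).2 hEq, Or.inr hneg⟩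
  refine ⟨Affine.Point.some x y hns, ?_⟩
  rw [two_nsmul, Affine.Point.add_self_of_Y_ne hneg]
  -- the slope
  obtain ⟨m, hm⟩ : ∃ m, m = E.toAffine.slope x x y y := ⟨_, rfl⟩
  have hm2 : 2 * m = 2 * (w1 + w2 + w3) - E.a₁ := by
    have h5 : y - E.toAffine.negY x y = 2 * η := by
      show y - (-y - E.a₁ * x - E.a₃) = 2 * η
      linear_combination hy
    rw [hm, Affine.slope_of_Y_ne rfl hneg, h5]
    have h6 : (2 * η : L) ≠ 0 := mul_ne_zero h2 hη0
    rw [mul_div_assoc', div_eq_iff h6]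
    -- derivative of the cubic
    have e6 : 12 * x ^ 2 + 2 * E.b₂ * x + 2 * E.b₄ =
        4 * ((x - e1) * (x - e2) + (x - e1) * (x - e3) + (x - e2) * (x - e3)) := by
      rw [hb2, hb4]
      ring
    rw [hx1, hx2, hx3] at e6
    simp only [WeierstrassCurve.b₂, WeierstrassCurve.b₄] at e6
    have e7 : 2 * (2 * (3 * x ^ 2 + 2 * E.a₂ * x + E.a₄ - E.a₁ * y)) =
        2 * ((2 * (w1 + w2 + w3) - E.a₁) * (2 * η)) := by
      rw [hη] at hy ⊢
      linear_combination e6 - 2 * E.a₁ * hy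
    exact mul_left_cancel₀ h2 e7
  have hX : E.toAffine.addX x x m = x0 := by
    have e8 : 4 * E.toAffine.addX x x m = 4 * x0 := by
      unfold Affine.addX
      have e9 : 4 * (m ^ 2 + E.a₁ * m - E.a₂ - x - x) =
          (2 * m) ^ 2 + 2 * E.a₁ * (2 * m) - 4 * E.a₂ - 8 * x := by ring
      rw [e9, hm2]
      simp only [WeierstrassCurve.b₂] at hb2
      linear_combination (-hb2) - 8 * hx - 4 * hw1 - 4 * hw2 - 4 * hw3
    exact mul_left_cancel₀ h4 e8
  have hY : E.toAffine.addY x x y m = y0 := by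
    have e8 : 2 * E.toAffine.addY x x y m = 2 * y0 := by
      unfold Affine.addY Affine.negAddY
      rw [hX]
      unfold Affine.negY
      have e9 : 2 * (-(m * (x0 - x) + y) - E.a₁ * x0 - E.a₃) =
          -((2 * m) * (x0 - x)) - 2 * y - 2 * E.a₁ * x0 - 2 * E.a₃ := by ring
      rw [e9, hm2, hy]
      rw [hη, hx]
      linear_combination -hw
    exact mul_left_cancel₀ h2 e8
  rw [hm] at hX hY
  simp only [hX, hY]

end Pool.Agent.H456.Coh
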