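import Pool.Agent.H456.Coh.Stm

/-!
(C11) `S_exc`. Let `Ks = SeparableClosure K`. `mapP Ks s` has the resolvent condition over `Ks` (`Q4.map_res`, `Cub.map_sc`, `Cub.map_tr`), so `S_base` gives `M : M2 Ks` with `PE M zp (mapP s)`. For `σ : Gal K` also `PE (M.map σ) zp (mapP s)`
(apply `σ` to the three conditions; `σ` fixes the image of `K`). So `PE ((M.map σ).mul M.adj) zp zp` (`PE.trans`, `PE.symm`) and by `S_mstab` `(M.map σ).mul M.adj = (mT T).scal k`; choose `c σ := T` (unique by `S_minj`). Multiply by `M`: `M.adj.mul M = det M · 1`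
gives `M.map σ = ((mT (c σ)).mul M).scal k'`. COCYCLE: `M.map (στ) = (M.map τ).map σ = (((mT (c τ)).mul M).scal k).map σ = ((mT (σ (c τ))).mul (M.map σ)).scal σk = (mT (σ c τ)).mul (mT (c σ)) M · scalar = mT (σ (c τ) + c σ) M · scalar` (`S_mmul`); compare with
`mT (c (στ)) M · scalar` and cancel `M` (invertible): `S_minj` gives `c (στ) = σ (c τ) + c σ`. Here `mT (Affine.Point.map σ.toAlgHom T) = (mT T).map σ` (by cases on `T`; `algebraMap` is fixed by `σ`). CONTINUITY: if `σ` and `σ'` agree on the four entries of `M` then `c σ = c σ'`;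
the set of such `σ'` is open (Krull topology: the fixing subgroup of a finite extension is open, `IntermediateField.fixingSubgroup_isOpen`, `krullTopology`), so `c` is locally constant (`IsLocallyConstant.iff_exists_open`).
-/

set_option autoImplicit false
set_option linter.all false

open Polynomial WeierstrassCurve IsDedekindDomain
open Pool.Agent.H456.BQ
open Pool.Agent.H456.EC (toK toK_inj sig toK_eq reflect_toK)

namespace Pool.Agent.H456.Coh

section matrices

variable {L : Type} [Field L]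

theorem exc_scal_one (M : M2 L) : M.scal 1 = M := by
  ext <;> simp only [M2.scal, one_mul]

theorem exc_map_scal {L' : Type} [Field L'] (φ : L →+* L') (M : M2 L) (k : L) :
    (M.scal k).map φ = (M.map φ).scal (φ k) := by
  ext <;> simp only [M2.scal, M2.map, map_mul]

theorem exc_mul_diag (M : M2 L) (k : L) : M.mul ⟨k, 0, 0, k⟩ = M.scal k := by
  ext <;> simp only [M2.mul, M2.scal] <;> ring

theorem exc_cancel {M A B : M2 L} (hM : M.det ≠ 0) (h : A.mul M = B.mul M) : A = B := by
  have h1 := congrArg (fun N => N.mul M.adj) h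
  simp only [M2.mul_assoc, M2.mul_adj, exc_mul_diag] at h1
  have h2 := congrArg (M2.scal M.det⁻¹) h1
  rwa [M2.scal_scal, M2.scal_scal, mul_inv_cancel₀ hM, exc_scal_one, exc_scal_one] at h2

/-- a homomorphism preserves the relation -/
theorem exc_PE_map {L' : Type} [Field L'] (φ : L →+* L') {M : M2 L} {s s' : Q4 L × L} (h : PE M s s') :
    PE (M.map φ) (s.1.map φ, φ s.2) (s'.1.map φ, φ s'.2) := by
  refine ⟨?_, ?_, ?_⟩
  · rw [M2.map_det]; exact (map_ne_zero_iff _ φ.injective).2 h.det
  · rw [← Q4.map_sub, h.sub, Q4.map_smul, M2.map_det, map_pow]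
  · rw [Q4.map_tau, h.tau, M2.map_det, map_mul, map_pow, map_sub]

/-- from `M' * adj M = k S` to `M' = k' S M` -/
theorem exc_unadj {M M' S : M2 L} (hM : M.det ≠ 0) {k : L} (hk : k ≠ 0) (h : M'.mul M.adj = S.scal k) :
    ∃ k' : L, k' ≠ 0 ∧ M' = (S.mul M).scal k' := by
  refine ⟨k * M.det⁻¹, mul_ne_zero hk (inv_ne_zero hM), ?_⟩
  have h1 := congrArg (fun N => N.mul M) h
  simp only [M2.mul_assoc, M2.adj_mul, exc_mul_diag, M2.scal_mul] at h1
  have h2 := congrArg (M2.scal M.det⁻¹) h1
  rwa [M2.scal_scal, M2.scal_scal, mul_inv_cancel₀ hM, exc_scal_one] at h2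

end matrices

section galois

variable {K : Type} [Field K]

theorem exc_fix (σ : Gal K) (x : K) :
    (σ.toAlgHom : SeparableClosure K →+* SeparableClosure K) (algebraMap K (SeparableClosure K) x) =
      algebraMap K (SeparableClosure K) x := σ.commutes x

theorem exc_mapP_fix (σ : Gal K) (s : Q4 K × K) :
    ((mapP (SeparableClosure K) s).1.map (σ.toAlgHom : SeparableClosure K →+* SeparableClosure K),
      (σ.toAlgHom : SeparableClosure K →+* SeparableClosure K) (mapP (SeparableClosure K) s).2) =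
      mapP (SeparableClosure K) s := by
  simp only [mapP, Q4.map, exc_fix]

theorem exc_zp_fix (σ : Gal K) (f : Cub K) :
    ((zp (fL f (SeparableClosure K))).1.map (σ.toAlgHom : SeparableClosure K →+* SeparableClosure K),
      (σ.toAlgHom : SeparableClosure K →+* SeparableClosure K) (zp (fL f (SeparableClosure K))).2) =
      zp (fL f (SeparableClosure K)) := by
  simp only [zp, Q4.map, Cub.map, map_zero, map_mul, map_ofNat, exc_fix]

/-- the relation is preserved by the Galois action -/
theorem exc_PE_gal (σ : Gal K) {f : Cub K} {s : Q4 K × K} {M : M2 (SeparableClosure K)}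
    (h : PE M (zp (fL f (SeparableClosure K))) (mapP (SeparableClosure K) s)) :
    PE (M.map (σ.toAlgHom : SeparableClosure K →+* SeparableClosure K)) (zp (fL f (SeparableClosure K)))
      (mapP (SeparableClosure K) s) := by
  have h1 := exc_PE_map (σ.toAlgHom : SeparableClosure K →+* SeparableClosure K) h
  rwa [exc_zp_fix, exc_mapP_fix] at h1

open Classical in
theorem exc_mT_map (σ : Gal K) {f : Cub K} (T : Pt (crv f) (SeparableClosure K)) :
    mT (Affine.Point.map σ.toAlgHom T) = (mT T).map (σ.toAlgHom : SeparableClosure K →+* SeparableClosure K) := by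
  cases T with
  | zero =>
    have e : Affine.Point.map (W' := (crv f).toAffine) σ.toAlgHom
        (Affine.Point.zero : Pt (crv f) (SeparableClosure K)) = Affine.Point.zero := rfl
    rw [e]
    simp only [mT, M2.map, map_one, map_zero]
  | some x y h =>
    rw [Affine.Point.map_some]
    simp only [mT, M2.map, map_one, map_neg, map_sub, map_add, map_mul, map_pow, map_ofNat, Cub.dev, Cub.map, exc_fix]
    rfl

theorem exc_map_mul (σ τ : Gal K) (M : M2 (SeparableClosure K)) :
    M.map ((σ * τ).toAlgHom : SeparableClosure K →+* SeparableClosure K) =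
      (M.map (τ.toAlgHom : SeparableClosure K →+* SeparableClosure K)).map
        (σ.toAlgHom : SeparableClosure K →+* SeparableClosure K) := rfl

/-- the automorphisms which agree with `σ` at `x` form an open set -/
theorem exc_open (σ : Gal K) (x : SeparableClosure K) : IsOpen {τ : Gal K | τ x = σ x} := by
  have h : IsOpen (MulAction.stabilizer (Gal K) x : Set (Gal K)) := stabilizer_isOpen_of_isIntegral x
  have e : {τ : Gal K | τ x = σ x} = (fun τ : Gal K => σ⁻¹ * τ) ⁻¹' (MulAction.stabilizer (Gal K) x : Set (Gal K)) := by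
    ext τ
    rw [Set.mem_preimage, SetLike.mem_coe, MulAction.mem_stabilizer_iff]
    constructor
    · intro h1
      have h2 : τ x = σ x := h1
      rw [mul_smul]
      have h3 : τ • x = σ • x := h2
      rw [h3, inv_smul_smul]
    · intro h1
      rw [mul_smul, inv_smul_eq_iff] at h1
      exact h1
  rw [e]
  exact h.preimage (continuous_const_mul _)

end galois

section inst

variable {K L : Type} [Field K] [Field L] [Algebra K L] [d : DecidableEq L]

theorem exc_mstab (h : S_mstab) (h2 : (2 : K) ≠ 0) (f : Cub K) (hf : f.disc ≠ 0) (M : M2 L)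
    (hM : PE M (zp (fL f L)) (zp (fL f L))) :
    ∃ (T : Pt (crv f) L) (k : L), 2 • T = 0 ∧ k ≠ 0 ∧ M = (mT T).scal k := by
  have e : d = fun a b => Classical.propDecidable (a = b) := Subsingleton.elim _ _
  subst e
  exact h K L h2 f hf M hM

theorem exc_mmul (h : S_mmul) (h2 : (2 : K) ≠ 0) (f : Cub K) (hf : f.disc ≠ 0) (T T' : Pt (crv f) L)
    (hT : 2 • T = 0) (hT' : 2 • T' = 0) : ∃ k : L, k ≠ 0 ∧ (mT T).mul (mT T') = (mT (T + T')).scal k := by
  have e : d = fun a b => Classical.propDecidable (a = b) := Subsingleton.elim _ _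
  subst e
  exact h K L h2 f hf T T' hT hT'

theorem exc_minj (h : S_minj) (h2 : (2 : K) ≠ 0) (f : Cub K) (hf : f.disc ≠ 0) (T T' : Pt (crv f) L) (k : L)
    (hT : 2 • T = 0) (hT' : 2 • T' = 0) (he : mT T = (mT T').scal k) : T = T' := by
  have e : d = fun a b => Classical.propDecidable (a = b) := Subsingleton.elim _ _
  subst e
  exact h K L h2 f hf T T' k hT hT' he

end inst

theorem t_exc : S_base → S_mPE → S_mstab → S_mmul → S_minj → S_exc := by
  classical
  intro hbase hmPE hmstab hmmul hminj K _ h2 f hf s hs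
  have h2' : (2 : SeparableClosure K) ≠ 0 := by
    have h3 := (map_ne_zero_iff _ (algebraMap K (SeparableClosure K)).injective).2 h2
    rwa [map_ofNat] at h3
  -- the matrix
  obtain ⟨M, hM⟩ := hbase (SeparableClosure K) h2' (fL f (SeparableClosure K))
    (by rw [Cub.map_disc]; exact (map_ne_zero_iff _ (algebraMap K (SeparableClosure K)).injective).2 hf)
    (mapP (SeparableClosure K) s) (by
      simp only [mapP]
      rw [Q4.map_res, hs, Cub.map_tr, Cub.map_sc, map_ofNat])
  -- the cocycle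
  have hex : ∀ σ : Gal K, ∃ T : Pt (crv f) (SeparableClosure K), 2 • T = 0 ∧ ∃ k : SeparableClosure K, k ≠ 0 ∧
      M.map (σ.toAlgHom : SeparableClosure K →+* SeparableClosure K) = ((mT T).mul M).scal k := by
    intro σ
    have h1 := (exc_PE_gal σ hM).trans hM.symm
    obtain ⟨T, k, hT, hk, e⟩ := exc_mstab hmstab h2 f hf _ h1
    exact ⟨T, hT, exc_unadj hM.det hk e⟩
  choose c hc2 hc using hex
  -- uniqueness
  have huniq : ∀ (T T' : Pt (crv f) (SeparableClosure K)), 2 • T = 0 → 2 • T' = 0 → ∀ k k' : SeparableClosure K, k ≠ 0 →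
      ((mT T).mul M).scal k = ((mT T').mul M).scal k' → T = T' := by
    intro T T' hT hT' k k' hk e
    rw [← M2.scal_mul, ← M2.scal_mul] at e
    have e1 := exc_cancel hM.det e
    have e2 := congrArg (M2.scal k⁻¹) e1
    rw [M2.scal_scal, M2.scal_scal, mul_inv_cancel₀ hk, exc_scal_one] at e2
    exact exc_minj hminj h2 f hf T T' _ hT hT' e2
  refine ⟨c, ⟨fun σ => ?_, fun σ τ => ?_, ?_⟩, ⟨M, hM, hc⟩⟩
  · exact hc2 σ
  · obtain ⟨k₁, hk₁, e₁⟩ := hc (σ * τ)
    obtain ⟨k₂, hk₂, e₂⟩ := hc σ
    obtain ⟨k₃, hk₃, e₃⟩ := hc τ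
    have hT : 2 • Affine.Point.map (W' := (crv f).toAffine) σ.toAlgHom (c τ) = 0 := by
      rw [← map_nsmul, hc2 τ, map_zero]
    obtain ⟨k₄, hk₄, e₄⟩ := exc_mmul hmmul h2 f hf _ _ hT (hc2 σ)
    rw [exc_map_mul, e₃, exc_map_scal, M2.map_mul, ← exc_mT_map, e₂, M2.mul_scal, ← M2.mul_assoc, e₄,
      M2.scal_mul, M2.scal_scal, M2.scal_scal] at e₁
    have hsum : 2 • (Affine.Point.map (W' := (crv f).toAffine) σ.toAlgHom (c τ) + c σ) = 0 := by
      rw [smul_add, hT, hc2 σ, add_zero]
    have hne : (σ.toAlgHom : SeparableClosure K →+* SeparableClosure K) k₃ ≠ 0 :=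
      (map_ne_zero_iff _ (σ.toAlgHom : SeparableClosure K →+* SeparableClosure K).injective).2 hk₃
    have h3 := huniq _ _ hsum (hc2 (σ * τ)) _ _ (mul_ne_zero hk₄ (mul_ne_zero hk₂ hne)) e₁
    rw [← h3, add_comm]
  · rw [IsLocallyConstant.iff_exists_open]
    intro σ
    refine ⟨{τ : Gal K | τ M.α = σ M.α} ∩ {τ : Gal K | τ M.β = σ M.β} ∩ {τ : Gal K | τ M.γ = σ M.γ} ∩
      {τ : Gal K | τ M.δ = σ M.δ}, ((exc_open σ _).inter (exc_open σ _)).inter (exc_open σ _) |>.inter (exc_open σ _),
      ⟨⟨⟨rfl, rfl⟩, rfl⟩, rfl⟩, ?_⟩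
    rintro τ ⟨⟨⟨h1, h3⟩, h4⟩, h5⟩
    simp only [Set.mem_ofPred_eq] at h1 h3 h4 h5
    have e : M.map (τ.toAlgHom : SeparableClosure K →+* SeparableClosure K) =
        M.map (σ.toAlgHom : SeparableClosure K →+* SeparableClosure K) := by
      exact M2.ext h1 h3 h4 h5
    obtain ⟨k₁, hk₁, e₁⟩ := hc τ
    obtain ⟨k₂, hk₂, e₂⟩ := hc σ
    rw [e₁, e₂] at e
    exact huniq _ _ (hc2 τ) (hc2 σ) _ _ hk₁ e

end Pool.Agent.H456.Coh
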