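import Pool.Agent.H456.Coh.Stm
import Pool.Agent.H456.BQ.T_mcomp

/-!
(C19) `S_hasse`: the Hasse principle for ternary quadratic forms over `F(t)`, `F` finite of odd characteristic; only the
finite places are needed. Legendre's method: reduction to `a x² + b y² + c z²` with `a b c` squarefree, the local
conditions give a linear condition modulo `a b c`, counting dimensions gives a vector with `q = λ a b c`.
-/

set_option autoImplicit false
set_option linter.all false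

open Polynomial WeierstrassCurve IsDedekindDomain
open Pool.Agent.H456.BQ
open Pool.Agent.H456.EC (toK toK_inj sig toK_eq reflect_toK)

namespace Pool.Agent.H456.Coh

/-! ### diagonal forms -/

/-- the diagonal form is isotropic -/
def hasse_Iso (L : Type) [CommRing L] (a b c : L) : Prop :=
  ∃ x y z : L, ¬ (x = 0 ∧ y = 0 ∧ z = 0) ∧ a * x ^ 2 + b * y ^ 2 + c * z ^ 2 = 0

theorem hasse_swap12 {L : Type} [CommRing L] {a b c : L} (h : hasse_Iso L a b c) :
    hasse_Iso L b a c := by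
  obtain ⟨x, y, z, h0, h1⟩ := h
  exact ⟨y, x, z, fun ⟨h2, h3, h4⟩ => h0 ⟨h3, h2, h4⟩, by rw [← h1]; ring⟩

theorem hasse_swap23 {L : Type} [CommRing L] {a b c : L} (h : hasse_Iso L a b c) :
    hasse_Iso L a c b := by
  obtain ⟨x, y, z, h0, h1⟩ := h
  exact ⟨x, z, y, fun ⟨h2, h3, h4⟩ => h0 ⟨h2, h4, h3⟩, by rw [← h1]; ring⟩

theorem hasse_sq {L : Type} [Field L] {a b c p : L} (hp : p ≠ 0) :
    hasse_Iso L (p ^ 2 * a) b c ↔ hasse_Iso L a b c := by
  constructor
  · rintro ⟨x, y, z, h0, h1⟩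
    refine ⟨p * x, y, z, ?_, by rw [← h1]; ring⟩
    rintro ⟨h2, h3, h4⟩
    exact h0 ⟨(mul_eq_zero.1 h2).resolve_left hp, h3, h4⟩
  · rintro ⟨x, y, z, h0, h1⟩
    refine ⟨x / p, y, z, ?_, by rw [← h1]; field_simp⟩
    rintro ⟨h2, h3, h4⟩
    refine h0 ⟨?_, h3, h4⟩
    rcases div_eq_zero_iff.1 h2 with h | h
    · exact h
    · exact absurd h hp

theorem hasse_pp {L : Type} [Field L] {a b c p : L} (hp : p ≠ 0) :
    hasse_Iso L (p * a) (p * b) c ↔ hasse_Iso L a b (p * c) := by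
  constructor
  · rintro ⟨x, y, z, h0, h1⟩
    refine ⟨p * x, p * y, z, ?_, ?_⟩
    · rintro ⟨h2, h3, h4⟩
      exact h0 ⟨(mul_eq_zero.1 h2).resolve_left hp, (mul_eq_zero.1 h3).resolve_left hp, h4⟩
    · have : a * (p * x) ^ 2 + b * (p * y) ^ 2 + p * c * z ^ 2 =
        p * (p * a * x ^ 2 + p * b * y ^ 2 + c * z ^ 2) := by ring
      rw [this, h1, mul_zero]
  · rintro ⟨x, y, z, h0, h1⟩
    refine ⟨x / p, y / p, z, ?_, ?_⟩
    · rintro ⟨h2, h3, h4⟩
      refine h0 ⟨?_, ?_, h4⟩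
      · rcases div_eq_zero_iff.1 h2 with h | h
        · exact h
        · exact absurd h hp
      · rcases div_eq_zero_iff.1 h3 with h | h
        · exact h
        · exact absurd h hp
    · have : p * (p * a * (x / p) ^ 2 + p * b * (y / p) ^ 2 + c * z ^ 2) =
        a * x ^ 2 + b * y ^ 2 + p * c * z ^ 2 := by field_simp
      have h5 : p * (p * a * (x / p) ^ 2 + p * b * (y / p) ^ 2 + c * z ^ 2) = 0 := by
        rw [this, h1]
      exact (mul_eq_zero.1 h5).resolve_left hp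

/-! ### completing the squares -/

/-- the second coefficient -/
def hasse_b {R : Type} [CommRing R] (q : TF R) : R := 4 * q.A * q.B - q.D ^ 2

/-- the third coefficient -/
def hasse_c {R : Type} [CommRing R] (q : TF R) : R :=
  4 * hasse_b q * (4 * q.A * q.C - q.E ^ 2) - (4 * q.A * q.G - 2 * q.D * q.E) ^ 2

theorem hasse_identity {R : Type} [CommRing R] (q : TF R) (x y z : R) :
    16 * q.A * hasse_b q * q.ev x y z =
      4 * hasse_b q * (2 * q.A * x + q.D * y + q.E * z) ^ 2 +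
      (2 * hasse_b q * y + (4 * q.A * q.G - 2 * q.D * q.E) * z) ^ 2 + hasse_c q * z ^ 2 := by
  unfold hasse_c hasse_b TF.ev
  ring

theorem hasse_toDiag {L : Type} [Field L] (h2 : (2 : L) ≠ 0) (q : TF L) (hA : q.A ≠ 0)
    (hb : hasse_b q ≠ 0) (h : ∃ x y z : L, ¬ (x = 0 ∧ y = 0 ∧ z = 0) ∧ q.ev x y z = 0) :
    hasse_Iso L (4 * hasse_b q) 1 (hasse_c q) := by
  obtain ⟨x, y, z, h0, h1⟩ := h
  refine ⟨2 * q.A * x + q.D * y + q.E * z,
    2 * hasse_b q * y + (4 * q.A * q.G - 2 * q.D * q.E) * z, z, ?_, ?_⟩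
  · rintro ⟨e1, e2, e3⟩
    subst e3
    simp only [mul_zero, add_zero] at e1 e2
    have hy : y = 0 := by
      rcases mul_eq_zero.1 e2 with h | h
      · exact absurd h (mul_ne_zero h2 hb)
      · exact h
    subst hy
    simp only [mul_zero, add_zero] at e1
    have hx : x = 0 := by
      rcases mul_eq_zero.1 e1 with h | h
      · exact absurd h (mul_ne_zero h2 hA)
      · exact h
    exact h0 ⟨hx, rfl, rfl⟩
  · have := hasse_identity q x y z
    rw [h1, mul_zero] at this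
    rw [one_mul]
    exact this.symm

theorem hasse_ofDiag {L : Type} [Field L] (h2 : (2 : L) ≠ 0) (q : TF L) (hA : q.A ≠ 0)
    (hb : hasse_b q ≠ 0) (h : hasse_Iso L (4 * hasse_b q) 1 (hasse_c q)) :
    ∃ x y z : L, ¬ (x = 0 ∧ y = 0 ∧ z = 0) ∧ q.ev x y z = 0 := by
  obtain ⟨X, Y, Z, h0, h1⟩ := h
  set g := 4 * q.A * q.G - 2 * q.D * q.E with hg
  have hbb : 2 * hasse_b q ≠ 0 := mul_ne_zero h2 hb
  have hAA : 2 * q.A ≠ 0 := mul_ne_zero h2 hA
  have h16 : 16 * q.A * hasse_b q ≠ 0 := by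
    have : 16 * q.A * hasse_b q = 2 * 2 * (2 * q.A) * (2 * hasse_b q) := by ring
    rw [this]
    exact mul_ne_zero (mul_ne_zero (mul_ne_zero h2 h2) hAA) hbb
  set y := (Y - g * Z) / (2 * hasse_b q) with hy
  set x := (X - q.D * y - q.E * Z) / (2 * q.A) with hx
  have e1 : 2 * q.A * x + q.D * y + q.E * Z = X := by
    rw [hx, mul_div_cancel₀ _ hAA]; ring
  have e2 : 2 * hasse_b q * y + g * Z = Y := by
    rw [hy, mul_div_cancel₀ _ hbb]; ring
  refine ⟨x, y, Z, ?_, ?_⟩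
  · rintro ⟨f1, f2, f3⟩
    rw [f1, f2, f3] at e1
    rw [f2, f3] at e2
    apply h0
    refine ⟨?_, ?_, f3⟩
    · rw [← e1]; ring
    · rw [← e2]; ring
  · have := hasse_identity q x y Z
    rw [e1, ← hg, e2] at this
    rw [one_mul] at h1
    rw [h1] at this
    exact (mul_eq_zero.1 this).resolve_left h16

theorem hasse_A0 {L : Type} [Field L] (q : TF L) (hA : q.A = 0) :
    ∃ x y z : L, ¬ (x = 0 ∧ y = 0 ∧ z = 0) ∧ q.ev x y z = 0 := by
  refine ⟨1, 0, 0, fun h => one_ne_zero h.1, ?_⟩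
  simp [TF.ev, hA]

theorem hasse_b0 {L : Type} [Field L] (h2 : (2 : L) ≠ 0) (q : TF L) (hA : q.A ≠ 0)
    (hb : hasse_b q = 0) : ∃ x y z : L, ¬ (x = 0 ∧ y = 0 ∧ z = 0) ∧ q.ev x y z = 0 := by
  refine ⟨-q.D, 2 * q.A, 0, fun h => mul_ne_zero h2 hA h.2.1, ?_⟩
  have : q.ev (-q.D) (2 * q.A) 0 = q.A * hasse_b q := by
    unfold TF.ev hasse_b; ring
  rw [this, hb, mul_zero]

theorem hasse_c0 {L : Type} [Field L] (h2 : (2 : L) ≠ 0) (q : TF L) (hA : q.A ≠ 0)
    (hb : hasse_b q ≠ 0) (hc : hasse_c q = 0) :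
    ∃ x y z : L, ¬ (x = 0 ∧ y = 0 ∧ z = 0) ∧ q.ev x y z = 0 := by
  apply hasse_ofDiag h2 q hA hb
  refine ⟨0, 0, 1, fun h => one_ne_zero h.2.2, ?_⟩
  rw [hc]; ring

theorem hasse_map {R S : Type} [CommRing R] [CommRing S] (φ : R →+* S) (q : TF R) :
    hasse_b (q.map φ) = φ (hasse_b q) ∧ hasse_c (q.map φ) = φ (hasse_c q) := by
  have h4 : φ 4 = 4 := map_ofNat φ 4
  have h2 : φ 2 = 2 := map_ofNat φ 2
  constructor
  · simp only [hasse_b, TF.map, map_sub, map_mul, map_pow, h4, h2]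
  · simp only [hasse_c, hasse_b, TF.map, map_sub, map_mul, map_pow, h4, h2]

/-! ### finite fields -/

theorem hasse_finite {F : Type} [Field F] [Finite F] (h2 : (2 : F) ≠ 0) (q : TF F) :
    ∃ x y z : F, ¬ (x = 0 ∧ y = 0 ∧ z = 0) ∧ q.ev x y z = 0 := by
  classical
  haveI := Fintype.ofFinite F
  by_cases hA : q.A = 0
  · exact hasse_A0 q hA
  by_cases hb : hasse_b q = 0
  · exact hasse_b0 h2 q hA hb
  apply hasse_ofDiag h2 q hA hb
  have h4b : 4 * hasse_b q ≠ 0 := by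
    have : 4 * hasse_b q = 2 * 2 * hasse_b q := by ring
    rw [this]
    exact mul_ne_zero (mul_ne_zero h2 h2) hb
  have hcard : Fintype.card F % 2 = 1 := by
    rw [← Nat.odd_iff]
    rcases Nat.even_or_odd (Fintype.card F) with he | ho
    · exfalso
      apply h2
      have h3 : ringChar F = 2 := FiniteField.even_card_iff_char_two.2 (Nat.even_iff.1 he)
      have : ((2 : ℕ) : F) = 0 := by
        rw [← h3]; exact ringChar.Nat.cast_ringChar
      exact_mod_cast this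
    · exact ho
  obtain ⟨x, y, hxy⟩ := FiniteField.exists_root_sum_quadratic
    (f := C (4 * hasse_b q) * X ^ 2 + C (hasse_c q)) (g := X ^ 2)
    (by rw [degree_add_eq_left_of_degree_lt]
        · rw [degree_C_mul_X_pow 2 h4b]; rfl
        · rw [degree_C_mul_X_pow 2 h4b]
          exact lt_of_le_of_lt degree_C_le (by norm_num))
    (by rw [degree_X_pow]; rfl) hcard
  refine ⟨x, y, 1, fun h => one_ne_zero h.2.2, ?_⟩
  simp only [eval_add, eval_mul, eval_C, eval_pow, eval_X] at hxy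
  rw [← hxy]; ring

/-! ### primes -/

theorem hasse_prime {R : Type} [CommRing R] [IsDomain R] {p a b : R} (hp : Prime p)
    (h : p ^ 2 ∣ a * b) : p ^ 2 ∣ a ∨ p ^ 2 ∣ b ∨ (p ∣ a ∧ p ∣ b) := by
  by_cases ha : p ∣ a
  · by_cases hb : p ∣ b
    · exact Or.inr (Or.inr ⟨ha, hb⟩)
    · exact Or.inl (hp.pow_dvd_of_dvd_mul_right 2 hb h)
  · exact Or.inr (Or.inl (hp.pow_dvd_of_dvd_mul_left 2 ha h))

/-! ### local solutions -/

theorem hasse_integral {O L : Type} [CommRing O] [IsDomain O] [Field L] [Algebra O L]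
    [IsFractionRing O L] {a b c : O}
    (h : hasse_Iso L (algebraMap O L a) (algebraMap O L b) (algebraMap O L c)) :
    hasse_Iso O a b c := by
  obtain ⟨x, y, z, h0, h1⟩ := h
  obtain ⟨x₁, x₂, hx₂, hx⟩ := IsFractionRing.div_surjective (A := O) x
  obtain ⟨y₁, y₂, hy₂, hy⟩ := IsFractionRing.div_surjective (A := O) y
  obtain ⟨z₁, z₂, hz₂, hz⟩ := IsFractionRing.div_surjective (A := O) z
  have kx : x₂ ≠ 0 := nonZeroDivisors.ne_zero hx₂
  have ky : y₂ ≠ 0 := nonZeroDivisors.ne_zero hy₂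
  have kz : z₂ ≠ 0 := nonZeroDivisors.ne_zero hz₂
  have inj : Function.Injective (algebraMap O L) := IsFractionRing.injective O L
  have lx : algebraMap O L x₂ ≠ 0 := fun h => kx (inj (by rw [h, map_zero]))
  have ly : algebraMap O L y₂ ≠ 0 := fun h => ky (inj (by rw [h, map_zero]))
  have lz : algebraMap O L z₂ ≠ 0 := fun h => kz (inj (by rw [h, map_zero]))
  refine ⟨x₁ * (y₂ * z₂), y₁ * (x₂ * z₂), z₁ * (x₂ * y₂), ?_, ?_⟩
  · rintro ⟨e1, e2, e3⟩
    apply h0
    have f1 : x₁ = 0 := (mul_eq_zero.1 e1).resolve_right (mul_ne_zero ky kz)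
    have f2 : y₁ = 0 := (mul_eq_zero.1 e2).resolve_right (mul_ne_zero kx kz)
    have f3 : z₁ = 0 := (mul_eq_zero.1 e3).resolve_right (mul_ne_zero kx ky)
    refine ⟨?_, ?_, ?_⟩
    · rw [← hx, f1, map_zero, zero_div]
    · rw [← hy, f2, map_zero, zero_div]
    · rw [← hz, f3, map_zero, zero_div]
  · apply inj
    simp only [map_add, map_mul, map_pow, map_zero]
    have ex : algebraMap O L x₁ = x * algebraMap O L x₂ := by rw [← hx]; field_simp
    have ey : algebraMap O L y₁ = y * algebraMap O L y₂ := by rw [← hy]; field_simp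
    have ez : algebraMap O L z₁ = z * algebraMap O L z₂ := by rw [← hz]; field_simp
    rw [ex, ey, ez]
    have : algebraMap O L a * (x * algebraMap O L x₂ * (algebraMap O L y₂ * algebraMap O L z₂)) ^ 2 +
        algebraMap O L b * (y * algebraMap O L y₂ * (algebraMap O L x₂ * algebraMap O L z₂)) ^ 2 +
        algebraMap O L c * (z * algebraMap O L z₂ * (algebraMap O L x₂ * algebraMap O L y₂)) ^ 2 =
        (algebraMap O L a * x ^ 2 + algebraMap O L b * y ^ 2 + algebraMap O L c * z ^ 2) *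
          (algebraMap O L x₂ * algebraMap O L y₂ * algebraMap O L z₂) ^ 2 := by ring
    rw [this, h1, zero_mul]

theorem hasse_prim {O : Type} [CommRing O] [IsDomain O] {π : O} (hπ : π ≠ 0) {a b c : O} :
    ∀ (k : ℕ) (x y z : O), ¬ (π ^ k ∣ x ∧ π ^ k ∣ y ∧ π ^ k ∣ z) →
      a * x ^ 2 + b * y ^ 2 + c * z ^ 2 = 0 →
      ∃ x y z : O, ¬ (π ∣ x ∧ π ∣ y ∧ π ∣ z) ∧ a * x ^ 2 + b * y ^ 2 + c * z ^ 2 = 0 := by
  intro k
  induction k with
  | zero =>
    intro x y z h _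
    exact absurd ⟨by simp, by simp, by simp⟩ h
  | succ k ih =>
    intro x y z h h1
    by_cases hd : π ∣ x ∧ π ∣ y ∧ π ∣ z
    · obtain ⟨⟨x', rfl⟩, ⟨y', rfl⟩, ⟨z', rfl⟩⟩ := hd
      refine ih x' y' z' ?_ ?_
      · rintro ⟨⟨e1, f1⟩, ⟨e2, f2⟩, ⟨e3, f3⟩⟩
        exact h ⟨⟨e1, by rw [f1]; ring⟩, ⟨e2, by rw [f2]; ring⟩, ⟨e3, by rw [f3]; ring⟩⟩
      · have : π ^ 2 * (a * x' ^ 2 + b * y' ^ 2 + c * z' ^ 2) = 0 := by
          rw [← h1]; ring
        exact (mul_eq_zero.1 this).resolve_left (pow_ne_zero 2 hπ)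
    · exact ⟨x, y, z, hd, h1⟩

theorem hasse_local {F : Type} [Field F] {P : F[X]} (hP : Irreducible P) {O L : Type} [CommRing O]
    [IsDomain O] [Field L] [Algebra O L] [IsFractionRing O L] {π : O} {ι : F[X] →+* O}
    (pow : ∀ x : O, x ≠ 0 → ∃ (k : ℕ) (u : O), IsUnit u ∧ x = u * π ^ k)
    (nonunit : ¬ IsUnit π) (ne : π ≠ 0)
    (dvd : ∀ (k : ℕ) (x : F[X]), π ^ k ∣ ι x ↔ P ^ k ∣ x)
    (dense : ∀ (k : ℕ) (x : O), ∃ y : F[X], π ^ k ∣ x - ι y)
    (a b c : F[X]) (ha : P ∣ a) (ha2 : ¬ P ^ 2 ∣ a) (hb : ¬ P ∣ b) (hc : ¬ P ∣ c)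
    (h : hasse_Iso L (algebraMap O L (ι a)) (algebraMap O L (ι b)) (algebraMap O L (ι c))) :
    ∃ u v w : F[X], ∀ x y z : F[X], P ∣ u * x + v * y + w * z →
      P ∣ a * x ^ 2 + b * y ^ 2 + c * z ^ 2 := by
  have hPp : Prime P := hP.prime
  have dvd1 : ∀ x : F[X], π ∣ ι x ↔ P ∣ x := by
    intro x
    have := dvd 1 x
    rwa [pow_one, pow_one] at this
  have dense1 : ∀ x : O, ∃ y : F[X], π ∣ x - ι y := by
    intro x
    have := dense 1 x
    rwa [pow_one] at this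
  have unit : ∀ x : O, ¬ π ∣ x → IsUnit x := by
    intro x hx
    have hx0 : x ≠ 0 := fun h => hx (h ▸ dvd_zero π)
    obtain ⟨k, u, hu, e⟩ := pow x hx0
    rcases Nat.eq_zero_or_pos k with hk | hk
    · rw [e, hk, pow_zero, mul_one]; exact hu
    · exfalso
      apply hx
      rw [e]
      exact Dvd.dvd.mul_left (dvd_pow_self π hk.ne') u
  have nun : ∀ x : O, IsUnit x → ¬ π ∣ x := fun x hx hd => nonunit (isUnit_of_dvd_unit hd hx)
  obtain ⟨x, y, z, h0, h1⟩ := hasse_integral h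
  -- a primitive solution
  have hk : ∃ k : ℕ, ¬ (π ^ k ∣ x ∧ π ^ k ∣ y ∧ π ^ k ∣ z) := by
    have key : ∀ t : O, t ≠ 0 → ∃ k : ℕ, ¬ π ^ k ∣ t := by
      intro t ht
      obtain ⟨m, u, hu, e⟩ := pow t ht
      refine ⟨m + 1, ?_⟩
      rintro ⟨s, hs⟩
      rw [e] at hs
      have h3 : π ^ m * u = π ^ m * (π * s) := by
        rw [mul_comm, hs]; ring
      have h4 := mul_left_cancel₀ (pow_ne_zero m ne) h3
      exact nun u hu ⟨s, h4⟩
    by_contra hcon
    push Not at hcon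
    apply h0
    refine ⟨?_, ?_, ?_⟩
    · by_contra hx
      obtain ⟨k, hk⟩ := key x hx
      exact hk (hcon k).1
    · by_contra hx
      obtain ⟨k, hk⟩ := key y hx
      exact hk (hcon k).2.1
    · by_contra hx
      obtain ⟨k, hk⟩ := key z hx
      exact hk (hcon k).2.2
  obtain ⟨k, hk⟩ := hk
  obtain ⟨X, Y, Z, hp, hX⟩ := hasse_prim ne k x y z hk h1
  -- the coefficient `a`
  have hιa : ι a ≠ 0 := by
    intro h
    apply ha2
    rw [← dvd 2 a, h]
    exact dvd_zero _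
  obtain ⟨m, u, hu, hau⟩ := pow (ι a) hιa
  have hm1 : m = 1 := by
    have c1 : m ≠ 0 := by
      intro hm
      rw [hm, pow_zero, mul_one] at hau
      exact nun _ (hau ▸ hu) ((dvd1 a).2 ha)
    have c2 : ¬ 2 ≤ m := by
      intro hm
      apply ha2
      rw [← dvd 2 a, hau]
      exact Dvd.dvd.mul_left (pow_dvd_pow π hm) u
    omega
  rw [hm1, pow_one] at hau
  have hYZ : ¬ (π ∣ Y ∧ π ∣ Z) := by
    rintro ⟨hY, hZ⟩
    apply hp
    refine ⟨?_, hY, hZ⟩
    by_contra hXn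
    obtain ⟨Y', rfl⟩ := hY
    obtain ⟨Z', rfl⟩ := hZ
    have hXu := unit X hXn
    rw [hau] at hX
    have h5 : π * (u * X ^ 2 + π * (ι b * Y' ^ 2 + ι c * Z' ^ 2)) = 0 := by
      rw [← hX]; ring
    have h6 := (mul_eq_zero.1 h5).resolve_left ne
    have h7 : u * X ^ 2 = π * -(ι b * Y' ^ 2 + ι c * Z' ^ 2) := by
      linear_combination h6
    exact nun _ (hu.mul (hXu.pow 2)) ⟨_, h7⟩
  obtain ⟨y₀, hy₀⟩ := dense1 Y
  obtain ⟨z₀, hz₀⟩ := dense1 Z
  obtain ⟨s, hs⟩ := hy₀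
  obtain ⟨t, ht⟩ := hz₀
  have hbc : P ∣ b * y₀ ^ 2 + c * z₀ ^ 2 := by
    rw [← dvd1]
    simp only [map_add, map_mul, map_pow]
    have e1 : ι y₀ = Y - π * s := by linear_combination -hs
    have e2 : ι z₀ = Z - π * t := by linear_combination -ht
    rw [e1, e2]
    refine ⟨-(u * X ^ 2) + ι b * (-2 * Y * s + π * s ^ 2) + ι c * (-2 * Z * t + π * t ^ 2), ?_⟩
    rw [hau] at hX
    linear_combination hX
  have hz0 : ¬ P ∣ z₀ := by
    intro hd
    have h3 : P ∣ b * y₀ ^ 2 := by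
      have : b * y₀ ^ 2 = (b * y₀ ^ 2 + c * z₀ ^ 2) - c * z₀ * z₀ := by ring
      rw [this]
      exact dvd_sub hbc (Dvd.dvd.mul_left hd _)
    have h4 : P ∣ y₀ := hPp.dvd_of_dvd_pow ((hPp.dvd_or_dvd h3).resolve_left hb)
    apply hYZ
    constructor
    · have e1 : Y = ι y₀ + π * s := by linear_combination hs
      rw [e1]
      exact dvd_add ((dvd1 _).2 h4) (dvd_mul_right _ _)
    · have e1 : Z = ι z₀ + π * t := by linear_combination ht
      rw [e1]
      exact dvd_add ((dvd1 _).2 hd) (dvd_mul_right _ _)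
  refine ⟨0, z₀, -y₀, ?_⟩
  intro x y z hd
  have h3 : P ∣ z₀ ^ 2 * (b * y ^ 2 + c * z ^ 2) := by
    have : z₀ ^ 2 * (b * y ^ 2 + c * z ^ 2) =
        (0 * x + z₀ * y + -y₀ * z) * (b * (z₀ * y + y₀ * z)) + (b * y₀ ^ 2 + c * z₀ ^ 2) * z ^ 2 := by
      ring
    rw [this]
    exact dvd_add (Dvd.dvd.mul_right hd _) (Dvd.dvd.mul_right hbc _)
  have h4 : P ∣ b * y ^ 2 + c * z ^ 2 :=
    (hPp.dvd_or_dvd h3).resolve_left (fun h => hz0 (hPp.dvd_of_dvd_pow h))
  have h5 : a * x ^ 2 + b * y ^ 2 + c * z ^ 2 = a * x ^ 2 + (b * y ^ 2 + c * z ^ 2) := by ring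
  rw [h5]
  exact dvd_add (Dvd.dvd.mul_right ha _) h4

/-! ### the Chinese remainder theorem -/

theorem hasse_crt {F : Type} [Field F] (a b c N : F[X]) (hN : Squarefree N)
    (h : ∀ P : F[X], Irreducible P → P ∣ N → ∃ u v w : F[X], ∀ x y z : F[X],
      P ∣ u * x + v * y + w * z → P ∣ a * x ^ 2 + b * y ^ 2 + c * z ^ 2) :
    ∃ u v w : F[X], ∀ x y z : F[X],
      N ∣ u * x + v * y + w * z → N ∣ a * x ^ 2 + b * y ^ 2 + c * z ^ 2 := by
  induction N using UniqueFactorizationMonoid.induction_on_prime with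
  | h₁ => exact absurd hN not_squarefree_zero
  | h₂ x hx => exact ⟨0, 0, 0, fun x y z _ => hx.dvd⟩
  | h₃ m p hm hp ih =>
    have hirr : Irreducible p := hp.irreducible
    have hpm : ¬ p ∣ m := by
      rintro ⟨r, rfl⟩
      have := hN p ⟨r, by ring⟩
      exact hirr.not_isUnit this
    have hcop : IsCoprime p m := (hirr.coprime_iff_not_dvd).2 hpm
    obtain ⟨u₁, v₁, w₁, h₁⟩ := h p hirr (dvd_mul_right _ _)
    obtain ⟨u₂, v₂, w₂, h₂⟩ := ih (hN.squarefree_of_dvd (dvd_mul_left _ _))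
      (fun P hP hd => h P hP (Dvd.dvd.mul_left hd _))
    have hcop' := hcop
    obtain ⟨r, s, hrs⟩ := hcop'
    -- `r p + s m = 1`
    refine ⟨u₁ * (s * m) + u₂ * (r * p), v₁ * (s * m) + v₂ * (r * p),
      w₁ * (s * m) + w₂ * (r * p), ?_⟩
    intro x y z hd
    set ℓ₁ := u₁ * x + v₁ * y + w₁ * z with hℓ₁
    set ℓ₂ := u₂ * x + v₂ * y + w₂ * z with hℓ₂
    have e : (u₁ * (s * m) + u₂ * (r * p)) * x + (v₁ * (s * m) + v₂ * (r * p)) * y +
        (w₁ * (s * m) + w₂ * (r * p)) * z = ℓ₁ * (s * m) + ℓ₂ * (r * p) := by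
      rw [hℓ₁, hℓ₂]; ring
    rw [e] at hd
    have d1 : p ∣ ℓ₁ := by
      have : ℓ₁ = (ℓ₁ * (s * m) + ℓ₂ * (r * p)) + p * (r * ℓ₁ - r * ℓ₂) := by
        linear_combination (-ℓ₁) * hrs
      rw [this]
      exact dvd_add (dvd_trans (dvd_mul_right _ _) hd) (dvd_mul_right _ _)
    have d2 : m ∣ ℓ₂ := by
      have : ℓ₂ = (ℓ₁ * (s * m) + ℓ₂ * (r * p)) + m * (s * ℓ₂ - s * ℓ₁) := by
        linear_combination (-ℓ₂) * hrs
      rw [this]
      exact dvd_add (dvd_trans (dvd_mul_left _ _) hd) (dvd_mul_right _ _)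
    exact hcop.mul_dvd (h₁ x y z d1) (h₂ x y z d2)

/-! ### counting -/

theorem hasse_ker0 {F V W M : Type} [Field F] [AddCommGroup V] [Module F V] [AddCommGroup M] [Module F M] [AddCommGroup W] [Module F W]
    [FiniteDimensional F V] [FiniteDimensional F W] (J : V →ₗ[F] M) (hJ : Function.Injective J) (Λ : V →ₗ[F] W) (m : ℕ)
    (hm : m + Module.finrank F W ≤ Module.finrank F V) :
    ∃ f : Fin m → M, LinearIndependent F f ∧ ∀ g : Fin m → F, ∃ t : V, (∑ i, g i • f i) = J t ∧ Λ t = 0 := by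
  have hrk := LinearMap.finrank_range_add_finrank_ker Λ
  have hle : Module.finrank F (LinearMap.range Λ) ≤ Module.finrank F W := Submodule.finrank_le _
  have hker : m ≤ Module.finrank F (LinearMap.ker Λ) := by omega
  obtain ⟨φ, hφ⟩ := exists_linearIndependent_of_le_finrank hker
  let Q : LinearMap.ker Λ →ₗ[F] M := J ∘ₗ (LinearMap.ker Λ).subtype
  have hinj : Function.Injective Q := by
    change Function.Injective (J ∘ (LinearMap.ker Λ).subtype)
    exact hJ.comp (Submodule.injective_subtype _)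
  refine ⟨fun i => Q (φ i), ?_, ?_⟩
  · exact hφ.map' Q (LinearMap.ker_eq_bot.2 hinj)
  · intro g
    refine ⟨(∑ i, g i • φ i : LinearMap.ker Λ).1, ?_, (∑ i, g i • φ i : LinearMap.ker Λ).2⟩
    have e : ∑ i, g i • Q (φ i) = Q (∑ i, g i • φ i) := by
      rw [map_sum]
      refine Finset.sum_congr rfl fun i _ => ?_
      rw [map_smul]
    exact e

theorem hasse_ker {F : Type} [Field F] (N u v w : F[X]) (hN : N ≠ 0) (n₁ n₂ n₃ m : ℕ)
    (hm : m + N.natDegree ≤ n₁ + n₂ + n₃) :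
    ∃ f : Fin m → F[X] × F[X] × F[X], LinearIndependent F f ∧ ∀ g : Fin m → F,
      (∑ i, g i • f i).1.degree < n₁ ∧ (∑ i, g i • f i).2.1.degree < n₂ ∧
      (∑ i, g i • f i).2.2.degree < n₃ ∧
      N ∣ u * (∑ i, g i • f i).1 + v * (∑ i, g i • f i).2.1 + w * (∑ i, g i • f i).2.2 := by
  let J : (degreeLT F n₁ × degreeLT F n₂ × degreeLT F n₃) →ₗ[F] F[X] × F[X] × F[X] :=
    LinearMap.prodMap (degreeLT F n₁).subtype
      (LinearMap.prodMap (degreeLT F n₂).subtype (degreeLT F n₃).subtype)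
  let T : F[X] × F[X] × F[X] →ₗ[F] F[X] :=
    LinearMap.mulLeft F u ∘ₗ LinearMap.fst F F[X] (F[X] × F[X]) +
      LinearMap.mulLeft F v ∘ₗ LinearMap.fst F F[X] F[X] ∘ₗ LinearMap.snd F F[X] (F[X] × F[X]) +
      LinearMap.mulLeft F w ∘ₗ LinearMap.snd F F[X] F[X] ∘ₗ LinearMap.snd F F[X] (F[X] × F[X])
  let Λ : (degreeLT F n₁ × degreeLT F n₂ × degreeLT F n₃) →ₗ[F] F[X] ⧸ Ideal.span {N} :=
    (Ideal.Quotient.mkₐ F (Ideal.span {N})).toLinearMap ∘ₗ T ∘ₗ J
  have hJ : Function.Injective J := by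
    intro p q hpq
    have h1 := congrArg Prod.fst hpq
    have h2 := congrArg (fun t => t.2.1) hpq
    have h3 := congrArg (fun t => t.2.2) hpq
    exact Prod.ext (Subtype.ext h1) (Prod.ext (Subtype.ext h2) (Subtype.ext h3))
  haveI : ∀ n : ℕ, FiniteDimensional F (degreeLT F n) := fun n =>
    Module.Finite.equiv (degreeLTEquiv F n).symm
  have hdeg : ∀ n : ℕ, Module.finrank F (degreeLT F n) = n := fun n => by
    rw [(degreeLTEquiv F n).finrank_eq, Module.finrank_fin_fun]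
  have hfr : Module.finrank F (F[X] ⧸ Ideal.span {N}) = N.natDegree :=
    finrank_quotient_span_eq_natDegree
  haveI : FiniteDimensional F (F[X] ⧸ Ideal.span {N}) := by
    exact (AdjoinRoot.powerBasis hN).finite
  have hdim : Module.finrank F (degreeLT F n₁ × degreeLT F n₂ × degreeLT F n₃) = n₁ + (n₂ + n₃) := by
    rw [Module.finrank_prod, Module.finrank_prod, hdeg, hdeg, hdeg]
  obtain ⟨f, hf, hg⟩ := hasse_ker0 J hJ Λ m (by omega)
  refine ⟨f, hf, fun g => ?_⟩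
  obtain ⟨t, ht, hΛ⟩ := hg g
  rw [ht]
  refine ⟨mem_degreeLT.1 t.1.2, mem_degreeLT.1 t.2.1.2, mem_degreeLT.1 t.2.2.2, ?_⟩
  have h2 : (Ideal.Quotient.mk (Ideal.span {N})) (T (J t)) = 0 := hΛ
  rw [Ideal.Quotient.eq_zero_iff_dvd] at h2
  exact h2

/-! ### the main case -/

/-- the value of the diagonal form -/
noncomputable def hasse_q {F : Type} [Field F] (a b c : F[X]) (v : F[X] × F[X] × F[X]) : F[X] :=
  a * v.1 ^ 2 + b * v.2.1 ^ 2 + c * v.2.2 ^ 2

theorem hasse_deg1 {F : Type} [Field F] {a x : F[X]} {n D : ℕ} (hx : x.degree < (n : ℕ))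
    (h : a.natDegree + 2 * n ≤ D + 2) : (a * x ^ 2).degree ≤ (D : ℕ) := by
  by_cases hx0 : x = 0
  · rw [hx0]; simp
  · have h1 : x.natDegree < n := (natDegree_lt_iff_degree_lt hx0).2 hx
    refine le_trans degree_le_natDegree ?_
    have h2 : (a * x ^ 2).natDegree ≤ a.natDegree + (x ^ 2).natDegree := natDegree_mul_le
    have h3 : (x ^ 2).natDegree ≤ 2 * x.natDegree := natDegree_pow_le
    have h4 : (a * x ^ 2).natDegree ≤ D := by omega
    exact_mod_cast h4

theorem hasse_deg {F : Type} [Field F] {a b c : F[X]} {v : F[X] × F[X] × F[X]} {n₁ n₂ n₃ D : ℕ}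
    (h₁ : v.1.degree < (n₁ : ℕ)) (h₂ : v.2.1.degree < (n₂ : ℕ)) (h₃ : v.2.2.degree < (n₃ : ℕ))
    (e₁ : a.natDegree + 2 * n₁ ≤ D + 2) (e₂ : b.natDegree + 2 * n₂ ≤ D + 2)
    (e₃ : c.natDegree + 2 * n₃ ≤ D + 2) : (hasse_q a b c v).degree ≤ (D : ℕ) := by
  unfold hasse_q
  refine le_trans (degree_add_le _ _) (max_le (le_trans (degree_add_le _ _) (max_le ?_ ?_)) ?_)
  · exact hasse_deg1 h₁ e₁
  · exact hasse_deg1 h₂ e₂
  · exact hasse_deg1 h₃ e₃

theorem hasse_fin {F : Type} [Field F] {a b c : F[X]} {v : F[X] × F[X] × F[X]} (hv : v ≠ 0)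
    (h : hasse_q a b c v = 0) : hasse_Iso F[X] a b c := by
  refine ⟨v.1, v.2.1, v.2.2, ?_, h⟩
  rintro ⟨h1, h2, h3⟩
  exact hv (Prod.ext h1 (Prod.ext h2 h3))

theorem hasse_main {F : Type} [Field F] [Finite F] (h2 : (2 : F) ≠ 0) (a b c : F[X]) (ha : a ≠ 0)
    (hb : b ≠ 0) (hc : c ≠ 0) (u v w : F[X])
    (h : ∀ x y z : F[X], a * b * c ∣ u * x + v * y + w * z →
      a * b * c ∣ a * x ^ 2 + b * y ^ 2 + c * z ^ 2) : hasse_Iso F[X] a b c := by
  set N := a * b * c with hN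
  have hN0 : N ≠ 0 := mul_ne_zero (mul_ne_zero ha hb) hc
  have hdN : N.natDegree = a.natDegree + b.natDegree + c.natDegree := by
    rw [hN, natDegree_mul (mul_ne_zero ha hb) hc, natDegree_mul ha hb]
  by_cases hpar : a.natDegree % 2 = b.natDegree % 2 ∧ b.natDegree % 2 = c.natDegree % 2
  · -- equal parities
    obtain ⟨p1, p2⟩ := hpar
    obtain ⟨f, hf, hg⟩ := hasse_ker N u v w hN0 ((b.natDegree + c.natDegree) / 2 + 1)
      ((a.natDegree + c.natDegree) / 2 + 1) ((a.natDegree + b.natDegree) / 2 + 1) 3 (by omega)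
    have key : ∀ g : Fin 3 → F, ∃ l : F, hasse_q a b c (∑ i, g i • f i) = C l * N := by
      intro g
      obtain ⟨d1, d2, d3, hd⟩ := hg g
      have hdeg : (hasse_q a b c (∑ i, g i • f i)).degree ≤ (N.natDegree : ℕ) :=
        hasse_deg d1 d2 d3 (by omega) (by omega) (by omega)
      obtain ⟨t, ht⟩ := h _ _ _ hd
      have ht' : hasse_q a b c (∑ i, g i • f i) = N * t := ht
      rw [ht'] at hdeg ⊢
      by_cases ht0 : t = 0
      · exact ⟨0, by rw [ht0]; simp⟩
      · refine ⟨t.coeff 0, ?_⟩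
        have e1 : (N * t).natDegree ≤ N.natDegree := natDegree_le_of_degree_le hdeg
        rw [natDegree_mul hN0 ht0] at e1
        have e2 : t.natDegree = 0 := by omega
        rw [← eq_C_of_natDegree_eq_zero e2, mul_comm]
    choose l hl using key
    have hsum : ∀ x y z : F, ∑ i, (![x, y, z] : Fin 3 → F) i • f i = x • f 0 + y • f 1 + z • f 2 := by
      intro x y z
      rw [Fin.sum_univ_three]
      rfl
    have k1 := hl ![1, 0, 0]
    have k2 := hl ![0, 1, 0]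
    have k3 := hl ![0, 0, 1]
    have k4 := hl ![1, 1, 0]
    have k5 := hl ![1, 0, 1]
    have k6 := hl ![0, 1, 1]
    rw [hsum] at k1 k2 k3 k4 k5 k6
    obtain ⟨x, y, z, h0, hz⟩ := hasse_finite h2 (⟨l ![1, 0, 0], l ![0, 1, 0], l ![0, 0, 1],
      l ![1, 1, 0] - l ![1, 0, 0] - l ![0, 1, 0], l ![1, 0, 1] - l ![1, 0, 0] - l ![0, 0, 1],
      l ![0, 1, 1] - l ![0, 1, 0] - l ![0, 0, 1]⟩ : TF F)
    have hzero : hasse_q a b c (x • f 0 + y • f 1 + z • f 2) = 0 := by
      have e : hasse_q a b c (x • f 0 + y • f 1 + z • f 2) =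
          C ((⟨l ![1, 0, 0], l ![0, 1, 0], l ![0, 0, 1],
      l ![1, 1, 0] - l ![1, 0, 0] - l ![0, 1, 0], l ![1, 0, 1] - l ![1, 0, 0] - l ![0, 0, 1],
      l ![0, 1, 1] - l ![0, 1, 0] - l ![0, 0, 1]⟩ : TF F).ev x y z) * N := by
        simp only [TF.ev, map_add, map_mul, map_sub, map_pow]
        have r : ∀ (x y z : F), hasse_q a b c (x • f 0 + y • f 1 + z • f 2) =
            a * (C x * (f 0).1 + C y * (f 1).1 + C z * (f 2).1) ^ 2 +
            b * (C x * (f 0).2.1 + C y * (f 1).2.1 + C z * (f 2).2.1) ^ 2 +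
            c * (C x * (f 0).2.2 + C y * (f 1).2.2 + C z * (f 2).2.2) ^ 2 := by
          intro x y z
          simp only [hasse_q, Prod.fst_add, Prod.snd_add, Prod.smul_fst, Prod.smul_snd, smul_eq_C_mul]
        rw [r] at k1 k2 k3 k4 k5 k6 ⊢
        simp only [map_one, map_zero] at k1 k2 k3 k4 k5 k6
        linear_combination (C x ^ 2 - C x * C y - C x * C z) * k1 +
          (C y ^ 2 - C x * C y - C y * C z) * k2 + (C z ^ 2 - C x * C z - C y * C z) * k3 +
          (C x * C y) * k4 + (C x * C z) * k5 + (C y * C z) * k6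
      rw [e, hz, map_zero, zero_mul]
    refine hasse_fin ?_ hzero
    intro hv
    apply h0
    rw [← hsum] at hv
    have hli := Fintype.linearIndependent_iff.1 hf _ hv
    exact ⟨hli 0, hli 1, hli 2⟩
  · -- different parities
    obtain ⟨f, hf, hg⟩ := hasse_ker N u v w hN0 ((b.natDegree + c.natDegree + 1) / 2)
      ((a.natDegree + c.natDegree + 1) / 2) ((a.natDegree + b.natDegree + 1) / 2) 1 (by omega)
    obtain ⟨d1, d2, d3, hd⟩ := hg (fun _ => 1)
    have hsum : ∑ i : Fin 1, (fun _ => (1 : F)) i • f i = f 0 := by simp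
    rw [hsum] at d1 d2 d3 hd
    have hdeg : (hasse_q a b c (f 0)).degree ≤ ((N.natDegree - 1 : ℕ) : ℕ) :=
      hasse_deg d1 d2 d3 (by omega) (by omega) (by omega)
    have hlt : (hasse_q a b c (f 0)).degree < N.degree := by
      refine lt_of_le_of_lt hdeg ?_
      rw [degree_eq_natDegree hN0]
      have : N.natDegree - 1 < N.natDegree := by omega
      exact_mod_cast this
    have hz := eq_zero_of_dvd_of_degree_lt (h _ _ _ hd) hlt
    exact hasse_fin (hf.ne_zero 0) hz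

/-! ### the reduction -/

/-- the embedding in the completion -/
noncomputable def hasse_φ {F : Type} [Field F] (v : HeightOneSpectrum F[X]) :
    F[X] →+* v.adicCompletion (RatFunc F) :=
  (algebraMap (RatFunc F) (v.adicCompletion (RatFunc F))).comp (algebraMap F[X] (RatFunc F))

theorem hasse_φ_inj {F : Type} [Field F] (v : HeightOneSpectrum F[X]) :
    Function.Injective (hasse_φ v) := by
  unfold hasse_φ
  rw [RingHom.coe_comp]
  exact (algebraMap (RatFunc F) (v.adicCompletion (RatFunc F))).injective.comp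
    (RatFunc.algebraMap_injective F)

/-- isotropy at all finite places -/
def hasse_Loc {F : Type} [Field F] (a b c : F[X]) : Prop :=
  ∀ v : HeightOneSpectrum F[X],
    hasse_Iso (v.adicCompletion (RatFunc F)) (hasse_φ v a) (hasse_φ v b) (hasse_φ v c)

theorem hasse_local1 {F : Type} [Field F] [Finite F] {P : F[X]} (hP : Irreducible P) (a b c : F[X])
    (ha : P ∣ a) (ha2 : ¬ P ^ 2 ∣ a) (hb : ¬ P ∣ b) (hc : ¬ P ∣ c) (h : hasse_Loc a b c) :
    ∃ u v w : F[X], ∀ x y z : F[X], P ∣ u * x + v * y + w * z →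
      P ∣ a * x ^ 2 + b * y ^ 2 + c * z ^ 2 := by
  classical
  have hP0 := hP.ne_zero
  have hass : Associated (normalize P) P := normalize_associated P
  set p : Pl F := ⟨normalize P, monic_normalize hP0, hass.symm.irreducible hP⟩ with hp
  have hdvd : ∀ x : F[X], p.1 ∣ x ↔ P ∣ x := fun x => hass.dvd_iff_dvd_left
  have hdvd2 : ∀ x : F[X], p.1 ^ 2 ∣ x ↔ P ^ 2 ∣ x := fun x => (hass.pow_pow).dvd_iff_dvd_left
  have hL := t_mcomp F p
  have hloc := h (plv p)
  obtain ⟨u, v, w, H⟩ := hasse_local (L := (plv p).adicCompletion (RatFunc F)) p.2.2 hL.pow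
    hL.nonunit hL.ne hL.dvd hL.dense a b c ((hdvd a).2 ha) (fun h => ha2 ((hdvd2 a).1 h))
    (fun h => hb ((hdvd b).1 h)) (fun h => hc ((hdvd c).1 h)) hloc
  refine ⟨u, v, w, fun x y z hd => ?_⟩
  rw [← hdvd] at hd ⊢
  exact H x y z hd

theorem hasse_local3 {F : Type} [Field F] [Finite F] {P : F[X]} (hP : Irreducible P) (a b c : F[X])
    (hN : Squarefree (a * b * c)) (hd : P ∣ a * b * c) (h : hasse_Loc a b c) :
    ∃ u v w : F[X], ∀ x y z : F[X], P ∣ u * x + v * y + w * z →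
      P ∣ a * x ^ 2 + b * y ^ 2 + c * z ^ 2 := by
  have hPp := hP.prime
  have sq : ∀ r : F[X], a * b * c ≠ P * P * r := by
    intro r hr
    exact hP.not_isUnit (hN P ⟨r, hr⟩)
  have ab : ¬ (P ∣ a ∧ P ∣ b) := by
    rintro ⟨⟨s, hs⟩, ⟨t, ht⟩⟩
    exact sq (s * t * c) (by rw [hs, ht]; ring)
  have ac : ¬ (P ∣ a ∧ P ∣ c) := by
    rintro ⟨⟨s, hs⟩, ⟨t, ht⟩⟩
    exact sq (s * t * b) (by rw [hs, ht]; ring)
  have bc : ¬ (P ∣ b ∧ P ∣ c) := by
    rintro ⟨⟨s, hs⟩, ⟨t, ht⟩⟩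
    exact sq (s * t * a) (by rw [hs, ht]; ring)
  rcases hPp.dvd_or_dvd hd with h1 | h1
  · rcases hPp.dvd_or_dvd h1 with h1 | h1
    · refine hasse_local1 hP a b c h1 ?_ (fun h => ab ⟨h1, h⟩) (fun h => ac ⟨h1, h⟩) h
      rintro ⟨r, hr⟩
      exact sq (r * b * c) (by rw [hr]; ring)
    · obtain ⟨u, v, w, H⟩ := hasse_local1 hP b a c h1 (by
        rintro ⟨r, hr⟩
        exact sq (r * a * c) (by rw [hr]; ring)) (fun h => ab ⟨h, h1⟩) (fun h => bc ⟨h1, h⟩)
        (fun v => hasse_swap12 (h v))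
      refine ⟨v, u, w, fun x y z hd => ?_⟩
      have := H y x z (by rw [add_comm (u * y)]; exact hd)
      rwa [add_comm (b * y ^ 2)] at this
  · obtain ⟨u, v, w, H⟩ := hasse_local1 hP c a b h1 (by
        rintro ⟨r, hr⟩
        exact sq (r * a * b) (by rw [hr]; ring)) (fun h => ac ⟨h, h1⟩) (fun h => bc ⟨h, h1⟩)
        (fun v => hasse_swap12 (hasse_swap23 (h v)))
    refine ⟨v, w, u, fun x y z hd => ?_⟩
    have := H z x y (by
      have e : u * z + v * x + w * y = v * x + w * y + u * z := by ring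
      rw [e]; exact hd)
    have e : a * x ^ 2 + b * y ^ 2 + c * z ^ 2 = c * z ^ 2 + a * x ^ 2 + b * y ^ 2 := by ring
    rw [e]; exact this

/-- the Hasse principle for one form -/
def hasse_H {F : Type} [Field F] (a b c : F[X]) : Prop :=
  hasse_Loc a b c → hasse_Iso (RatFunc F) (algebraMap F[X] (RatFunc F) a)
    (algebraMap F[X] (RatFunc F) b) (algebraMap F[X] (RatFunc F) c)

theorem hasse_H12 {F : Type} [Field F] {a b c : F[X]} (h : hasse_H a b c) : hasse_H b a c :=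
  fun hl => hasse_swap12 (h fun v => hasse_swap12 (hl v))

theorem hasse_H23 {F : Type} [Field F] {a b c : F[X]} (h : hasse_H a b c) : hasse_H a c b :=
  fun hl => hasse_swap23 (h fun v => hasse_swap23 (hl v))

theorem hasse_Hsq {F : Type} [Field F] {a b c p : F[X]} (hp : p ≠ 0) (h : hasse_H a b c) :
    hasse_H (p ^ 2 * a) b c := by
  intro hl
  rw [map_mul, map_pow, hasse_sq (by
    rw [Ne, map_eq_zero_iff _ (RatFunc.algebraMap_injective F)]; exact hp)]
  refine h fun v => ?_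
  have := hl v
  rw [map_mul, map_pow, hasse_sq (by
    rw [Ne, map_eq_zero_iff _ (hasse_φ_inj v)]; exact hp)] at this
  exact this

theorem hasse_Hpp {F : Type} [Field F] {a b c p : F[X]} (hp : p ≠ 0) (h : hasse_H a b (p * c)) :
    hasse_H (p * a) (p * b) c := by
  intro hl
  rw [map_mul, map_mul, hasse_pp (by
    rw [Ne, map_eq_zero_iff _ (RatFunc.algebraMap_injective F)]; exact hp), ← map_mul]
  refine h fun v => ?_
  have := hl v
  rw [map_mul, map_mul, hasse_pp (by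
    rw [Ne, map_eq_zero_iff _ (hasse_φ_inj v)]; exact hp), ← map_mul] at this
  exact this

theorem hasse_all {F : Type} [Field F] [Finite F] (h2 : (2 : F) ≠ 0) (n : ℕ) : ∀ a b c : F[X],
    a ≠ 0 → b ≠ 0 → c ≠ 0 → a.natDegree + b.natDegree + c.natDegree = n → hasse_H a b c := by
  induction n using Nat.strong_induction_on with
  | _ n ih =>
  -- reduction steps
  have step1 : ∀ a b c : F[X], a ≠ 0 → b ≠ 0 → c ≠ 0 →
      a.natDegree + b.natDegree + c.natDegree = n → ∀ P : F[X], Irreducible P → P ^ 2 ∣ a →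
      hasse_H a b c := by
    intro a b c ha hb hc hn P hP hd
    obtain ⟨a', rfl⟩ := hd
    have ha' : a' ≠ 0 := right_ne_zero_of_mul ha
    have hpos : 0 < P.natDegree := hP.natDegree_pos
    refine hasse_Hsq hP.ne_zero (ih _ ?_ a' b c ha' hb hc rfl)
    rw [natDegree_mul (pow_ne_zero 2 hP.ne_zero) ha', natDegree_pow] at hn
    omega
  have step2 : ∀ a b c : F[X], a ≠ 0 → b ≠ 0 → c ≠ 0 →
      a.natDegree + b.natDegree + c.natDegree = n → ∀ P : F[X], Irreducible P → P ∣ a → P ∣ b →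
      hasse_H a b c := by
    intro a b c ha hb hc hn P hP hd hd'
    obtain ⟨a', rfl⟩ := hd
    obtain ⟨b', rfl⟩ := hd'
    have ha' : a' ≠ 0 := right_ne_zero_of_mul ha
    have hb' : b' ≠ 0 := right_ne_zero_of_mul hb
    have hpos : 0 < P.natDegree := hP.natDegree_pos
    refine hasse_Hpp hP.ne_zero (ih _ ?_ a' b' (P * c) ha' hb' (mul_ne_zero hP.ne_zero hc) rfl)
    rw [natDegree_mul hP.ne_zero ha', natDegree_mul hP.ne_zero hb'] at hn
    rw [natDegree_mul hP.ne_zero hc]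
    omega
  intro a b c ha hb hc hn
  have hN0 : a * b * c ≠ 0 := mul_ne_zero (mul_ne_zero ha hb) hc
  by_cases hsf : Squarefree (a * b * c)
  · intro hl
    obtain ⟨u, v, w, H⟩ := hasse_crt a b c (a * b * c) hsf
      (fun P hP hd => hasse_local3 hP a b c hsf hd hl)
    obtain ⟨x, y, z, h0, h1⟩ := hasse_main h2 a b c ha hb hc u v w H
    have inj := RatFunc.algebraMap_injective F
    refine ⟨algebraMap F[X] (RatFunc F) x, algebraMap F[X] (RatFunc F) y,
      algebraMap F[X] (RatFunc F) z, ?_, ?_⟩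
    · rintro ⟨e1, e2, e3⟩
      rw [map_eq_zero_iff _ inj] at e1 e2 e3
      exact h0 ⟨e1, e2, e3⟩
    · rw [← map_pow, ← map_pow, ← map_pow, ← map_mul, ← map_mul, ← map_mul, ← map_add, ← map_add,
        h1, map_zero]
  · rw [squarefree_iff_irreducible_sq_not_dvd_of_ne_zero hN0] at hsf
    push Not at hsf
    obtain ⟨P, hP, hd⟩ := hsf
    rw [← pow_two] at hd
    have hPp := hP.prime
    rcases hasse_prime hPp hd with h1 | h1 | ⟨h1, h2'⟩
    · rcases hasse_prime hPp h1 with h1 | h1 | ⟨h1, h1'⟩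
      · exact step1 a b c ha hb hc hn P hP h1
      · exact hasse_H12 (step1 b a c hb ha hc (by omega) P hP h1)
      · exact step2 a b c ha hb hc hn P hP h1 h1'
    · exact hasse_H23 (hasse_H12 (step1 c a b hc ha hb (by omega) P hP h1))
    · rcases hPp.dvd_or_dvd h1 with h3 | h3
      · exact hasse_H23 (step2 a c b ha hc hb (by omega) P hP h3 h2')
      · exact hasse_H12 (hasse_H23 (step2 b c a hb hc ha (by omega) P hP h3 h2'))

/-- the Hasse principle -/
theorem t_hasse : S_hasse := by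
  intro F _ _ h2 q hq
  have hK2 : (2 : RatFunc F) ≠ 0 := by
    have e : algebraMap F (RatFunc F) 2 = 2 := map_ofNat _ 2
    rw [← e, Ne, map_eq_zero_iff _ (algebraMap F (RatFunc F)).injective]
    exact h2
  have hV2 : ∀ v : HeightOneSpectrum F[X], (2 : v.adicCompletion (RatFunc F)) ≠ 0 := by
    intro v
    have e : algebraMap (RatFunc F) (v.adicCompletion (RatFunc F)) 2 = 2 := map_ofNat _ 2
    rw [← e, Ne, map_eq_zero_iff _ (algebraMap (RatFunc F) (v.adicCompletion (RatFunc F))).injective]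
    exact hK2
  by_cases hA : q.A = 0
  · exact hasse_A0 q hA
  by_cases hb : hasse_b q = 0
  · exact hasse_b0 hK2 q hA hb
  by_cases hc : hasse_c q = 0
  · exact hasse_c0 hK2 q hA hb hc
  apply hasse_ofDiag hK2 q hA hb
  have h4b : 4 * hasse_b q ≠ 0 := by
    have : 4 * hasse_b q = 2 * 2 * hasse_b q := by ring
    rw [this]
    exact mul_ne_zero (mul_ne_zero hK2 hK2) hb
  obtain ⟨n₁, d₁, hd₁, e₁⟩ := IsFractionRing.div_surjective (A := F[X]) (4 * hasse_b q)
  obtain ⟨n₂, d₂, hd₂, e₂⟩ := IsFractionRing.div_surjective (A := F[X]) (hasse_c q)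
  have k₁ : d₁ ≠ 0 := nonZeroDivisors.ne_zero hd₁
  have k₂ : d₂ ≠ 0 := nonZeroDivisors.ne_zero hd₂
  have inj := RatFunc.algebraMap_injective F
  have l₁ : algebraMap F[X] (RatFunc F) d₁ ≠ 0 := by rw [Ne, map_eq_zero_iff _ inj]; exact k₁
  have l₂ : algebraMap F[X] (RatFunc F) d₂ ≠ 0 := by rw [Ne, map_eq_zero_iff _ inj]; exact k₂
  have m₁ : n₁ ≠ 0 := by
    intro h; rw [h, map_zero, zero_div] at e₁; exact h4b e₁.symm
  have m₂ : n₂ ≠ 0 := by
    intro h; rw [h, map_zero, zero_div] at e₂; exact hc e₂.symm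
  have f₁ : algebraMap F[X] (RatFunc F) (n₁ * d₁) =
      algebraMap F[X] (RatFunc F) d₁ ^ 2 * (4 * hasse_b q) := by
    rw [← e₁, map_mul]; field_simp
  have f₂ : algebraMap F[X] (RatFunc F) (n₂ * d₂) =
      algebraMap F[X] (RatFunc F) d₂ ^ 2 * hasse_c q := by
    rw [← e₂, map_mul]; field_simp
  have hH := hasse_all h2 _ (n₁ * d₁) 1 (n₂ * d₂) (mul_ne_zero m₁ k₁) one_ne_zero
    (mul_ne_zero m₂ k₂) rfl
  have hglob := hH ?_
  · rw [f₁, f₂, map_one] at hglob
    rw [hasse_sq l₁] at hglob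
    have h3 := hasse_swap12 (hasse_swap23 hglob)
    rw [hasse_sq l₂] at h3
    exact hasse_swap23 (hasse_swap12 h3)
  · intro v
    have h3 := hasse_toDiag (hV2 v) (q.map (algebraMap (RatFunc F) (v.adicCompletion (RatFunc F))))
      (by
        change algebraMap (RatFunc F) (v.adicCompletion (RatFunc F)) q.A ≠ 0
        rw [Ne, map_eq_zero_iff _ (algebraMap (RatFunc F) (v.adicCompletion (RatFunc F))).injective]
        exact hA)
      (by
        rw [(hasse_map _ q).1, Ne,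
          map_eq_zero_iff _ (algebraMap (RatFunc F) (v.adicCompletion (RatFunc F))).injective]
        exact hb) (hq v)
    rw [(hasse_map _ q).1, (hasse_map _ q).2] at h3
    have e4 : (4 : v.adicCompletion (RatFunc F)) *
        algebraMap (RatFunc F) (v.adicCompletion (RatFunc F)) (hasse_b q) =
        algebraMap (RatFunc F) (v.adicCompletion (RatFunc F)) (4 * hasse_b q) := by
      rw [map_mul, map_ofNat]
    rw [e4] at h3
    have g₁ : hasse_φ v (n₁ * d₁) = hasse_φ v d₁ ^ 2 *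
        algebraMap (RatFunc F) (v.adicCompletion (RatFunc F)) (4 * hasse_b q) := by
      change algebraMap (RatFunc F) _ (algebraMap F[X] (RatFunc F) (n₁ * d₁)) = _
      rw [f₁, map_mul, map_pow]; rfl
    have g₂ : hasse_φ v (n₂ * d₂) = hasse_φ v d₂ ^ 2 *
        algebraMap (RatFunc F) (v.adicCompletion (RatFunc F)) (hasse_c q) := by
      change algebraMap (RatFunc F) _ (algebraMap F[X] (RatFunc F) (n₂ * d₂)) = _
      rw [f₂, map_mul, map_pow]; rfl
    have j₁ : hasse_φ v d₁ ≠ 0 := by rw [Ne, map_eq_zero_iff _ (hasse_φ_inj v)]; exact k₁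
    have j₂ : hasse_φ v d₂ ≠ 0 := by rw [Ne, map_eq_zero_iff _ (hasse_φ_inj v)]; exact k₂
    rw [g₁, g₂, map_one, hasse_sq j₁]
    have h5 := hasse_swap12 (hasse_swap23 h3)
    rw [← hasse_sq j₂] at h5
    exact hasse_swap23 (hasse_swap12 h5)

end Pool.Agent.H456.Coh
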