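import Pool.Agent.H456.Coh.Stm

/-!
(C17) `S_iso`. Let `Q` be the point of `LocTriv` for `ι`, over `Kvs = SeparableClosure Kv`: `ι (c τ) = σ Q - Q` for all compatible `(σ, τ)`. `m = mT (ι (c τ)) = (mT (c τ)).map ι` (by cases). CASE 1: `Q = (x, y)` with `y ≠ 0`. `W = ⟨x / y, -x² / y, 1 / y, -x / y⟩`. Trace zero, `det = 0`, nonzero.
`W.map σ` is the same matrix for `σ Q = Q + ι c τ = (x', y')`, and one has to check `W' m = m W`. If `ι c τ = 0` trivial (`m = 1`). Otherwise `ι c τ = (e, 0)`, `m = ⟨e, d - e², 1, -e⟩`, `d = f'(e)`, `x' = e + d/(x-e)`, `y' = -d y/(x-e)²` (`x ≠ e` because `y ≠ 0`): from `S_tr`: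
`m (x, 1)ᵗ = (x - e) (x', 1)ᵗ`, `(-d) 2y = (x-e)² 2 y'`; then a direct computation (`field_simp; ring`, or `W = y⁻¹ (x,1)ᵗ (1, -x)`). CASE 2: `Q = 0` or `y = 0`, i.e. `2 Q = 0`: `W = (mT Q) ⟨0,1,0,0⟩ (mT Q)⁻¹`, i.e. `(((mT Q).mul ⟨0,1,0,0⟩).mul (mT Q).adj).scal (det (mT Q))⁻¹`
(`det ≠ 0` by `S_mPE`). `W.map σ = (mT (σQ)) ⟨0,1,0,0⟩ (mT (σ Q))⁻¹`, `σ Q = ι(c τ) + Q`, `mT (σ Q) ~ m · mT Q` (`S_mmul`), scalars cancel: `W.map σ = m W m⁻¹`. For `mT Q` with `y = 0`, `Q ≠ 0`: `mT Q = ⟨x, .., 1, -x⟩`, `mT` of `σ Q` is `(mT Q).map σ`.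
-/

set_option autoImplicit false
set_option linter.all false

open Polynomial WeierstrassCurve IsDedekindDomain
open Pool.Agent.H456.BQ
open Pool.Agent.H456.EC (toK toK_inj sig toK_eq reflect_toK)

namespace Pool.Agent.H456.Coh

section iso_alg

variable {L : Type} [Field L]

theorem iso_mul_cancel {A B P : M2 L} (hP : P.det ≠ 0) (h : A.mul P = B.mul P) : A = B := by
  have h1 : (A.mul P).mul P.adj = (B.mul P).mul P.adj := by rw [h]
  rw [M2.mul_assoc, M2.mul_assoc, M2.mul_adj] at h1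
  have e1 := congrArg M2.α h1
  have e2 := congrArg M2.β h1
  have e3 := congrArg M2.γ h1
  have e4 := congrArg M2.δ h1
  simp only [M2.mul, mul_zero, add_zero, zero_add] at e1 e2 e3 e4
  ext
  · exact mul_right_cancel₀ hP e1
  · exact mul_right_cancel₀ hP e2
  · exact mul_right_cancel₀ hP e3
  · exact mul_right_cancel₀ hP e4

/-- the conjugate of the nilpotent matrix -/
noncomputable def iso_W (P : M2 L) : M2 L := ((P.mul ⟨0, 1, 0, 0⟩).mul P.adj).scal P.det⁻¹

theorem iso_W_mul {P : M2 L} (hP : P.det ≠ 0) : (iso_W P).mul P = P.mul ⟨0, 1, 0, 0⟩ := by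
  unfold iso_W
  rw [M2.scal_mul, M2.mul_assoc, M2.adj_mul]
  ext <;> simp only [M2.mul, M2.scal] <;> field_simp <;> ring

theorem iso_W_conj {P P' m : M2 L} {k : L} (hP : P.det ≠ 0) (hP' : P'.det ≠ 0)
    (h : m.mul P = P'.scal k) : (iso_W P').mul m = m.mul (iso_W P) := by
  apply iso_mul_cancel hP
  rw [M2.mul_assoc, M2.mul_assoc, h, iso_W_mul hP, M2.mul_scal, iso_W_mul hP', ← M2.scal_mul, ← h,
    M2.mul_assoc]

theorem iso_W_ne {P : M2 L} (hP : P.det ≠ 0) : iso_W P ≠ ⟨0, 0, 0, 0⟩ := by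
  intro h
  have h1 := iso_W_mul hP
  rw [h] at h1
  have e2 := congrArg M2.β h1
  have e4 := congrArg M2.δ h1
  simp only [M2.mul, mul_zero, mul_one, zero_mul, add_zero] at e2 e4
  apply hP
  simp only [M2.det]
  rw [← e2, ← e4]
  ring

theorem iso_W_tr (P : M2 L) : (iso_W P).δ = -(iso_W P).α := by
  simp only [iso_W, M2.mul, M2.adj, M2.scal]
  ring

theorem iso_W_det (P : M2 L) : (iso_W P).det = 0 := by
  simp only [iso_W, M2.mul, M2.adj, M2.scal, M2.det]
  ring

theorem iso_W_map (φ : L →+* L) (P : M2 L) : (iso_W P).map φ = iso_W (P.map φ) := by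
  unfold iso_W
  rw [M2.map_det]
  ext <;> simp [M2.map, M2.mul, M2.adj, M2.scal]

/-- the matrix of a point which is not of order two -/
noncomputable def iso_V (x y : L) : M2 L := ⟨x / y, -(x ^ 2 / y), 1 / y, -(x / y)⟩

theorem iso_V_conj {x y x' y' α β γ δ : L} (h2 : (2 : L) ≠ 0) (hy : y ≠ 0) (hy' : y' ≠ 0)
    (h : Rel3 (act3 ⟨α, β, γ, δ⟩ (x, 1, 2 * y)) (x', 1, 2 * y')) :
    (iso_V x' y').mul ⟨α, β, γ, δ⟩ = (⟨α, β, γ, δ⟩ : M2 L).mul (iso_V x y) := by
  obtain ⟨k, hk, h⟩ := h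
  simp only [act3, M2.det, Prod.mk.injEq, mul_one] at h
  obtain ⟨e1, e2, e3⟩ := h
  have e4 : y' = k ^ 2 * ((α * δ - β * γ) * y) := by
    apply mul_left_cancel₀ h2
    rw [e3]
    ring
  simp only [iso_V, M2.mul]
  ext
  · show x' / y' * α + -(x' ^ 2 / y') * γ = α * (x / y) + β * (1 / y)
    have a1 : x' / y' * α + -(x' ^ 2 / y') * γ = (x' * α - x' ^ 2 * γ) / y' := by ring
    have a2 : α * (x / y) + β * (1 / y) = (α * x + β) / y := by ring
    rw [a1, a2, div_eq_div_iff hy' hy, e4, e1]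
    linear_combination (α * x + β) * k * y * α * e2
  · show x' / y' * β + -(x' ^ 2 / y') * δ = α * (-(x ^ 2 / y)) + β * (-(x / y))
    have a1 : x' / y' * β + -(x' ^ 2 / y') * δ = (x' * β - x' ^ 2 * δ) / y' := by ring
    have a2 : α * (-(x ^ 2 / y)) + β * (-(x / y)) = -(x * (α * x + β)) / y := by ring
    rw [a1, a2, div_eq_div_iff hy' hy, e4, e1]
    linear_combination (α * x + β) * k * y * β * e2
  · show 1 / y' * α + -(x' / y') * γ = γ * (x / y) + δ * (1 / y)
    have a1 : 1 / y' * α + -(x' / y') * γ = (α - x' * γ) / y' := by ring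
    have a2 : γ * (x / y) + δ * (1 / y) = (γ * x + δ) / y := by ring
    rw [a1, a2, div_eq_div_iff hy' hy, e4, e1]
    linear_combination (y * α + k * (α * δ - β * γ) * y) * e2
  · show 1 / y' * β + -(x' / y') * δ = γ * (-(x ^ 2 / y)) + δ * (-(x / y))
    have a1 : 1 / y' * β + -(x' / y') * δ = (β - x' * δ) / y' := by ring
    have a2 : γ * (-(x ^ 2 / y)) + δ * (-(x / y)) = -(x * (γ * x + δ)) / y := by ring
    rw [a1, a2, div_eq_div_iff hy' hy, e4, e1]
    linear_combination (β * y - x * k * (α * δ - β * γ) * y) * e2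

theorem iso_V_map (φ : L →+* L) (x y : L) : (iso_V x y).map φ = iso_V (φ x) (φ y) := by
  ext <;> simp [iso_V, M2.map]

end iso_alg

theorem iso_map_mT {K L L' : Type} [Field K] [Field L] [Algebra K L] [Field L'] [Algebra K L']
    [DecidableEq L] [DecidableEq L'] (f : Cub K) (φ : L →ₐ[K] L') (P : Pt (crv f) L) :
    (mT P).map (φ : L →+* L') = mT (Affine.Point.map φ P) := by
  cases P with
  | zero =>
    show (⟨1, 0, 0, 1⟩ : M2 L).map (φ : L →+* L') = ⟨1, 0, 0, 1⟩
    ext <;> simp [M2.map]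
  | some x y h =>
    rw [Affine.Point.map_some]
    show (⟨x, (fL f L).dev x - x ^ 2, 1, -x⟩ : M2 L).map (φ : L →+* L') =
      ⟨φ x, (fL f L').dev (φ x) - (φ x) ^ 2, 1, -φ x⟩
    ext <;> simp [M2.map, Cub.dev, Cub.map, map_ofNat]

section iso_inst

variable {K L : Type} [Field K] [Field L] [Algebra K L]

theorem iso_tr (hTr : S_tr) [inst : DecidableEq L] (h2 : (2 : K) ≠ 0) {f : Cub K} (hf : f.disc ≠ 0)
    {T Q : Pt (crv f) L} (hT : 2 • T = 0) : Rel3 (act3 (mT T) (vec Q)) (vec (Q + T)) := by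
  have e : inst = fun a b => Classical.propDecidable (a = b) := Subsingleton.elim _ _
  subst e
  exact hTr K L h2 f hf T Q hT

theorem iso_PE (hPE : S_mPE) [inst : DecidableEq L] (h2 : (2 : K) ≠ 0) {f : Cub K} (hf : f.disc ≠ 0)
    {T : Pt (crv f) L} (hT : 2 • T = 0) : (mT T).det ≠ 0 := by
  have e : inst = fun a b => Classical.propDecidable (a = b) := Subsingleton.elim _ _
  subst e
  exact (hPE K L h2 f hf T hT).det

theorem iso_mm (hmul : S_mmul) [inst : DecidableEq L] (h2 : (2 : K) ≠ 0) {f : Cub K} (hf : f.disc ≠ 0)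
    {T T' : Pt (crv f) L} (hT : 2 • T = 0) (hT' : 2 • T' = 0) :
    ∃ k : L, k ≠ 0 ∧ (mT T).mul (mT T') = (mT (T + T')).scal k := by
  have e : inst = fun a b => Classical.propDecidable (a = b) := Subsingleton.elim _ _
  subst e
  exact hmul K L h2 f hf T T' hT hT'

end iso_inst

theorem t_iso : S_tr → S_vinj → S_mPE → S_mmul → S_iso := by
  classical
  intro hTr _ hPE hmul K Kv _ _ _ h2 f hf c hc hloc ι
  obtain ⟨Q, hQ⟩ := hloc ι
  have h2L : (2 : SeparableClosure Kv) ≠ 0 := by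
    intro h
    apply h2
    have h1 : algebraMap K (SeparableClosure Kv) 2 = 0 := by rw [map_ofNat]; exact h
    exact (map_eq_zero _).1 h1
  have htors : ∀ τ : Gal K, 2 • Affine.Point.map ι (c τ) = 0 := by
    intro τ
    rw [← map_nsmul, hc.tors τ, map_zero]
  have hmap : ∀ τ : Gal K, (mT (c τ)).map (ι : SeparableClosure K →+* SeparableClosure Kv) =
      mT (Affine.Point.map ι (c τ)) := fun τ => iso_map_mT f ι (c τ)
  by_cases hQ2 : 2 • Q = 0
  · -- a point of order two
    refine ⟨iso_W (mT Q), iso_W_ne (iso_PE hPE h2 hf hQ2), iso_W_tr _, iso_W_det _, ?_⟩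
    intro σ τ hστ
    have h1 := hQ σ τ hστ
    set T := Affine.Point.map ι (c τ) with hT
    have hsum : T + Q = Affine.Point.map (σ.toAlgHom.restrictScalars K) Q := by
      rw [h1]
      abel
    have hT2 : 2 • T = 0 := htors τ
    have hTQ2 : 2 • (T + Q) = 0 := by rw [smul_add, hT2, hQ2, add_zero]
    obtain ⟨k, hk, hkm⟩ := iso_mm hmul h2 hf hT2 hQ2
    rw [hmap τ]
    have e1 : (iso_W (mT Q)).map (σ.toAlgHom : SeparableClosure Kv →+* SeparableClosure Kv) =
        iso_W (mT (T + Q)) := by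
      rw [iso_W_map, hsum]
      congr 1
      exact iso_map_mT f (σ.toAlgHom.restrictScalars K) Q
    rw [e1]
    exact iso_W_conj (iso_PE hPE h2 hf hQ2) (iso_PE hPE h2 hf hTQ2) hkm
  · -- other points
    cases Q with
    | zero => exact absurd (smul_zero 2) hQ2
    | some x y h =>
      have hy : y ≠ 0 := by
        rintro rfl
        apply hQ2
        rw [two_nsmul]
        apply Affine.Point.add_self_of_Y_eq
        simp only [Affine.negY]
        simp [crv]
      refine ⟨iso_V x y, ?_, ?_, ?_, ?_⟩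
      · intro h0
        have e := congrArg M2.γ h0
        simp only [iso_V] at e
        exact one_div_ne_zero hy e
      · rfl
      · simp only [iso_V, M2.det]
        field_simp
        ring
      · intro σ τ hστ
        have h1 := hQ σ τ hστ
        set T := Affine.Point.map ι (c τ) with hT
        have hT2 : 2 • T = 0 := htors τ
        have hsum : Affine.Point.some x y h + T =
            Affine.Point.map (σ.toAlgHom.restrictScalars K) (Affine.Point.some x y h) := by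
          rw [h1]
          abel
        rw [Affine.Point.map_some] at hsum
        have h3 := iso_tr hTr h2 hf (Q := Affine.Point.some x y h) hT2
        rw [hsum] at h3
        rw [hmap τ, iso_V_map]
        have hy' : σ y ≠ 0 := by
          intro h0
          exact hy ((map_eq_zero σ).1 h0)
        exact iso_V_conj h2L hy hy' h3

end Pool.Agent.H456.Coh
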