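import Pool.Agent.H456.Coh.Stm

/-!
(C14), (C15). `Ks = SeparableClosure K`, `Kvs = SeparableClosure Kv`, `ι : Ks →ₐ[K] Kvs`. `M` as in `Assoc`: `PE M zp (mapP s)`, `σ M ~ mT(c σ) M`. `Mv = M.map ι`, then `PE Mv (zp over Kvs) (mapP s over Kvs)`, and for compatible `(σ, τ)` (`ι ∘ τ = σ ∘ ι`): `σ Mv = ι (τ M) ~ ι(mT (c τ)) Mv`,
`(mT T).map ι = mT (Affine.Point.map ι T)` (by cases). If `PE M zp s` then `(u, v, z) ↦ act3 M (u, v, z)` maps the solutions of `z² = s(u, v)` to the solutions of `z² = zp(u, v)` (`Q4.ev_sub'` in SDef.lean: `(g.sub M).ev u v = g.ev (..)`), with the inverse `act3` of `M⁻¹ = M.adj.scal (det M)⁻¹`.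
(C14) Let `p = (u, v, z)` over `Kv` be a solution. `S_vsurj` gives `Q` with `vec Q ~ act3 Mv p` (`~` = `Rel3`). `vec (σ Q) = σ (vec Q) ~ act3 (σ Mv) p ~ act3 (mT(ι c τ)) (act3 Mv p) ~ act3 (mT (ι c τ)) (vec Q) ~ vec (Q + ι c τ)` (`S_tr`), so `σ Q = Q + ι (c τ)` by `S_vinj`.
(C15) There is an embedding `ι` (`Kvs` is separably closed and `Ks/K` separable algebraic: `IsSepClosed.lift` or similar). Let `Q` be the point of `LocTriv`, `p = act3 Mv⁻¹ (vec Q) = (u, v, z)`. For every `σ : Gal Kv` there is a `τ : Gal K` with `ι ∘ τ = σ ∘ ι` (`Ks/K` is normal: e.g. put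
`Algebra Ks Kvs := ι.toAlgebra` and use `AlgEquiv.restrictNormal` / `AlgHom.restrictNormal`, `AlgEquiv.restrictNormal_commutes`). Then `σ p = act3 (σ Mv)⁻¹ (vec (σ Q)) ~ act3 (Mv⁻¹ (mT ι c τ)⁻¹) (vec (Q + ι c τ)) ~ p`. Scale `p` (weights `1, 1, 2`) such that `u = 1` or `v = 1`;
then `σ p ~ p` with the factor `k = 1`, so `σ p = p` and `p` has coordinates in `Kv` (`IsGalois`/`InfiniteGalois`, fixed field), and `z² = s(u, v)` over `Kv` by injectivity.
-/

set_option autoImplicit false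
set_option linter.all false

open Polynomial WeierstrassCurve IsDedekindDomain
open Pool.Agent.H456.BQ
open Pool.Agent.H456.EC (toK toK_inj sig toK_eq reflect_toK)

namespace Pool.Agent.H456.Coh

section aux

variable {K : Type} [Field K] {L L' : Type} [Field L] [Algebra K L] [Field L'] [Algebra K L']

/-- image of a triple -/
def loc_mp (φ : L → L') (p : L × L × L) : L' × L' × L' := (φ p.1, φ p.2.1, φ p.2.2)

theorem loc_vec_map [DecidableEq L] [DecidableEq L'] {f : Cub K} (φ : L →ₐ[K] L') (Q : Pt (crv f) L) :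
    vec (f := f) (L := L') (Affine.Point.map φ Q) = loc_mp φ (vec Q) := by
  rcases Q with _ | ⟨x, y, h⟩
  · show ((1 : L'), (0 : L'), (0 : L')) = (φ 1, φ 0, φ 0)
    simp
  · show (φ x, (1 : L'), 2 * φ y) = (φ x, φ 1, φ (2 * y))
    rw [map_one, map_mul, map_ofNat]

theorem loc_mT_map [DecidableEq L] [DecidableEq L'] {f : Cub K} (φ : L →ₐ[K] L') (T : Pt (crv f) L) :
    (mT T).map (φ : L →+* L') = mT (f := f) (L := L') (Affine.Point.map φ T) := by
  rcases T with _ | ⟨x, y, h⟩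
  · show (⟨φ 1, φ 0, φ 0, φ 1⟩ : M2 L') = ⟨1, 0, 0, 1⟩
    simp
  · show (⟨φ x, φ ((fL f L).dev x - x ^ 2), φ 1, φ (-x)⟩ : M2 L') =
      ⟨φ x, (fL f L').dev (φ x) - (φ x) ^ 2, 1, -(φ x)⟩
    simp [Cub.dev, Cub.map, map_ofNat]

theorem loc_Rel3_symm {p q : L × L × L} (h : Rel3 p q) : Rel3 q p := by
  obtain ⟨k, hk, e⟩ := h
  refine ⟨k⁻¹, inv_ne_zero hk, ?_⟩
  obtain ⟨p1, p2, p3⟩ := p
  rw [e]
  simp only [Prod.mk.injEq]
  refine ⟨?_, ?_, ?_⟩ <;> field_simp

theorem loc_Rel3_trans {p q r : L × L × L} (h : Rel3 p q) (h' : Rel3 q r) : Rel3 p r := by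
  obtain ⟨k, hk, e⟩ := h
  obtain ⟨l, hl, e'⟩ := h'
  refine ⟨l * k, mul_ne_zero hl hk, ?_⟩
  rw [e', e]
  simp only [Prod.mk.injEq]
  refine ⟨?_, ?_, ?_⟩ <;> ring

theorem loc_act_Rel3 (M : M2 L) {p q : L × L × L} (h : Rel3 p q) : Rel3 (act3 M p) (act3 M q) := by
  obtain ⟨k, hk, e⟩ := h
  refine ⟨k, hk, ?_⟩
  rw [e]
  simp only [act3, Prod.mk.injEq]
  refine ⟨?_, ?_, ?_⟩ <;> ring

theorem loc_act_scal (M : M2 L) {k : L} (hk : k ≠ 0) (p : L × L × L) : Rel3 (act3 M p) (act3 (M.scal k) p) := by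
  refine ⟨k, hk, ?_⟩
  simp only [act3, M2.scal, M2.det, Prod.mk.injEq]
  refine ⟨?_, ?_, ?_⟩ <;> ring

theorem loc_act_mul (M N : M2 L) (p : L × L × L) : act3 (M.mul N) p = act3 M (act3 N p) := by
  simp only [act3, M2.mul, M2.det, Prod.mk.injEq]
  refine ⟨?_, ?_, ?_⟩ <;> ring

theorem loc_act_map (φ : L →+* L') (M : M2 L) (p : L × L × L) : loc_mp φ (act3 M p) = act3 (M.map φ) (loc_mp φ p) := by
  simp only [act3, M2.map, M2.det, loc_mp, Prod.mk.injEq, map_add, map_mul, map_sub]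

theorem loc_Rel3_map (φ : L →+* L') {p q : L × L × L} (h : Rel3 p q) : Rel3 (loc_mp φ p) (loc_mp φ q) := by
  obtain ⟨k, hk, e⟩ := h
  refine ⟨φ k, (map_ne_zero φ).2 hk, ?_⟩
  rw [e]
  simp only [loc_mp, map_mul, map_pow]

theorem loc_PE_map (φ : L →+* L') {M : M2 L} {s s' : Q4 L × L} (h : PE M s s') :
    PE (M.map φ) (s.1.map φ, φ s.2) (s'.1.map φ, φ s'.2) := by
  refine ⟨?_, ?_, ?_⟩
  · rw [M2.map_det]; exact (map_ne_zero φ).2 h.det
  · simp only
    rw [← Q4.map_sub, h.sub, Q4.map_smul, M2.map_det, map_pow]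
  · simp only
    rw [Q4.map_tau, h.tau, M2.map_det, map_mul, map_sub, map_pow]

theorem loc_zp_map (f : Cub K) (φ : L →ₐ[K] L') :
    ((zp (fL f L)).1.map (φ : L →+* L'), (φ : L →+* L') (zp (fL f L)).2) = zp (fL f L') := by
  simp [zp, Q4.map, Cub.map, map_ofNat]

theorem loc_mapP_map (s : Q4 K × K) (φ : L →ₐ[K] L') :
    ((mapP L s).1.map (φ : L →+* L'), (φ : L →+* L') (mapP L s).2) = mapP L' s := by
  simp [mapP, Q4.map]

/-- the substitution maps solutions to solutions -/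
theorem loc_act_ev {M : M2 L} {s s' : Q4 L × L} (h : PE M s s') {p : L × L × L}
    (hp : p.2.2 ^ 2 = s'.1.ev p.1 p.2.1) :
    (act3 M p).2.2 ^ 2 = s.1.ev (act3 M p).1 (act3 M p).2.1 := by
  have h1 := Q4.ev_sub s.1 M p.1 p.2.1
  rw [h.sub, Q4.ev_smul, ← hp] at h1
  simp only [act3]
  rw [← h1]; ring

theorem loc_act_ne {M : M2 L} (hM : M.det ≠ 0) {p : L × L × L} (hp : ¬ (p.1 = 0 ∧ p.2.1 = 0)) :
    ¬ ((act3 M p).1 = 0 ∧ (act3 M p).2.1 = 0) := by
  rintro ⟨h1, h2⟩
  simp only [act3] at h1 h2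
  apply hp
  constructor
  · have : M.det * p.1 = 0 := by simp only [M2.det]; linear_combination M.δ * h1 - M.β * h2
    exact (mul_eq_zero.1 this).resolve_left hM
  · have : M.det * p.2.1 = 0 := by simp only [M2.det]; linear_combination M.α * h2 - M.γ * h1
    exact (mul_eq_zero.1 this).resolve_left hM

theorem loc_adj_scal (k : L) (M : M2 L) : (M.scal k).adj = M.adj.scal k := by
  ext <;> simp only [M2.adj, M2.scal] <;> ring

theorem loc_adj_mul (M N : M2 L) : (M.mul N).adj = N.adj.mul M.adj := by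
  ext <;> simp only [M2.adj, M2.mul] <;> ring

theorem loc_adj_map (φ : L →+* L') (M : M2 L) : M.adj.map φ = (M.map φ).adj := by
  ext <;> simp [M2.adj, M2.map]

theorem loc_scal_map (φ : L →+* L') (k : L) (M : M2 L) : (M.scal k).map φ = (M.map φ).scal (φ k) := by
  ext <;> simp [M2.scal, M2.map]

theorem loc_act_adj {M : M2 L} (hM : M.det ≠ 0) (p : L × L × L) : Rel3 p (act3 M.adj (act3 M p)) := by
  refine ⟨M.det, hM, ?_⟩
  rw [← loc_act_mul, M2.adj_mul]
  simp only [act3, M2.det, Prod.mk.injEq]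
  refine ⟨?_, ?_, ?_⟩ <;> ring

theorem loc_tr [DecidableEq L] (htr : S_tr) (h2 : (2 : K) ≠ 0) (f : Cub K) (hf : f.disc ≠ 0) (T Q : Pt (crv f) L)
    (hT : 2 • T = 0) : Rel3 (act3 (mT T) (vec Q)) (vec (Q + T)) := by
  have e : (‹DecidableEq L› : DecidableEq L) = fun a b => Classical.propDecidable (a = b) := Subsingleton.elim _ _
  subst e
  exact htr K L h2 f hf T Q hT

theorem loc_mmul [DecidableEq L] (hmul : S_mmul) (h2 : (2 : K) ≠ 0) (f : Cub K) (hf : f.disc ≠ 0) (T T' : Pt (crv f) L)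
    (hT : 2 • T = 0) (hT' : 2 • T' = 0) : ∃ k : L, k ≠ 0 ∧ (mT T).mul (mT T') = (mT (T + T')).scal k := by
  have e : (‹DecidableEq L› : DecidableEq L) = fun a b => Classical.propDecidable (a = b) := Subsingleton.elim _ _
  subst e
  exact hmul K L h2 f hf T T' hT hT'

theorem loc_mT_det [DecidableEq L] (hmul : S_mmul) (h2 : (2 : K) ≠ 0) (f : Cub K) (hf : f.disc ≠ 0) (T : Pt (crv f) L) (hT : 2 • T = 0) :
    (mT T).det ≠ 0 := by
  obtain ⟨k, hk, e⟩ := loc_mmul hmul h2 f hf T T hT hT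
  have h3 : T + T = 0 := by rw [← two_nsmul]; exact hT
  rw [h3] at e
  have h4 : (mT (f := f) (L := L) 0).scal k = ⟨k, 0, 0, k⟩ := by
    show M2.scal k ⟨1, 0, 0, 1⟩ = _
    ext <;> simp [M2.scal]
  rw [h4] at e
  intro h0
  have h5 := M2.det_mul (mT T) (mT T)
  rw [e, h0] at h5
  simp only [M2.det, mul_zero, sub_zero] at h5
  exact hk (mul_self_eq_zero.1 h5)

end aux

section two

variable {K Kv : Type} [Field K] [Field Kv] [Algebra K Kv]

/-- the matrix of the pair over the closure of the completion, and its conjugates -/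
theorem loc_conj {f : Cub K} {c : Gal K → Pt (crv f) (SeparableClosure K)} {M : M2 (SeparableClosure K)}
    (hM : ∀ σ : Gal K, ∃ k : SeparableClosure K, k ≠ 0 ∧
      M.map (σ.toAlgHom : SeparableClosure K →+* SeparableClosure K) = ((mT (c σ)).mul M).scal k)
    (ι : SeparableClosure K →ₐ[K] SeparableClosure Kv) (σ : Gal Kv) (τ : Gal K) (h : ∀ x, ι (τ x) = σ (ι x)) :
    ∃ k : SeparableClosure Kv, k ≠ 0 ∧
      (M.map (ι : SeparableClosure K →+* SeparableClosure Kv)).map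
        ((σ.toAlgHom.restrictScalars K : SeparableClosure Kv →ₐ[K] SeparableClosure Kv) :
          SeparableClosure Kv →+* SeparableClosure Kv) =
      (((mT (c τ)).map (ι : SeparableClosure K →+* SeparableClosure Kv)).mul
        (M.map (ι : SeparableClosure K →+* SeparableClosure Kv))).scal k := by
  obtain ⟨k, hk, e⟩ := hM τ
  refine ⟨ι k, (map_ne_zero ι).2 hk, ?_⟩
  have e2 : (M.map (ι : SeparableClosure K →+* SeparableClosure Kv)).map
        ((σ.toAlgHom.restrictScalars K : SeparableClosure Kv →ₐ[K] SeparableClosure Kv) :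
          SeparableClosure Kv →+* SeparableClosure Kv) =
      (M.map (τ.toAlgHom : SeparableClosure K →+* SeparableClosure K)).map
        (ι : SeparableClosure K →+* SeparableClosure Kv) := by
    exact M2.ext (h M.α).symm (h M.β).symm (h M.γ).symm (h M.δ).symm
  rw [e2, e, loc_scal_map, M2.map_mul]
  rfl

end two

open Classical in
theorem loc_one (htr : S_tr) (hvi : S_vinj) (hvs : S_vsurj) : S_loc1 := by
  intro K Kv _ _ _ h2 f hf c hc s ⟨M, hPE, hM⟩ hsol ι
  obtain ⟨u, v, z, huv, hz⟩ := hsol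
  have hPEv := loc_PE_map (ι : SeparableClosure K →+* SeparableClosure Kv) hPE
  rw [loc_zp_map, loc_mapP_map] at hPEv
  set Mv := M.map (ι : SeparableClosure K →+* SeparableClosure Kv) with hMv
  set p : SeparableClosure Kv × SeparableClosure Kv × SeparableClosure Kv :=
    loc_mp (algebraMap Kv (SeparableClosure Kv)) (u, v, z) with hp
  have hp1 : p.2.2 ^ 2 = (mapP (SeparableClosure Kv) s).1.ev p.1 p.2.1 := by
    have e1 : (mapP (SeparableClosure Kv) s).1 =
        (s.1.map (algebraMap K Kv)).map (algebraMap Kv (SeparableClosure Kv)) := by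
      simp only [mapP, Q4.map, IsScalarTower.algebraMap_apply K Kv (SeparableClosure Kv)]
    rw [e1]
    simp only [hp, loc_mp]
    rw [Q4.map_ev, ← hz, map_pow]
  have hp2 : ¬ (p.1 = 0 ∧ p.2.1 = 0) := by
    rintro ⟨h1, h2⟩
    simp only [hp, loc_mp] at h1 h2
    exact huv ⟨(map_eq_zero _).1 h1, (map_eq_zero _).1 h2⟩
  have hq1 := loc_act_ev hPEv hp1
  have hq2 := loc_act_ne hPEv.det hp2
  obtain ⟨Q, hQ⟩ := (hvs K (SeparableClosure Kv) h2 f hf).2 _ _ _ hq2 hq1
  refine ⟨Q, fun σ τ hστ => ?_⟩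
  have hT2 : 2 • (Affine.Point.map ι (c τ) : Pt (crv f) (SeparableClosure Kv)) = 0 := by
    rw [← map_nsmul, hc.tors τ, map_zero]
  set σ' : SeparableClosure Kv →ₐ[K] SeparableClosure Kv := σ.toAlgHom.restrictScalars K with hσ'
  have hfix : loc_mp (σ' : SeparableClosure Kv → SeparableClosure Kv) p = p := by
    simp only [hp, loc_mp, hσ', Prod.mk.injEq]
    exact ⟨σ.commutes u, σ.commutes v, σ.commutes z⟩
  obtain ⟨k, hk, ek⟩ := loc_conj hM ι σ τ hστ
  rw [loc_mT_map, ← hMv, ← hσ'] at ek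
  have key : Rel3 (vec (f := f) (L := SeparableClosure Kv) (Affine.Point.map σ' Q))
      (vec (f := f) (L := SeparableClosure Kv) (Q + Affine.Point.map ι (c τ))) := by
    rw [loc_vec_map]
    have r1 : Rel3 (loc_mp (σ' : SeparableClosure Kv → SeparableClosure Kv) (vec Q))
        (loc_mp (σ' : SeparableClosure Kv → SeparableClosure Kv) (act3 Mv p)) :=
      loc_Rel3_map (σ' : SeparableClosure Kv →+* SeparableClosure Kv) hQ
    have r2 : loc_mp (σ' : SeparableClosure Kv → SeparableClosure Kv) (act3 Mv p) =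
        act3 (Mv.map (σ' : SeparableClosure Kv →+* SeparableClosure Kv)) p := by
      have := loc_act_map (σ' : SeparableClosure Kv →+* SeparableClosure Kv) Mv p
      refine this.trans ?_
      exact congrArg _ hfix
    rw [r2, ek] at r1
    refine loc_Rel3_trans r1 ?_
    refine loc_Rel3_trans (loc_Rel3_symm (loc_act_scal _ hk p)) ?_
    rw [loc_act_mul]
    refine loc_Rel3_trans (loc_act_Rel3 _ (loc_Rel3_symm hQ)) ?_
    exact loc_tr htr h2 f hf _ Q hT2
  have h3 := hvi K (SeparableClosure Kv) h2 f _ _ key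
  rw [eq_sub_iff_add_eq, add_comm]
  exact h3.symm

/-- the restriction of an automorphism -/
theorem loc_restr {K Kv : Type} [Field K] [Field Kv] [Algebra K Kv]
    (ι : SeparableClosure K →ₐ[K] SeparableClosure Kv) (σ : Gal Kv) : ∃ τ : Gal K, ∀ x, ι (τ x) = σ (ι x) := by
  letI : Algebra (SeparableClosure K) (SeparableClosure Kv) := ι.toRingHom.toAlgebra
  haveI : IsScalarTower K (SeparableClosure K) (SeparableClosure Kv) :=
    IsScalarTower.of_algebraMap_eq' ι.comp_algebraMap.symm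
  refine ⟨(σ.restrictScalars K).restrictNormal (SeparableClosure K), fun x => ?_⟩
  exact AlgEquiv.restrictNormal_commutes (σ.restrictScalars K) (SeparableClosure K) x

open Classical in
theorem loc_two (htr : S_tr) (hvs : S_vsurj) (hmul : S_mmul) : S_loc2 := by
  intro K Kv _ _ _ h2 f hf c hc s ⟨M, hPE, hM⟩ hloc
  have ι : SeparableClosure K →ₐ[K] SeparableClosure Kv := IsSepClosed.lift
  obtain ⟨Q, hQ⟩ := hloc ι
  have hPEv := loc_PE_map (ι : SeparableClosure K →+* SeparableClosure Kv) hPE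
  rw [loc_zp_map, loc_mapP_map] at hPEv
  set Mv := M.map (ι : SeparableClosure K →+* SeparableClosure Kv) with hMv
  have hPEs := hPEv.symm
  obtain ⟨hv1, hv2⟩ := (hvs K (SeparableClosure Kv) h2 f hf).1 Q
  have hp1 := loc_act_ev hPEs hv2
  have hp2 := loc_act_ne hPEs.det hv1
  set p := act3 Mv.adj (vec Q) with hp
  have hfix : ∀ σ : Gal Kv, ∃ k : SeparableClosure Kv, k ≠ 0 ∧ σ p.1 = k * p.1 ∧ σ p.2.1 = k * p.2.1 ∧
      σ p.2.2 = k ^ 2 * p.2.2 := by
    intro σ
    obtain ⟨τ, hστ⟩ := loc_restr ι σ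
    have hT2 : 2 • (Affine.Point.map ι (c τ) : Pt (crv f) (SeparableClosure Kv)) = 0 := by
      rw [← map_nsmul, hc.tors τ, map_zero]
    set σ' : SeparableClosure Kv →ₐ[K] SeparableClosure Kv := σ.toAlgHom.restrictScalars K with hσ'
    obtain ⟨k, hk, ek⟩ := loc_conj hM ι σ τ hστ
    rw [loc_mT_map, ← hMv, ← hσ'] at ek
    have hQσ : Affine.Point.map σ' Q = Q + (Affine.Point.map ι (c τ) : Pt (crv f) (SeparableClosure Kv)) := by
      rw [hQ σ τ hστ]; abel
    have r1 : loc_mp (σ' : SeparableClosure Kv → SeparableClosure Kv) p =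
        act3 (Mv.adj.map (σ' : SeparableClosure Kv →+* SeparableClosure Kv))
          (vec (f := f) (L := SeparableClosure Kv) (Q + Affine.Point.map ι (c τ))) := by
      rw [← hQσ, loc_vec_map]
      exact loc_act_map (σ' : SeparableClosure Kv →+* SeparableClosure Kv) Mv.adj (vec Q)
    rw [loc_adj_map, ek, loc_adj_scal, loc_adj_mul] at r1
    have r2 : Rel3 p (loc_mp (σ' : SeparableClosure Kv → SeparableClosure Kv) p) := by
      rw [r1]
      apply loc_Rel3_symm
      refine loc_Rel3_trans (loc_Rel3_symm (loc_act_scal _ hk _)) ?_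
      rw [loc_act_mul]
      apply loc_act_Rel3
      refine loc_Rel3_trans (loc_act_Rel3 _ (loc_Rel3_symm (loc_tr htr h2 f hf _ Q hT2))) ?_
      exact loc_Rel3_symm (loc_act_adj (loc_mT_det hmul h2 f hf _ hT2) (vec Q))
    obtain ⟨l, hl, e⟩ := r2
    refine ⟨l, hl, congrArg Prod.fst e, congrArg (fun t => t.2.1) e, congrArg (fun t => t.2.2) e⟩
  have hG : IsGalois Kv (SeparableClosure Kv) := inferInstance
  -- a normalised solution has coordinates in the completion
  have hmem : ∀ x : SeparableClosure Kv, (∀ σ : Gal Kv, σ x = x) → ∃ y : Kv, algebraMap Kv (SeparableClosure Kv) y = x := by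
    intro x hx
    have := (InfiniteGalois.mem_bot_iff_fixed (k := Kv) x).2 hx
    exact IntermediateField.mem_bot.1 this
  have e1 : (mapP (SeparableClosure Kv) s).1 =
      (s.1.map (algebraMap K Kv)).map (algebraMap Kv (SeparableClosure Kv)) := by
    simp only [mapP, Q4.map, IsScalarTower.algebraMap_apply K Kv (SeparableClosure Kv)]
  rw [e1] at hp1
  by_cases h1 : p.1 = 0
  · have h3 : p.2.1 ≠ 0 := fun h => hp2 ⟨h1, h⟩
    obtain ⟨z, hz⟩ := hmem (p.2.2 / p.2.1 ^ 2) (by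
      intro σ
      obtain ⟨k, hk, k1, k2, k3⟩ := hfix σ
      rw [map_div₀, map_pow, k2, k3]
      field_simp)
    refine ⟨0, 1, z, fun h => one_ne_zero h.2, ?_⟩
    apply (algebraMap Kv (SeparableClosure Kv)).injective
    rw [← Q4.map_ev, map_pow, hz, map_zero, map_one, div_pow, hp1, h1]
    simp only [Q4.ev]
    field_simp
    ring
  · obtain ⟨z, hz⟩ := hmem (p.2.2 / p.1 ^ 2) (by
      intro σ
      obtain ⟨k, hk, k1, k2, k3⟩ := hfix σ
      rw [map_div₀, map_pow, k1, k3]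
      field_simp)
    obtain ⟨v, hv⟩ := hmem (p.2.1 / p.1) (by
      intro σ
      obtain ⟨k, hk, k1, k2, k3⟩ := hfix σ
      rw [map_div₀, k1, k2]
      field_simp)
    refine ⟨1, v, z, fun h => one_ne_zero h.1, ?_⟩
    apply (algebraMap Kv (SeparableClosure Kv)).injective
    rw [← Q4.map_ev, map_pow, hz, hv, map_one, div_pow, hp1]
    simp only [Q4.ev]
    field_simp

theorem t_loc12 : S_tr → S_vinj → S_vsurj → S_mmul → S_minj → S_loc1 ∧ S_loc2 :=
  fun htr hvi hvs hmul _ => ⟨loc_one htr hvi hvs, loc_two htr hvs hmul⟩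

end Pool.Agent.H456.Coh
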