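import Pool.Agent.H456.Coh.Stm

/-!
(C7), (C8) formal consequences. (C8) if `mT T = (mT T').scal k` (`k ≠ 0` since `det (mT T) ≠ 0` by `S_mPE`), then apply both to `vec 0 = (1, 0, 0)`: by `S_tr` (with `Q = 0`) `act3 (mT T) (vec 0) ~ vec T`, `act3 (mT T') (vec 0) ~ vec T'`; the `z`-coordinates
are zero, so `vec T ~ vec T'` and `T = T'` by `S_vinj`. (C7) `(mT T).mul (mT T')` stabilizes `zp` (`PE.trans`), so it is `(mT T'').scal k` with `2 T'' = 0` (`S_mstab`); apply it to `vec 0`: `vec (T' + T) ~ act3 (mT T) (vec T') ~ act3 (mT T) (act3 (mT T') (vec 0))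
= act3 ((mT T).mul (mT T')) (vec 0) ~ vec T''`, so `T'' = T + T'`. You need: `Rel3` is an equivalence relation, `act3 M` respects `Rel3`, `act3 (M.mul N) p = act3 M (act3 N p)`, `act3 (M.scal k) p ~ act3 M p` (`det (M.scal k) = k² det M`).
-/

set_option autoImplicit false
set_option linter.all false

open Polynomial WeierstrassCurve IsDedekindDomain
open Pool.Agent.H456.BQ
open Pool.Agent.H456.EC (toK toK_inj sig toK_eq reflect_toK)

namespace Pool.Agent.H456.Coh

section mmul_aux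

variable {L : Type} [Field L]

theorem mmul_rel_refl (p : L × L × L) : Rel3 p p :=
  ⟨1, one_ne_zero, by simp⟩

theorem mmul_rel_symm {p q : L × L × L} (h : Rel3 p q) : Rel3 q p := by
  obtain ⟨k, hk, rfl⟩ := h
  refine ⟨k⁻¹, inv_ne_zero hk, ?_⟩
  obtain ⟨a, b, c⟩ := p
  simp only [Prod.mk.injEq]
  refine ⟨by field_simp, by field_simp, by field_simp⟩

theorem mmul_rel_trans {p q r : L × L × L} (h : Rel3 p q) (h' : Rel3 q r) : Rel3 p r := by
  obtain ⟨k, hk, rfl⟩ := h
  obtain ⟨l, hl, rfl⟩ := h'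
  refine ⟨l * k, mul_ne_zero hl hk, ?_⟩
  obtain ⟨a, b, c⟩ := p
  simp only [Prod.mk.injEq]
  refine ⟨by ring, by ring, by ring⟩

theorem mmul_act_rel (M : M2 L) {p q : L × L × L} (h : Rel3 p q) : Rel3 (act3 M p) (act3 M q) := by
  obtain ⟨k, hk, rfl⟩ := h
  refine ⟨k, hk, ?_⟩
  obtain ⟨a, b, c⟩ := p
  simp only [act3, Prod.mk.injEq]
  refine ⟨by ring, by ring, by ring⟩

theorem mmul_act_mul (M N : M2 L) (p : L × L × L) : act3 (M.mul N) p = act3 M (act3 N p) := by
  obtain ⟨a, b, c⟩ := p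
  simp only [act3, M2.det_mul, Prod.mk.injEq]
  simp only [M2.mul]
  refine ⟨by ring, by ring, by ring⟩

theorem mmul_act_scal (M : M2 L) {k : L} (hk : k ≠ 0) (p : L × L × L) :
    Rel3 (act3 M p) (act3 (M.scal k) p) := by
  refine ⟨k, hk, ?_⟩
  obtain ⟨a, b, c⟩ := p
  simp only [act3, M2.det_scal, Prod.mk.injEq]
  simp only [M2.scal]
  refine ⟨by ring, by ring, by ring⟩

end mmul_aux

open Classical in
theorem t_mmul : S_tr → S_vinj → S_vsurj → S_mPE → S_mstab → S_mmul ∧ S_minj := by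
  intro htr hvinj _ hmPE hmstab
  have key : ∀ (K L : Type) [Field K] [Field L] [Algebra K L], (2 : K) ≠ 0 → ∀ f : Cub K,
      f.disc ≠ 0 → ∀ T : Pt (crv f) L, 2 • T = 0 →
      Rel3 (act3 (mT T) (1, 0, 0)) (vec T) := by
    intro K L _ _ _ h2 f hf T hT
    have h := htr K L h2 f hf T 0 hT
    have e : (0 : Pt (crv f) L) + T = T := zero_add T
    rw [e] at h
    exact h
  refine ⟨?_, ?_⟩
  · intro K L _ _ _ h2 f hf T T' hT hT'
    have h1 := (hmPE K L h2 f hf T hT).trans (hmPE K L h2 f hf T' hT')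
    obtain ⟨T'', k, hT'', hk, e⟩ := hmstab K L h2 f hf _ h1
    have a1 := mmul_act_scal (mT T'') hk ((1, 0, 0) : L × L × L)
    rw [← e, mmul_act_mul] at a1
    have a2 := mmul_act_rel (mT T) (key K L h2 f hf T' hT')
    have a3 := htr K L h2 f hf T T' hT
    have a4 := mmul_rel_trans (mmul_rel_symm (key K L h2 f hf T'' hT'')) (mmul_rel_trans a1
      (mmul_rel_trans a2 a3))
    have a5 := hvinj K L h2 f _ _ a4
    refine ⟨k, hk, ?_⟩
    have e' : T' + T = T + T' := add_comm T' T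
    rw [e, a5, e']
  · intro K L _ _ _ h2 f hf T T' k hT hT' e
    have hk : k ≠ 0 := by
      rintro rfl
      have h1 := (hmPE K L h2 f hf T hT).det
      apply h1
      rw [e, M2.det_scal]
      ring
    have a1 := mmul_act_scal (mT T') hk ((1, 0, 0) : L × L × L)
    rw [← e] at a1
    exact hvinj K L h2 f _ _ (mmul_rel_trans (mmul_rel_symm (key K L h2 f hf T hT))
      (mmul_rel_trans (mmul_rel_symm a1) (key K L h2 f hf T' hT')))

end Pool.Agent.H456.Coh
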