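import Pool.Agent.H456.Coh.Stm

/-!
(C5), (C6), pure algebra. Write `f.map = (a, b, c)`, `zp = (⟨0, 4, 4a, 4b, 4c⟩, 0)`. (C5) `T = (e, 0)`, `f(e) = 0`, `d = f'(e) = dev e`, `mT T = ⟨e, d - e², 1, -e⟩`, `det = -d ≠ 0`: check `Q4.sub`, `Q4.tau` by `ring` / `linear_combination` with `f(e) = 0`
(`2 T = 0` implies `y = 0`: `2y = 0`, use `Affine.Point.add_self`..., or `T = -T`). (C6) `M = ⟨α, β, γ, δ⟩` with `PE M zp zp`. If `γ = 0`: comparing coefficients, `sub`: `B`-coefficient: `4 α³ δ = (αδ)² 4`, so `α = δ`; `tau = 0`: gives `β = 0`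
(`tau = α β (αδ) 4 = 0`); so `M = α · 1 = (mT 0).scal α`. If `γ ≠ 0`: the `A`-coefficient of `zp.sub M` is `zp.ev α γ = 4 γ (α³ + aα²γ + ...)`, it is `0`, so `e = α/γ` is a root of `f`; let `T = (e, 0)` (nonsingular as disc ≠ 0), then
`(mT T)⁻¹ M` stabilizes the pair (`PE.trans`, `PE.symm`) and has lower left entry `0`, so it is scalar by the first case, hence `M = (mT T).scal k`. (`mT T · mT T = d · 1`.)
-/

set_option autoImplicit false
set_option linter.all false

open Polynomial WeierstrassCurve IsDedekindDomain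
open Pool.Agent.H456.BQ
open Pool.Agent.H456.EC (toK toK_inj sig toK_eq reflect_toK)

namespace Pool.Agent.H456.Coh

section pure

variable {L : Type} [Field L]

/-- the matrix of the translation by the point `(e, 0)` -/
def mstab_N (F : Cub L) (e : L) : M2 L := ⟨e, F.dev e - e ^ 2, 1, -e⟩

theorem mstab_four (h2 : (2 : L) ≠ 0) : (4 : L) ≠ 0 := by
  have : (4 : L) = 2 ^ 2 := by norm_num
  rw [this]; exact pow_ne_zero _ h2

theorem mstab_PE {F : Cub L} (hF : F.disc ≠ 0) {e : L} (he : F.ev e = 0) :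
    PE (mstab_N F e) (zp F) (zp F) := by
  have hd : (mstab_N F e).det = -F.dev e := by simp only [mstab_N, M2.det]; ring
  have hd0 : F.dev e ≠ 0 := fun h => hF (disc_zero he h)
  refine ⟨?_, ?_, ?_⟩
  · rw [hd]
    exact neg_ne_zero.2 hd0
  · rw [hd]
    obtain ⟨a, b, c⟩ := F
    simp only [Cub.ev] at he
    have hc : c = -(e ^ 3 + a * e ^ 2 + b * e) := by linear_combination he
    subst hc
    ext <;> simp only [zp, mstab_N, Q4.sub, Q4.smul, Cub.dev] <;> ring
  · rw [hd]
    obtain ⟨a, b, c⟩ := F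
    simp only [Cub.ev] at he
    have hc : c = -(e ^ 3 + a * e ^ 2 + b * e) := by linear_combination he
    subst hc
    simp only [zp, mstab_N, Q4.tau, Cub.dev]
    ring

theorem mstab_c1 (h2 : (2 : L) ≠ 0) {F : Cub L} {M : M2 L} (hM : PE M (zp F) (zp F))
    (hγ : M.γ = 0) : ∃ k : L, k ≠ 0 ∧ M = ⟨k, 0, 0, k⟩ := by
  have h4 := mstab_four h2
  obtain ⟨α, β, γ, δ⟩ := M
  simp only at hγ
  subst hγ
  have hdet : α * δ ≠ 0 := by
    have := hM.det
    simp only [M2.det] at this
    intro h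
    apply this
    rw [h]
    ring
  have hα : α ≠ 0 := left_ne_zero_of_mul hdet
  have hδ : δ ≠ 0 := right_ne_zero_of_mul hdet
  have hB := congrArg Q4.B hM.sub
  simp only [zp, Q4.sub, Q4.smul, M2.det] at hB
  have e1 : α = δ := by
    have h1 : 4 * (α ^ 2 * δ) * (α - δ) = 0 := by linear_combination hB
    rcases mul_eq_zero.1 h1 with h3 | h3
    · exact absurd h3 (mul_ne_zero h4 (mul_ne_zero (pow_ne_zero _ hα) hδ))
    · exact sub_eq_zero.1 h3
  have ht := hM.tau
  simp only [zp, Q4.tau, M2.det] at ht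
  have e2 : β = 0 := by
    have h1 : 4 * (α * (α * δ)) * β = 0 := by linear_combination ht
    rcases mul_eq_zero.1 h1 with h3 | h3
    · exact absurd h3 (mul_ne_zero h4 (mul_ne_zero hα hdet))
    · exact h3
  refine ⟨α, hα, ?_⟩
  rw [e2, ← e1]

theorem mstab_c2 (h2 : (2 : L) ≠ 0) {F : Cub L} (hF : F.disc ≠ 0) {M : M2 L}
    (hM : PE M (zp F) (zp F)) (hγ : M.γ ≠ 0) :
    ∃ e k : L, F.ev e = 0 ∧ k ≠ 0 ∧ M = (mstab_N F e).scal k := by
  have h4 := mstab_four h2
  have hA := congrArg Q4.A hM.sub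
  simp only [zp, Q4.sub, Q4.smul] at hA
  have he : F.ev (M.α / M.γ) = 0 := by
    have h1 : 4 * M.γ ^ 4 * F.ev (M.α / M.γ) = 0 := by
      simp only [Cub.ev]
      field_simp
      linear_combination hA
    rcases mul_eq_zero.1 h1 with h3 | h3
    · exact absurd h3 (mul_ne_zero h4 (pow_ne_zero _ hγ))
    · exact h3
  set e := M.α / M.γ with hedef
  have hN := mstab_PE hF he
  have hP := hN.symm.trans hM
  have h0 : ((mstab_N F e).adj.mul M).γ = 0 := by
    simp only [mstab_N, M2.adj, M2.mul]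
    rw [hedef]
    field_simp
    ring
  obtain ⟨k, hk, hk2⟩ := mstab_c1 h2 hP h0
  have h1 : M.scal (mstab_N F e).det = (mstab_N F e).scal k := by
    have h5 : (mstab_N F e).mul ((mstab_N F e).adj.mul M) = M.scal (mstab_N F e).det := by
      rw [← M2.mul_assoc, M2.mul_adj]
      ext <;> simp only [M2.mul, M2.scal] <;> ring
    rw [← h5, hk2]
    ext <;> simp only [M2.mul, M2.scal] <;> ring
  refine ⟨e, k / (mstab_N F e).det, he, div_ne_zero hk hN.det, ?_⟩
  have hα := congrArg M2.α h1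
  have hβ := congrArg M2.β h1
  have hγ' := congrArg M2.γ h1
  have hδ := congrArg M2.δ h1
  simp only [M2.scal] at hα hβ hγ' hδ
  have hd := hN.det
  ext
  · simp only [M2.scal]
    rw [div_mul_eq_mul_div, eq_div_iff hd]
    linear_combination hα
  · simp only [M2.scal]
    rw [div_mul_eq_mul_div, eq_div_iff hd]
    linear_combination hβ
  · simp only [M2.scal]
    rw [div_mul_eq_mul_div, eq_div_iff hd]
    linear_combination hγ'
  · simp only [M2.scal]
    rw [div_mul_eq_mul_div, eq_div_iff hd]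
    linear_combination hδ

end pure

section pts

variable {K L : Type} [Field K] [Field L] [Algebra K L]

theorem mstab_two (h2 : (2 : K) ≠ 0) : (2 : L) ≠ 0 := by
  intro h
  apply h2
  apply (algebraMap K L).injective
  rw [map_ofNat, h, map_zero]

theorem mstab_disc {f : Cub K} (hf : f.disc ≠ 0) : (fL f L).disc ≠ 0 := by
  intro h
  apply hf
  apply (algebraMap K L).injective
  rw [map_zero, ← h]
  simp only [Cub.disc, Cub.map]
  simp only [map_sub, map_add, map_mul, map_pow, map_ofNat]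

theorem mstab_eqn {f : Cub K} {x y : L} :
    ((crv f).toAffine.baseChange L).toAffine.Equation x y ↔ y ^ 2 = (fL f L).ev x := by
  rw [Affine.equation_iff]
  simp only [crv, Cub.ev, Cub.map, WeierstrassCurve.baseChange, WeierstrassCurve.map, map_zero]
  constructor <;> intro h <;> linear_combination h

open Classical in
theorem mstab_tors (h2 : (2 : K) ≠ 0) {f : Cub K} {x y : L}
    {h : ((crv f).toAffine.baseChange L).toAffine.Nonsingular x y}
    (hT : 2 • (Affine.Point.some x y h : Pt (crv f) L) = 0) : (fL f L).ev x = 0 := by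
  have h2L := mstab_two (L := L) h2
  rw [two_nsmul] at hT
  have h3 := eq_neg_of_add_eq_zero_left hT
  rw [Affine.Point.neg_some] at h3
  injection h3 with _ h4
  have hy : y = 0 := by
    simp only [Affine.negY, crv, WeierstrassCurve.baseChange, WeierstrassCurve.map, map_zero] at h4
    have : 2 * y = 0 := by linear_combination h4
    exact (mul_eq_zero.1 this).resolve_left h2L
  have h5 := mstab_eqn.1 h.1
  rw [← h5, hy]
  ring

open Classical in
theorem mstab_pt (h2 : (2 : K) ≠ 0) {f : Cub K} (hf : f.disc ≠ 0) {e : L}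
    (he : (fL f L).ev e = 0) : ∃ h : ((crv f).toAffine.baseChange L).toAffine.Nonsingular e 0,
    2 • (Affine.Point.some e 0 h : Pt (crv f) L) = 0 := by
  have h2L := mstab_two (L := L) h2
  have hΔ : ((crv f).toAffine.baseChange L).Δ ≠ 0 := by
    have h1 : ((crv f).toAffine.baseChange L).Δ = algebraMap K L (crv f).Δ :=
      WeierstrassCurve.map_Δ _ _
    rw [h1, crv_Δ]
    have h16 : (16 : K) = 2 ^ 4 := by norm_num
    rw [h16]
    intro h0
    have := (algebraMap K L).injective (h0.trans (map_zero _).symm)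
    exact mul_ne_zero (pow_ne_zero _ h2) hf this
  have hns : ((crv f).toAffine.baseChange L).toAffine.Nonsingular e 0 := by
    refine (Affine.equation_iff_nonsingular_of_Δ_ne_zero hΔ).1 (mstab_eqn.2 ?_)
    rw [he]
    ring
  refine ⟨hns, ?_⟩
  rw [two_nsmul]
  refine Affine.Point.add_self_of_Y_eq ?_
  simp only [Affine.negY, crv, WeierstrassCurve.baseChange, WeierstrassCurve.map, map_zero]
  ring

end pts

theorem t_mstab : S_mPE ∧ S_mstab := by
  classical
  refine ⟨?_, ?_⟩
  · intro K L _ _ _ h2 f hf T hT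
    rcases T with _ | ⟨x, y, h⟩
    · exact PE.refl _
    · exact mstab_PE (mstab_disc hf) (mstab_tors h2 hT)
  · intro K L _ _ _ h2 f hf M hM
    by_cases hγ : M.γ = 0
    · obtain ⟨k, hk, hk2⟩ := mstab_c1 (mstab_two h2) hM hγ
      refine ⟨0, k, nsmul_zero 2, hk, ?_⟩
      rw [hk2]
      show (⟨k, 0, 0, k⟩ : M2 L) = (⟨1, 0, 0, 1⟩ : M2 L).scal k
      simp only [M2.scal, mul_one, mul_zero]
    · obtain ⟨e, k, he, hk, hk2⟩ := mstab_c2 (mstab_two h2) (mstab_disc hf) hM hγ
      obtain ⟨hns, hT⟩ := mstab_pt h2 hf he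
      exact ⟨_, k, hT, hk, hk2⟩

end Pool.Agent.H456.Coh
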