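import Pool.Agent.H456.Coh.Stm
import Pool.Graph.R_seed8.Y700.VC

/-!
(C21) `S_transp`. Change of variables `C = (u, r, s, t)`: `(C • E)(L) ≃ E(L)` for every extension `L` of `K = F(t)`, `(x, y) ↦ (u² x + r, u³ y + s u² x + t)`, additive, and natural in `L` (commutes with `Affine.Point.map`). A version over one field is `pEquiv` (BQ/, RN/, EC files of Pool/Agent/H456, grep `pEquiv`; see how additivity was proved there; for the base change use
`(C • E).baseChange L = (C.map ..) • E.baseChange L`, `WeierstrassCurve.map_variableChange` or `baseChange_variableChange`). Then transport the cocycles: `c ↦ φ_{Ks} ∘ c` is an isomorphism `selCocycles (C • E) A' ≃+ selCocycles E A` if `φ (A') = A` (locally constant maps, `LocTriv` with `Q ↦ φ_{Kvs} Q`, naturality), it maps coboundaries to coboundaries; for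
`torsionPts`, `primaryPts` clear since `φ` is an isomorphism of groups. `QuotientAddGroup.congr`. `SelmerGroup` is a `def`, unfold it.
-/

set_option autoImplicit false
set_option linter.all false

open Polynomial WeierstrassCurve IsDedekindDomain
open Pool.Agent.H456.BQ
open Pool.Agent.H456.EC (toK toK_inj sig toK_eq reflect_toK)

namespace Pool.Agent.H456.Coh

section transp

variable {K : Type} [Field K]

theorem transp_VR (E : WeierstrassCurve K) (C : VariableChange K) :
    Pool.Agent.Y700.VR E (C • E) (C.u : K) C.r C.s C.t where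
  u0 := C.u.ne_zero
  e1 := by
    rw [variableChange_a₁, ← mul_assoc, Units.mul_inv, one_mul]
  e2 := by
    rw [variableChange_a₂, ← mul_assoc, ← mul_pow, Units.mul_inv, one_pow, one_mul]
  e3 := by
    rw [variableChange_a₃, ← mul_assoc, ← mul_pow, Units.mul_inv, one_pow, one_mul]
  e4 := by
    rw [variableChange_a₄, ← mul_assoc, ← mul_pow, Units.mul_inv, one_pow, one_mul]
  e6 := by
    rw [variableChange_a₆, ← mul_assoc, ← mul_pow, Units.mul_inv, one_pow, one_mul]

/-- isomorphisms of the groups of points, natural in the field -/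
structure transpIso (E₁ E₂ : WeierstrassCurve K) where
  φ : ∀ (L : Type) [Field L] [Algebra K L], Pt E₁ L ≃ Pt E₂ L
  add : ∀ (L : Type) [Field L] [Algebra K L] [DecidableEq L] (P Q : Pt E₁ L),
    φ L (P + Q) = φ L P + φ L Q
  nat : ∀ (L L' : Type) [Field L] [Algebra K L] [Field L'] [Algebra K L'] [DecidableEq L]
    [DecidableEq L'] (f : L →ₐ[K] L') (P : Pt E₁ L),
    φ L' (Affine.Point.map f P) = Affine.Point.map f (φ L P)

/-- the isomorphism of groups -/
def transpIso.ad {E₁ E₂ : WeierstrassCurve K} (e : transpIso E₁ E₂) (L : Type) [Field L]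
    [Algebra K L] [DecidableEq L] : Pt E₁ L ≃+ Pt E₂ L := AddEquiv.mk' (e.φ L) (e.add L)

theorem transpIso.nat' {E₁ E₂ : WeierstrassCurve K} (e : transpIso E₁ E₂) (L L' : Type) [Field L]
    [Algebra K L] [Field L'] [Algebra K L'] [DecidableEq L] [DecidableEq L'] (f : L →ₐ[K] L')
    (P : Pt E₁ L) : e.ad L' (Affine.Point.map f P) = Affine.Point.map f (e.ad L P) :=
  e.nat L L' f P

/-- the inverse -/
def transpIso.symm {E₁ E₂ : WeierstrassCurve K} (e : transpIso E₁ E₂) : transpIso E₂ E₁ where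
  φ L _ _ := (e.φ L).symm
  add L _ _ _ P Q := by
    rw [Equiv.symm_apply_eq, e.add, Equiv.apply_symm_apply, Equiv.apply_symm_apply]
  nat L L' _ _ _ _ _ _ f P := by
    rw [Equiv.symm_apply_eq, e.nat, Equiv.apply_symm_apply]

theorem transp_some {L : Type} [Field L] {W : Affine L} {x y x' y' : L} (h : W.Nonsingular x y)
    (h' : W.Nonsingular x' y') (hx : x = x') (hy : y = y') :
    (Affine.Point.some x y h : W.Point) = Affine.Point.some x' y' h' := by
  subst hx hy
  rfl

theorem transp_D (E : WeierstrassCurve K) (C : VariableChange K) (hE : (C • E).Δ ≠ 0) (L : Type)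
    [Field L] [Algebra K L] : ((C • E).map (algebraMap K L)).Δ ≠ 0 := by
  rw [WeierstrassCurve.map_Δ]
  exact (_root_.map_ne_zero _).2 hE

/-- the isomorphism attached to a change of variables -/
noncomputable def transp_chg (E : WeierstrassCurve K) (C : VariableChange K) (hE : (C • E).Δ ≠ 0) :
    transpIso (C • E) E where
  φ L _ _ := Equiv.ofBijective (((transp_VR E C).map (algebraMap K L)).fn (transp_D E C hE L))
    (((transp_VR E C).map (algebraMap K L)).fn_bij _)
  add L _ _ _ P Q := ((transp_VR E C).map (algebraMap K L)).fn_add (transp_D E C hE L) P Q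
  nat L L' _ _ _ _ _ _ f P := by
    rcases P with _ | ⟨x, y, h⟩
    · rfl
    · have h1 : algebraMap K L' C.u ^ 2 * f x + algebraMap K L' C.r =
          f (algebraMap K L C.u ^ 2 * x + algebraMap K L C.r) := by
        simp only [map_add, map_mul, map_pow, AlgHom.commutes]
      have h2 : algebraMap K L' C.u ^ 3 * f y + algebraMap K L' C.u ^ 2 * algebraMap K L' C.s * f x +
            algebraMap K L' C.t =
          f (algebraMap K L C.u ^ 3 * y + algebraMap K L C.u ^ 2 * algebraMap K L C.s * x +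
            algebraMap K L C.t) := by
        simp only [map_add, map_mul, map_pow, AlgHom.commutes]
      exact transp_some (W := E.toAffine.baseChange L') _ _ h1 h2

open Classical in
theorem transp_loc {E₁ E₂ : WeierstrassCurve K} (e : transpIso E₁ E₂) (Kv : Type) [Field Kv]
    [Algebra K Kv] (c : Gal K → Pt E₁ (SeparableClosure K)) (h : LocTriv E₁ Kv c) :
    LocTriv E₂ Kv (fun σ => e.ad _ (c σ)) := by
  intro ι
  obtain ⟨Q, hQ⟩ := h ι
  refine ⟨e.ad _ Q, fun σ τ hστ => ?_⟩
  show Affine.Point.map ι (e.ad _ (c τ)) = _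
  rw [← e.nat', hQ σ τ hστ, map_sub, e.nat']

open Classical in
theorem transp_cob {E₁ E₂ : WeierstrassCurve K} (e : transpIso E₁ E₂)
    (A₁ : AddSubgroup (Pt E₁ (SeparableClosure K))) (A₂ : AddSubgroup (Pt E₂ (SeparableClosure K)))
    (hA : ∀ x ∈ A₁, e.ad _ x ∈ A₂) (c : Gal K → Pt E₁ (SeparableClosure K))
    (h : c ∈ coboundaries E₁ A₁) : (fun σ => e.ad _ (c σ)) ∈ coboundaries E₂ A₂ := by
  obtain ⟨T, hT, hc⟩ := h
  refine ⟨e.ad _ T, hA T hT, fun σ => ?_⟩
  show e.ad _ (c σ) = _
  rw [hc σ, map_sub, e.nat']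

end transp

section sel

variable {F : Type} [Field F] [DecidableEq (RatFunc F)]

open Classical in
theorem transp_sel {E₁ E₂ : WeierstrassCurve (RatFunc F)} (e : transpIso E₁ E₂)
    (A₁ : AddSubgroup (Pt E₁ (SeparableClosure (RatFunc F))))
    (A₂ : AddSubgroup (Pt E₂ (SeparableClosure (RatFunc F))))
    (hA : ∀ x ∈ A₁, e.ad _ x ∈ A₂) (c : Gal (RatFunc F) → Pt E₁ (SeparableClosure (RatFunc F)))
    (h : c ∈ selCocycles E₁ A₁) : (fun σ => e.ad _ (c σ)) ∈ selCocycles E₂ A₂ := by
  obtain ⟨h1, h2, h3, h4, h5⟩ := h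
  refine ⟨fun σ => hA _ (h1 σ), fun σ τ => ?_, h3.comp _, fun v => transp_loc e _ c (h4 v),
    transp_loc e _ c h5⟩
  show e.ad _ (c (σ * τ)) = e.ad _ (c σ) + Affine.Point.map σ.toAlgHom (e.ad _ (c τ))
  rw [h2 σ τ, map_add, e.nat']

open Classical in
/-- the isomorphism of the groups of cocycles -/
noncomputable def transp_selEquiv {E₁ E₂ : WeierstrassCurve (RatFunc F)} (e : transpIso E₁ E₂)
    (A₁ : AddSubgroup (Pt E₁ (SeparableClosure (RatFunc F))))
    (A₂ : AddSubgroup (Pt E₂ (SeparableClosure (RatFunc F))))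
    (hA : ∀ x ∈ A₁, e.ad _ x ∈ A₂) (hA' : ∀ x ∈ A₂, e.symm.ad _ x ∈ A₁) :
    selCocycles E₁ A₁ ≃+ selCocycles E₂ A₂ where
  toFun c := ⟨fun σ => e.ad _ (c.1 σ), transp_sel e A₁ A₂ hA c.1 c.2⟩
  invFun c := ⟨fun σ => e.symm.ad _ (c.1 σ), transp_sel e.symm A₂ A₁ hA' c.1 c.2⟩
  left_inv c := by
    apply Subtype.ext
    funext σ
    exact (e.ad _).symm_apply_apply (c.1 σ)
  right_inv c := by
    apply Subtype.ext
    funext σ
    exact (e.ad _).apply_symm_apply (c.1 σ)
  map_add' c c' := by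
    apply Subtype.ext
    funext σ
    exact map_add (e.ad _) (c.1 σ) (c'.1 σ)

open Classical in
theorem transp_main {E₁ E₂ : WeierstrassCurve (RatFunc F)} (e : transpIso E₁ E₂)
    (A₁ : AddSubgroup (Pt E₁ (SeparableClosure (RatFunc F))))
    (A₂ : AddSubgroup (Pt E₂ (SeparableClosure (RatFunc F))))
    (hA : ∀ x ∈ A₁, e.ad _ x ∈ A₂) (hA' : ∀ x ∈ A₂, e.symm.ad _ x ∈ A₁) :
    Nonempty (SelmerGroup E₁ A₁ ≃+ SelmerGroup E₂ A₂) := by
  refine ⟨QuotientAddGroup.congr _ _ (transp_selEquiv e A₁ A₂ hA hA') ?_⟩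
  ext y
  constructor
  · rintro ⟨x, hx, rfl⟩
    exact transp_cob e A₁ A₂ hA x.1 hx
  · intro hy
    refine ⟨(transp_selEquiv e A₁ A₂ hA hA').symm y, ?_, ?_⟩
    · exact transp_cob e.symm A₂ A₁ hA' y.1 hy
    · exact (transp_selEquiv e A₁ A₂ hA hA').apply_symm_apply y

open Classical in
theorem transp_tors {E₁ E₂ : WeierstrassCurve (RatFunc F)} (e : transpIso E₁ E₂) (n : ℕ) :
    ∀ x ∈ torsionPts E₁ n, e.ad _ x ∈ torsionPts E₂ n := by
  intro x hx
  have h1 : n • x = 0 := hx
  show n • (e.ad _ x) = 0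
  rw [← map_nsmul, h1, map_zero]

open Classical in
theorem transp_prim {E₁ E₂ : WeierstrassCurve (RatFunc F)} (e : transpIso E₁ E₂) (n : ℕ) :
    ∀ x ∈ primaryPts E₁ n, e.ad _ x ∈ primaryPts E₂ n := by
  rintro x ⟨k, hk⟩
  refine ⟨k, ?_⟩
  rw [← map_nsmul, hk, map_zero]

end sel

theorem t_transp : S_transp := by
  intro F _ _ E C hE n
  have hC : (C • E).Δ ≠ 0 := by
    rw [variableChange_Δ]
    exact mul_ne_zero (pow_ne_zero _ (Units.ne_zero _)) hE
  exact ⟨transp_main (transp_chg E C hC) _ _ (transp_tors _ n) (transp_tors _ n),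
    transp_main (transp_chg E C hC) _ _ (transp_prim _ n) (transp_prim _ n)⟩

end Pool.Agent.H456.Coh
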