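import Pool.Agent.H456.Coh.Stm

/-!
(C2), (C3). `S_vinj`: cases; `(1,0,0)` and `(x,1,2y)` are not proportional; `(x,1,2y) ~ (x',1,2y')` gives `k = 1`, `x = x'`, `2y = 2y'`. `S_vsurj`: `(zp f).1 = ⟨0, 4, 4a, 4b, 4c⟩`, so `ev u v = 4 v (u³ + a u² v + b u v² + c v³)`; for
`(x, y)` on the curve `(2y)² = 4 f(x)`. Conversely for `v = 0`: `z = 0`, `Q = 0`, `k = u`. For `v ≠ 0`: `x = u/v`, `y = z/(2 v²)`; the point `(x, y)` is nonsingular because the discriminant is nonzero (`crv_Δ`, `WeierstrassCurve.Affine.equation_iff_nonsingular_of_Δ_ne_zero`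
or similar; `(E.map φ).Δ = φ E.Δ`).
-/

set_option autoImplicit false
set_option linter.all false

open Polynomial WeierstrassCurve IsDedekindDomain
open Pool.Agent.H456.BQ
open Pool.Agent.H456.EC (toK toK_inj sig toK_eq reflect_toK)

namespace Pool.Agent.H456.Coh

section vec_aux

variable {K L : Type} [Field K] [Field L] [Algebra K L]

theorem vec_crv (f : Cub K) : (crv f).toAffine.baseChange L = crv (fL f L) := by
  ext <;> simp [crv, Cub.map]

theorem vec_two (h2 : (2 : K) ≠ 0) : (2 : L) ≠ 0 := by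
  intro h
  apply h2
  apply (algebraMap K L).injective
  rw [map_ofNat, map_zero]
  exact h

theorem vec_disc {f : Cub K} (hf : f.disc ≠ 0) : (fL f L).disc ≠ 0 := by
  have h : (fL f L).disc = algebraMap K L f.disc := by
    simp only [Cub.disc, Cub.map, map_add, map_sub, map_mul, map_pow, map_ofNat]
  rw [h]
  exact (map_ne_zero_iff _ (algebraMap K L).injective).2 hf

theorem vec_eqn {f : Cub K} {x y : L} (h : ((crv f).toAffine.baseChange L).Equation x y) :
    y ^ 2 = (fL f L).ev x := by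
  rw [vec_crv] at h
  exact eqn_iff.1 h

theorem vec_ns (h2 : (2 : K) ≠ 0) {f : Cub K} (hf : f.disc ≠ 0) {x y : L} (h : y ^ 2 = (fL f L).ev x) :
    ((crv f).toAffine.baseChange L).Nonsingular x y := by
  rw [vec_crv]
  exact ns_of (vec_disc hf) (vec_two h2) h

theorem vec_inj (h2 : (2 : K) ≠ 0) (f : Cub K) (P Q : Pt (crv f) L) (h : Rel3 (vec P) (vec Q)) : P = Q := by
  have h2' : (2 : L) ≠ 0 := vec_two h2
  obtain ⟨k, hk, h⟩ := h
  rcases P with _ | ⟨x, y, hP⟩ <;> rcases Q with _ | ⟨x', y', hQ⟩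
  · rfl
  · simp [vec] at h
  · simp only [vec, Prod.mk.injEq, mul_one] at h
    exact absurd h.2.1.symm hk
  · simp only [vec, Prod.mk.injEq, mul_one] at h
    obtain ⟨e1, e2, e3⟩ := h
    subst e2
    rw [one_mul] at e1
    rw [one_pow, one_mul] at e3
    have e4 := mul_left_cancel₀ h2' e3
    subst e1
    subst e4
    rfl

theorem vec_surj (h2 : (2 : K) ≠ 0) (f : Cub K) (hf : f.disc ≠ 0) :
    (∀ Q : Pt (crv f) L, ¬ ((vec Q).1 = 0 ∧ (vec Q).2.1 = 0) ∧
      (vec Q).2.2 ^ 2 = (zp (fL f L)).1.ev (vec Q).1 (vec Q).2.1) ∧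
    ∀ u v z : L, ¬ (u = 0 ∧ v = 0) → z ^ 2 = (zp (fL f L)).1.ev u v →
      ∃ Q : Pt (crv f) L, Rel3 (vec Q) (u, v, z) := by
  have h2' : (2 : L) ≠ 0 := vec_two h2
  refine ⟨fun Q => ?_, fun u v z huv hz => ?_⟩
  · rcases Q with _ | ⟨x, y, hQ⟩
    · refine ⟨fun h => one_ne_zero h.1, ?_⟩
      simp only [vec, zp, Q4.ev]
      ring
    · refine ⟨fun h => one_ne_zero h.2, ?_⟩
      have h := vec_eqn hQ.1
      simp only [vec, zp, Q4.ev]
      simp only [Cub.ev] at h
      linear_combination 4 * h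
  · by_cases hv : v = 0
    · subst hv
      have hu : u ≠ 0 := fun h => huv ⟨h, rfl⟩
      have hz0 : z = 0 := by
        simp only [zp, Q4.ev] at hz
        have : z ^ 2 = 0 := by rw [hz]; ring
        exact pow_eq_zero_iff (two_ne_zero) |>.1 this
      subst hz0
      exact ⟨.zero, u, hu, by simp [vec]⟩
    · have h : (z / (2 * v ^ 2)) ^ 2 = (fL f L).ev (u / v) := by
        simp only [zp, Q4.ev] at hz
        simp only [Cub.ev]
        field_simp
        linear_combination hz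
      refine ⟨.some (u / v) (z / (2 * v ^ 2)) (vec_ns h2 hf h), v, hv, ?_⟩
      simp only [vec, Prod.mk.injEq]
      refine ⟨?_, ?_, ?_⟩ <;> field_simp

end vec_aux

theorem t_vec : S_vinj ∧ S_vsurj := by
  refine ⟨?_, ?_⟩
  · intro K L _ _ _ h2 f P Q h
    exact vec_inj h2 f P Q h
  · intro K L _ _ _ h2 f hf
    exact vec_surj h2 f hf

end Pool.Agent.H456.Coh
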