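import Pool.Agent.H456.Coh.Fin
import Pool.Agent.H456.Coh.T_base
import Pool.Agent.H456.Coh.T_basis
import Pool.Agent.H456.Coh.T_coh
import Pool.Agent.H456.Coh.T_coord
import Pool.Agent.H456.Coh.T_ctrl
import Pool.Agent.H456.Coh.T_desc
import Pool.Agent.H456.Coh.T_div
import Pool.Agent.H456.Coh.T_exc
import Pool.Agent.H456.Coh.T_hasse
import Pool.Agent.H456.Coh.T_iso
import Pool.Agent.H456.Coh.T_loc
import Pool.Agent.H456.Coh.T_mmul
import Pool.Agent.H456.Coh.T_mstab
import Pool.Agent.H456.Coh.T_nil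
import Pool.Agent.H456.Coh.T_tr
import Pool.Agent.H456.Coh.T_transp
import Pool.Agent.H456.Coh.T_vec
import Pool.Agent.H456.BQ.SAll

/-!
# All the hypotheses are proved
-/

set_option autoImplicit false
set_option linter.all false

open Polynomial WeierstrassCurve IsDedekindDomain Finset Filter
open Pool.Agent.H456.BQ Pool.Agent.H456.RN
open Pool.Agent.H456.EC

namespace Pool.Agent.H456.Coh

theorem a_mmul : S_mmul ∧ S_minj := t_mmul t_tr t_vec.1 t_vec.2 t_mstab.1 t_mstab.2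

theorem a_coh : S_coh1 ∧ S_coh2 := t_coh t_mstab.1 t_mstab.2 a_mmul.1 a_mmul.2

theorem a_loc : S_loc1 ∧ S_loc2 := t_loc12 t_tr t_vec.1 t_vec.2 a_mmul.1 a_mmul.2

theorem a_iso : S_iso := t_iso t_tr t_vec.1 t_mstab.1 a_mmul.1

theorem hypC_all : HypC where
  exc := t_exc t_base t_mstab.1 t_mstab.2 a_mmul.1 a_mmul.2
  coh1 := a_coh.1
  coh2 := a_coh.2
  loc1 := a_loc.1
  loc2 := a_loc.2
  basis := t_basis t_desc t_mstab.1 a_mmul.1
  coef := (t_coord a_iso).1
  coord := (t_coord a_iso).2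
  hasse := t_hasse
  nil := t_nil t_mstab.1

theorem ctrl_all : S_ctrl := t_ctrl t_div

end Pool.Agent.H456.Coh
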