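import Pool.Agent.H456.Coh.Stm
import Pool.Agent.H456.BQ.SLoc

/-!
# The 2-Selmer group has the order of the set of classes of locally soluble binary quartics
-/

set_option autoImplicit false
set_option linter.all false

open Polynomial WeierstrassCurve IsDedekindDomain
open Pool.Agent.H456.BQ
open Pool.Agent.H456.EC (toK toK_inj sig toK_eq reflect_toK)

namespace Pool.Agent.H456.Coh

/-- the statements used -/
structure HypC : Prop where
  exc : S_exc
  coh1 : S_coh1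
  coh2 : S_coh2
  loc1 : S_loc1
  loc2 : S_loc2
  basis : S_basis
  coef : S_coef
  coord : S_coord
  hasse : S_hasse
  nil : S_nil

section

variable {K : Type} [Field K]

theorem lin3_mul {L : Type} [Field L] (x y z : L) (X Y Z m : M2 L) :
    (lin3 x y z X Y Z).mul m = lin3 x y z (X.mul m) (Y.mul m) (Z.mul m) := by
  ext <;> simp only [lin3, M2.mul] <;> ring

theorem mul_lin3 {L : Type} [Field L] (x y z : L) (X Y Z m : M2 L) :
    m.mul (lin3 x y z X Y Z) = lin3 x y z (m.mul X) (m.mul Y) (m.mul Z) := by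
  ext <;> simp only [lin3, M2.mul] <;> ring

theorem lin3_map {L L' : Type} [Field L] [Field L'] (φ : L →+* L') (x y z : L) (X Y Z : M2 L) :
    (lin3 x y z X Y Z).map φ = lin3 (φ x) (φ y) (φ z) (X.map φ) (Y.map φ) (Z.map φ) := by
  ext <;> simp only [lin3, M2.map, map_add, map_mul]

theorem Tw.lin {f : Cub K} {c : Gal K → Pt (crv f) (SeparableClosure K)} {X Y Z : M2 (SeparableClosure K)}
    (hX : Tw f c X) (hY : Tw f c Y) (hZ : Tw f c Z) (x y z : K) :
    Tw f c (lin3 (algebraMap K _ x) (algebraMap K _ y) (algebraMap K _ z) X Y Z) := by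
  obtain ⟨h1, h1'⟩ := hX
  obtain ⟨h2, h2'⟩ := hY
  obtain ⟨h3, h3'⟩ := hZ
  refine ⟨?_, fun σ => ?_⟩
  · simp only [lin3, h1, h2, h3]; ring
  · have hs : ∀ t : K, (σ.toAlgHom : SeparableClosure K →+* SeparableClosure K) (algebraMap K _ t) = algebraMap K _ t :=
      fun t => σ.toAlgHom.commutes t
    rw [lin3_map, lin3_mul, mul_lin3, h1' σ, h2' σ, h3' σ, hs, hs, hs]

theorem lin3_ne {L : Type} [Field L] {X Y Z : M2 L} (h : dt X Y Z ≠ 0) {x y z : L} (hn : ¬ (x = 0 ∧ y = 0 ∧ z = 0)) :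
    lin3 x y z X Y Z ≠ ⟨0, 0, 0, 0⟩ := by
  intro h0
  apply hn
  have a1 := congrArg M2.α h0
  have a2 := congrArg M2.β h0
  have a3 := congrArg M2.γ h0
  simp only [lin3] at a1 a2 a3
  have b1 : x * dt X Y Z = 0 := by
    simp only [dt]
    linear_combination (Y.β * Z.γ - Y.γ * Z.β) * a1 - (Y.α * Z.γ - Y.γ * Z.α) * a2 + (Y.α * Z.β - Y.β * Z.α) * a3
  have b2 : y * dt X Y Z = 0 := by
    simp only [dt]
    linear_combination -(X.β * Z.γ - X.γ * Z.β) * a1 + (X.α * Z.γ - X.γ * Z.α) * a2 - (X.α * Z.β - X.β * Z.α) * a3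
  have b3 : z * dt X Y Z = 0 := by
    simp only [dt]
    linear_combination (X.β * Y.γ - X.γ * Y.β) * a1 - (X.α * Y.γ - X.γ * Y.α) * a2 + (X.α * Y.β - X.β * Y.α) * a3
  exact ⟨(mul_eq_zero.1 b1).resolve_right h, (mul_eq_zero.1 b2).resolve_right h, (mul_eq_zero.1 b3).resolve_right h⟩

theorem TF.map_ev {R S : Type} [CommRing R] [CommRing S] (φ : R →+* S) (q : TF R) (x y z : R) :
    (q.map φ).ev (φ x) (φ y) (φ z) = φ (q.ev x y z) := by
  simp only [TF.ev, TF.map, map_add, map_mul, map_pow]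

end

variable {F : Type} [Field F] [DecidableEq (RatFunc F)]

theorem isCoc {f : Cub (RatFunc F)} {c : Gal (RatFunc F) → Pt (crv f) (SeparableClosure (RatFunc F))}
    (hc : c ∈ selCocycles (crv f) (torsionPts (crv f) 2)) : IsCoc f c :=
  ⟨fun σ => hc.1 σ, hc.2.1, hc.2.2.1⟩

theorem sel_disc (h2 : (2 : F) ≠ 0) {f : Cub (RatFunc F)} (hf : f.disc ≠ 0) {s : Q4 (RatFunc F) × RatFunc F}
    (hs : s.1.res = (f.sc 4).tr s.2) : s.1.res.disc ≠ 0 := by
  have h2' : (2 : RatFunc F) ≠ 0 := two_ne h2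
  have h4 : (4 : RatFunc F) ≠ 0 := by
    have : (4 : RatFunc F) = 2 ^ 2 := by norm_num
    rw [this]; exact pow_ne_zero _ h2'
  rw [hs, Cub.disc_tr, Cub.disc_sc]
  exact mul_ne_zero (pow_ne_zero _ h4) hf

/-- every locally trivial cocycle is attached to a locally soluble pair -/
theorem exists_pair [Finite F] (H : HypC) (h2 : (2 : F) ≠ 0) {f : Cub (RatFunc F)} (hf : f.disc ≠ 0)
    {c : Gal (RatFunc F) → Pt (crv f) (SeparableClosure (RatFunc F))}
    (hc : c ∈ selCocycles (crv f) (torsionPts (crv f) 2)) : ∃ s : Q4 (RatFunc F) × RatFunc F, IsSel f s ∧ Assoc f c s := by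
  have h2' : (2 : RatFunc F) ≠ 0 := two_ne h2
  have hco := isCoc hc
  obtain ⟨X, Y, Z, hX, hY, hZ, hdt⟩ := H.basis (RatFunc F) h2' f hf c hco
  obtain ⟨q, hq⟩ := H.coef (RatFunc F) h2' f hf c hco X Y Z hX hY hZ
  obtain ⟨x, y, z, hne, h0⟩ := H.hasse F h2 q (fun v =>
    H.coord (RatFunc F) (v.adicCompletion (RatFunc F)) h2' f hf c hco (hc.2.2.2.1 v) X Y Z hX hY hZ hdt q hq)
  have hdet : (lin3 (algebraMap (RatFunc F) (SeparableClosure (RatFunc F)) x) (algebraMap _ _ y) (algebraMap _ _ z) X Y Z).det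
      = 0 := by
    rw [hq, TF.map_ev, h0, map_zero]
  have hne' : ¬ (algebraMap (RatFunc F) (SeparableClosure (RatFunc F)) x = 0 ∧
      algebraMap (RatFunc F) (SeparableClosure (RatFunc F)) y = 0 ∧
      algebraMap (RatFunc F) (SeparableClosure (RatFunc F)) z = 0) := by
    intro h
    apply hne
    have hi := (algebraMap (RatFunc F) (SeparableClosure (RatFunc F))).injective
    exact ⟨(map_eq_zero_iff _ hi).1 h.1, (map_eq_zero_iff _ hi).1 h.2.1, (map_eq_zero_iff _ hi).1 h.2.2⟩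
  obtain ⟨s, hs, hA⟩ := H.nil (RatFunc F) h2' f hf c hco X Y Z _ hX hY hZ hdt (hX.lin hY hZ x y z) (lin3_ne hdt hne') hdet
  have hd := sel_disc h2 hf hs
  refine ⟨s, ⟨hs, fun P => ?_, ?_⟩, hA⟩
  · rw [LS_iff h2 hd]
    exact H.loc2 _ _ h2' f hf c hco s hA (hc.2.2.2.1 (plv P))
  · rw [LSI_iff h2 hd]
    exact H.loc2 _ _ h2' f hf c hco s hA hc.2.2.2.2

/-- every locally soluble pair has a locally trivial cocycle -/
theorem exists_cocycle [Finite F] (H : HypC) (h2 : (2 : F) ≠ 0) {f : Cub (RatFunc F)} (hf : f.disc ≠ 0)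
    {s : Q4 (RatFunc F) × RatFunc F} (hs : IsSel f s) :
    ∃ c ∈ selCocycles (crv f) (torsionPts (crv f) 2), Assoc f c s := by
  have h2' : (2 : RatFunc F) ≠ 0 := two_ne h2
  obtain ⟨c, hc, hA⟩ := H.exc (RatFunc F) h2' f hf s hs.res
  have hd := sel_disc h2 hf hs.res
  refine ⟨c, ⟨fun σ => hc.tors σ, hc.mul, hc.cont, fun v => ?_, ?_⟩, hA⟩
  · obtain ⟨P, rfl⟩ := exists_plv v
    exact H.loc1 _ _ h2' f hf c hc s hA ((LS_iff h2 hd P).1 (hs.fin P))
  · exact H.loc1 _ _ h2' f hf c hc s hA ((LSI_iff h2 hd).1 hs.inf)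

open Classical in
/-- **the order of the 2-Selmer group is the number of classes of locally soluble binary quartics** -/
theorem equiv_selmer [Finite F] (H : HypC) (h2 : (2 : F) ≠ 0) {f : Cub (RatFunc F)} (hf : f.disc ≠ 0) :
    Nonempty (SelmerGroup (crv f) (torsionPts (crv f) 2) ≃ Sel f) := by
  have h2' : (2 : RatFunc F) ≠ 0 := two_ne h2
  let pr : selCocycles (crv f) (torsionPts (crv f) 2) → Sel f := fun c =>
    selMk f (exists_pair H h2 hf c.2).choose (exists_pair H h2 hf c.2).choose_spec.1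
  have hpr : ∀ c : selCocycles (crv f) (torsionPts (crv f) 2), ∃ (s : Q4 (RatFunc F) × RatFunc F) (hs : IsSel f s),
      Assoc f c.1 s ∧ pr c = selMk f s hs := fun c =>
    ⟨_, (exists_pair H h2 hf c.2).choose_spec.1, (exists_pair H h2 hf c.2).choose_spec.2, rfl⟩
  have hrel : ∀ c c' : selCocycles (crv f) (torsionPts (crv f) 2),
      (QuotientAddGroup.leftRel ((coboundaries (crv f) (torsionPts (crv f) 2)).addSubgroupOf
        (selCocycles (crv f) (torsionPts (crv f) 2)))).r c c' ↔ ∃ T : Pt (crv f) (SeparableClosure (RatFunc F)), 2 • T = 0 ∧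
          ∀ σ, c'.1 σ = c.1 σ + (Affine.Point.map σ.toAlgHom T - T) := by
    intro c c'
    change QuotientAddGroup.leftRel _ c c' ↔ _
    rw [QuotientAddGroup.leftRel_apply, AddSubgroup.mem_addSubgroupOf]
    constructor
    · rintro ⟨T, hT, h⟩
      refine ⟨T, hT, fun σ => ?_⟩
      rw [← h σ]
      simp
    · rintro ⟨T, hT, h⟩
      refine ⟨T, hT, fun σ => ?_⟩
      simp only [AddSubgroup.coe_add, NegMemClass.coe_neg, Pi.add_apply, Pi.neg_apply]
      rw [h σ]
      abel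
  have hcompat : ∀ c c' : selCocycles (crv f) (torsionPts (crv f) 2), (∃ T : Pt (crv f) (SeparableClosure (RatFunc F)),
      2 • T = 0 ∧ ∀ σ, c'.1 σ = c.1 σ + (Affine.Point.map σ.toAlgHom T - T)) ↔ pr c = pr c' := by
    intro c c'
    obtain ⟨s, hs, hA, e⟩ := hpr c
    obtain ⟨s', hs', hA', e'⟩ := hpr c'
    rw [e, e', selMk_eq]
    constructor
    · rintro ⟨T, hT, h⟩
      exact H.coh2 _ h2' f hf c.1 c'.1 (isCoc c.2) (isCoc c'.2) s s' hA hA' T hT h
    · intro h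
      exact H.coh1 _ h2' f hf c.1 c'.1 (isCoc c.2) (isCoc c'.2) s s' hA hA' h
  let Φ : SelmerGroup (crv f) (torsionPts (crv f) 2) → Sel f :=
    Quotient.lift pr (fun c c' h => (hcompat c c').1 ((hrel c c').1 h))
  refine ⟨Equiv.ofBijective Φ ⟨?_, ?_⟩⟩
  · intro x y
    refine Quotient.inductionOn₂ x y ?_
    intro c c' h
    exact Quotient.sound ((hrel c c').2 ((hcompat c c').2 h))
  · intro x
    obtain ⟨s, hs, rfl⟩ := sel_ind x
    obtain ⟨c, hc, hA⟩ := exists_cocycle H h2 hf hs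
    refine ⟨Quotient.mk _ ⟨c, hc⟩, ?_⟩
    change pr ⟨c, hc⟩ = selMk f s hs
    obtain ⟨s', hs', hA', e⟩ := hpr ⟨c, hc⟩
    rw [e, selMk_eq]
    exact H.coh2 _ h2' f hf c c (isCoc hc) (isCoc hc) s' s hA' hA 0 (smul_zero _) (fun σ => by simp)

end Pool.Agent.H456.Coh
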