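import Mathlib

/-!
# Selmer groups of elliptic curves over `F(t)`, by Galois cocycles

`K` is a field, `Ks = SeparableClosure K` and `G = Ks ≃ₐ[K] Ks` is the absolute Galois group with its Krull topology.
-/

set_option autoImplicit false

open Polynomial WeierstrassCurve IsDedekindDomain

namespace Pool.Agent.H456.Coh

section

variable {K : Type} [Field K]

/-- the group `E(L)` for an extension `L` of `K` -/
abbrev Pt (E : WeierstrassCurve K) (L : Type) [Field L] [Algebra K L] : Type := (E.toAffine.baseChange L).Point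

/-- the absolute Galois group of `K` -/
abbrev Gal (K : Type) [Field K] : Type := SeparableClosure K ≃ₐ[K] SeparableClosure K

open Classical in
/-- the class of the cocycle `c` has a trivial restriction to `H¹(Kᵥ, E)`: for every embedding `ι` of the separable
closures there is a point `Q` of `E` over the separable closure of `Kᵥ` such that `c` restricts to `σ ↦ σ Q - Q` -/
def LocTriv (E : WeierstrassCurve K) (Kv : Type) [Field Kv] [Algebra K Kv] (c : Gal K → Pt E (SeparableClosure K)) : Prop :=
  ∀ ι : SeparableClosure K →ₐ[K] SeparableClosure Kv, ∃ Q : Pt E (SeparableClosure Kv),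
    ∀ (σ : Gal Kv) (τ : Gal K), (∀ x, ι (τ x) = σ (ι x)) →
      Affine.Point.map ι (c τ) = Affine.Point.map (σ.toAlgHom.restrictScalars K) Q - Q

end

section

variable {F : Type} [Field F] [DecidableEq (RatFunc F)]

open Classical in
/-- the group of the continuous cocycles with values in the group `A` of points of `E` over the separable closure of
`K = F(t)`, whose classes have trivial restrictions to `H¹(Kᵥ, E)` for all places `v` of `K` -/
def selCocycles (E : WeierstrassCurve (RatFunc F)) (A : AddSubgroup (Pt E (SeparableClosure (RatFunc F)))) :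
    AddSubgroup (Gal (RatFunc F) → Pt E (SeparableClosure (RatFunc F))) where
  carrier := {c | (∀ σ, c σ ∈ A) ∧ (∀ σ τ, c (σ * τ) = c σ + Affine.Point.map σ.toAlgHom (c τ)) ∧
    IsLocallyConstant c ∧
    (∀ v : HeightOneSpectrum F[X], LocTriv E (v.adicCompletion (RatFunc F)) c) ∧
    LocTriv E (RatFunc.CompletionAtInfty F) c}
  zero_mem' := by
    refine ⟨fun σ => A.zero_mem, fun σ τ => by simp, IsLocallyConstant.const 0, fun v ι => ⟨0, fun σ τ _ => by simp⟩,
      fun ι => ⟨0, fun σ τ _ => by simp⟩⟩
  add_mem' := by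
    rintro c c' ⟨h1, h2, h3, h4, h5⟩ ⟨h1', h2', h3', h4', h5'⟩
    refine ⟨fun σ => A.add_mem (h1 σ) (h1' σ), fun σ τ => ?_, h3.add h3', fun v ι => ?_, fun ι => ?_⟩
    · simp only [Pi.add_apply, h2 σ τ, h2' σ τ, map_add]; abel
    · obtain ⟨Q, hQ⟩ := h4 v ι
      obtain ⟨Q', hQ'⟩ := h4' v ι
      refine ⟨Q + Q', fun σ τ h => ?_⟩
      simp only [Pi.add_apply, map_add, hQ σ τ h, hQ' σ τ h]; abel
    · obtain ⟨Q, hQ⟩ := h5 ι
      obtain ⟨Q', hQ'⟩ := h5' ι
      refine ⟨Q + Q', fun σ τ h => ?_⟩
      simp only [Pi.add_apply, map_add, hQ σ τ h, hQ' σ τ h]; abel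
  neg_mem' := by
    rintro c ⟨h1, h2, h3, h4, h5⟩
    refine ⟨fun σ => A.neg_mem (h1 σ), fun σ τ => ?_, h3.neg, fun v ι => ?_, fun ι => ?_⟩
    · simp only [Pi.neg_apply, h2 σ τ, map_neg]; abel
    · obtain ⟨Q, hQ⟩ := h4 v ι
      refine ⟨-Q, fun σ τ h => ?_⟩
      simp only [Pi.neg_apply, map_neg, hQ σ τ h]; abel
    · obtain ⟨Q, hQ⟩ := h5 ι
      refine ⟨-Q, fun σ τ h => ?_⟩
      simp only [Pi.neg_apply, map_neg, hQ σ τ h]; abel

end

section

variable {K : Type} [Field K]

open Classical in
/-- the coboundaries `σ ↦ σ T - T` of the points `T ∈ A` -/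
def coboundaries (E : WeierstrassCurve K) (A : AddSubgroup (Pt E (SeparableClosure K))) :
    AddSubgroup (Gal K → Pt E (SeparableClosure K)) where
  carrier := {c | ∃ T ∈ A, ∀ σ, c σ = Affine.Point.map σ.toAlgHom T - T}
  zero_mem' := ⟨0, A.zero_mem, fun σ => by simp⟩
  add_mem' := by
    rintro c c' ⟨T, hT, h⟩ ⟨T', hT', h'⟩
    refine ⟨T + T', A.add_mem hT hT', fun σ => ?_⟩
    simp only [Pi.add_apply, h, h', map_add]; abel
  neg_mem' := by
    rintro c ⟨T, hT, h⟩
    refine ⟨-T, A.neg_mem hT, fun σ => ?_⟩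
    simp only [Pi.neg_apply, h, map_neg]; abel

open Classical in
/-- the group `E[n]` of the points killed by `n` over the separable closure -/
noncomputable def torsionPts (E : WeierstrassCurve K) (n : ℕ) : AddSubgroup (Pt E (SeparableClosure K)) :=
  (nsmulAddMonoidHom n).ker

open Classical in
/-- the group `E[p^∞]` of the points killed by a power of `p` over the separable closure -/
noncomputable def primaryPts (E : WeierstrassCurve K) (p : ℕ) : AddSubgroup (Pt E (SeparableClosure K)) where
  carrier := {T | ∃ k : ℕ, p ^ k • T = 0}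
  zero_mem' := ⟨0, smul_zero _⟩
  add_mem' := by
    rintro T T' ⟨k, h⟩ ⟨k', h'⟩
    refine ⟨k + k', ?_⟩
    have e1 : p ^ (k + k') • T = 0 := by rw [pow_add, mul_comm, mul_smul, h, smul_zero]
    have e2 : p ^ (k + k') • T' = 0 := by rw [pow_add, mul_smul, h', smul_zero]
    rw [smul_add, e1, e2, add_zero]
  neg_mem' := by
    rintro T ⟨k, h⟩
    exact ⟨k, by rw [smul_neg, h, neg_zero]⟩

end

section

variable {F : Type} [Field F] [DecidableEq (RatFunc F)]

open Classical in
/-- the Selmer group of `E` over `K = F(t)` with coefficients in the Galois module `A` of points of `E` -/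
def SelmerGroup (E : WeierstrassCurve (RatFunc F)) (A : AddSubgroup (Pt E (SeparableClosure (RatFunc F)))) : Type :=
  selCocycles E A ⧸ (coboundaries E A).addSubgroupOf (selCocycles E A)

open Classical in
noncomputable instance (E : WeierstrassCurve (RatFunc F)) (A : AddSubgroup (Pt E (SeparableClosure (RatFunc F)))) :
    AddCommGroup (SelmerGroup E A) :=
  QuotientAddGroup.Quotient.addCommGroup _

end

end Pool.Agent.H456.Coh
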