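import Pool.Agent.H456.Coh.All
import Pool.Agent.H456.BQ.XFam

/-!
# The averages over the families given by finitely many congruence conditions
-/

set_option autoImplicit false
set_option linter.all false

open Polynomial WeierstrassCurve IsDedekindDomain Finset Filter
open Pool.Agent.H456.BQ Pool.Agent.H456.RN
open Pool.Agent.H456.EC

namespace Pool.Agent.H456.Coh

variable {F : Type} [Field F] [Fintype F]

theorem exists_Msh (h2 : (2 : F) ≠ 0) {d : ℕ} {κ : KC F} (hκ : κ ∈ CL F d) :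
    ∃ n, ∃ f ∈ Msh F n, cls (crv f) = κ := by
  classical
  unfold CL at hκ
  rw [mem_biUnion] at hκ
  obtain ⟨e, he, h1⟩ := hκ
  obtain ⟨W, hW, rfl⟩ := mem_image.1 h1
  rw [mem_OmF] at hW
  obtain ⟨f, s, t, c1, c4, c5, rfl⟩ := lng_surj h2 hW.1
  refine ⟨e, f, ?_, ?_⟩
  · rw [mem_Msh]
    refine ⟨c1, ?_, (minAll_lng c1 c4 c5).1 hW.2.1⟩
    have h3 := smul_mem (tr_mem_Gp (s := -s) (t := -t) (by rwa [natDegree_neg]) (by rwa [natDegree_neg])) hW.1
    rw [lng_back] at h3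
    exact ((crv_mem h2).1 h3).1
  · have h4 : cls (lng (f, s, t)) = cls (crv f) := cls_tr
    exact h4.symm

open Classical in
/-- **the average of the orders of the 2-Selmer sets over the family `U`** -/
theorem fam_sel (U : HypU) (L : HypL) (hav : S_avc) (hcd : S_cardc) (hcl : S_clsC) (hlo : S_clsL) (hps : S_posc)
    (hcg : S_congr) (hb : S_badc) (hi : S_selinv) (h2 : (2 : F) ≠ 0) {Z : Set (KC F)}
    (hZ : IsCongr F Z) {d₀ : ℕ} {κ₀ : KC F} (hκ₀ : κ₀ ∈ CL F d₀) (hκZ : κ₀ ∈ Z) :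
    ∃ δ : ℝ, 0 < δ ∧ (∀ᶠ d in atTop, δ * (CL F d).card ≤ (((CL F d).filter (· ∈ Z)).card : ℝ)) ∧
    ∀ ε : ℝ, 0 < ε → ∀ᶠ d in atTop, |∑ κ ∈ (CL F d).filter (· ∈ Z), (selC κ : ℝ) -
      3 * ((CL F d).filter (· ∈ Z)).card| ≤ ε * (CL F d).card := by
  have hq2 : 2 ≤ (Fintype.card F : ℝ) := q_ge
  have hq0 : (0 : ℝ) < Fintype.card F := by linarith
  obtain ⟨S₀, m, n₀, T, hT, hc1, hc2⟩ := hcg F h2 Z hZ
  have hw : ∀ f : Cub F[X], f.disc ≠ 0 → |(selC (cls (crv f)) : ℝ) - 1| = (Nat.card (Sel (f.map (toK F))) : ℝ) - 1 := by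
    intro f hf
    rw [selC_crv hi h2]
    exact abs_of_nonneg (card_Sel_ge U h2 hf)
  have hd : ∀ n, ∀ f ∈ Msh F n, f.disc ≠ 0 := fun n f hf => (mem_Msh.1 hf).2.1
  have hiff : ∀ n ≥ n₀, ∀ f ∈ Msh F n, (cls (crv f) ∈ Z ↔ T (redC S₀ m n f)) := fun n hn f hf =>
    ⟨hc1 n f hf, hc2 n hn f hf⟩
  -- the positivity
  obtain ⟨n₁, f₁, hf₁, hk₁⟩ := exists_Msh h2 hκ₀
  have hpos : ∃ δ : ℝ, 0 < δ ∧ ∀ᶠ d in atTop, δ * (CL F d).card ≤ (((CL F d).filter (· ∈ Z)).card : ℝ) := by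
    obtain ⟨δ, hδ, h⟩ := hps F h2 m S₀ (cOf (redC S₀ m n₁ f₁)) (ciOf (redC S₀ m n₁ f₁)) (cOf_cnd _) (ciOf_cnd _)
      (cOf_true _) n₁ f₁ hf₁ ((Fam_iff _ n₁ f₁).2 ⟨0, (Cub.tr_zero _).symm⟩)
    have hT1 : T (redC S₀ m n₁ f₁) := hc1 n₁ f₁ hf₁ (by rw [hk₁]; exact hκZ)
    obtain ⟨δ', hδ', h'⟩ := hlo F h2 (fun κ => if κ ∈ Z then 1 else 0) (fun κ => by positivity) δ hδ (by
      filter_upwards [h, eventually_ge_atTop n₀] with n h3 h4
      refine h3.trans ?_
      rw [← sum_filter, sum_const, nsmul_eq_mul, mul_one]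
      have h5 : ((Msh F n).filter (fun f => Fam (cOf (redC S₀ m n₁ f₁)) (ciOf (redC S₀ m n₁ f₁)) n f)).card ≤
          ((Msh F n).filter (fun f => cls (crv f) ∈ Z)).card := by
        apply card_le_card
        intro f hf
        rw [mem_filter] at hf ⊢
        refine ⟨hf.1, hc2 n h4 f hf.1 ?_⟩
        obtain ⟨r, hr⟩ := (Fam_iff _ n f).1 hf.2
        rw [hr, hT]
        exact hT1
      exact_mod_cast h5)
    refine ⟨δ', hδ', ?_⟩
    filter_upwards [h'] with d h3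
    rwa [← sum_filter, sum_const, nsmul_eq_mul, mul_one] at h3
  obtain ⟨δ, hδ, hdens⟩ := hpos
  refine ⟨δ, hδ, hdens, fun ε hε => ?_⟩
  have hmain := hcl F h2 (fun κ => if κ ∈ Z then |(selC κ : ℝ) - 1| else 0) (fun κ => if κ ∈ Z then 2 else 0)
    (fun κ => by positivity) (fun κ => by positivity) ?_ ?_ ?_ (H3 h2) ε hε
  · filter_upwards [hmain] with d h1
    rw [← sum_filter, ← sum_filter, sum_const, nsmul_eq_mul] at h1
    have h3 : ∑ κ ∈ (CL F d).filter (· ∈ Z), |(selC κ : ℝ) - 1| =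
        ∑ κ ∈ (CL F d).filter (· ∈ Z), (selC κ : ℝ) - ((CL F d).filter (· ∈ Z)).card := by
      rw [sum_congr rfl (fun κ hκ => abs_of_nonneg (sub_nonneg.2 (selC_ge U hi h2 (mem_filter.1 hκ).1))),
        sum_sub_distrib, sum_const, nsmul_eq_mul, mul_one]
    rw [h3] at h1
    have h4 : ∑ κ ∈ (CL F d).filter (· ∈ Z), (selC κ : ℝ) - ((CL F d).filter (· ∈ Z)).card -
        ((CL F d).filter (· ∈ Z)).card * 2 =
      ∑ κ ∈ (CL F d).filter (· ∈ Z), (selC κ : ℝ) - 3 * ((CL F d).filter (· ∈ Z)).card := by ring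
    rwa [h4] at h1
  · intro ε hε
    filter_upwards [fam_limit U L hav hcd h2 T hT (ε / 2) (half_pos hε), hb F h2 (ε / 16) (by positivity), H3 (F := F) h2,
      eventually_ge_atTop n₀] with n h1 h3 h4 h5
    rw [← sum_filter, ← sum_filter, filter_filter, sum_const, nsmul_eq_mul]
    have e1 : (Msh F n).filter (fun f => ¬ BadC f ∧ cls (crv f) ∈ Z) =
        (Msh F n).filter (fun f => ¬ BadC f ∧ T (redC S₀ m n f)) := by
      apply filter_congr
      intro f hf
      rw [hiff n h5 f hf]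
    rw [e1, sum_congr rfl fun f hf => hw f (hd n f (mem_filter.1 hf).1)]
    have e2 : (((Msh F n).filter (fun f => T (redC S₀ m n f))).card : ℝ) ≤
        ((Msh F n).filter (fun f => ¬ BadC f ∧ T (redC S₀ m n f))).card + ((Sb F n).filter (fun f => BadC f)).card := by
      have : ((Msh F n).filter (fun f => T (redC S₀ m n f))).card ≤
          ((Msh F n).filter (fun f => ¬ BadC f ∧ T (redC S₀ m n f))).card + ((Sb F n).filter (fun f => BadC f)).card := by
        refine le_trans (card_le_card ?_) (card_union_le _ _)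
        intro f hf
        rw [mem_filter] at hf
        rw [mem_union, mem_filter, mem_filter]
        by_cases hbad : BadC f
        · right
          exact ⟨mem_Sb.2 (mem_Msh.1 hf.1).1, hbad⟩
        · left
          exact ⟨hf.1, hbad, hf.2⟩
      exact_mod_cast this
    have e3 : (((Msh F n).filter (fun f => ¬ BadC f ∧ T (redC S₀ m n f))).card : ℝ) ≤
        ((Msh F n).filter (fun f => T (redC S₀ m n f))).card := by
      have : ((Msh F n).filter (fun f => ¬ BadC f ∧ T (redC S₀ m n f))).card ≤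
          ((Msh F n).filter (fun f => T (redC S₀ m n f))).card := by
        apply card_le_card
        intro f hf
        rw [mem_filter] at hf ⊢
        exact ⟨hf.1, hf.2.2⟩
      exact_mod_cast this
    have hB : ε / 16 * (Fintype.card F : ℝ) ^ (12 * n + 3) ≤ ε / 4 * (Msh F n).card := by
      have : (Fintype.card F : ℝ) ^ (12 * n + 3) ≤ 4 * (Msh F n).card := by linarith
      nlinarith [mul_le_mul_of_nonneg_left this (by positivity : (0 : ℝ) ≤ ε / 16)]
    rw [abs_le] at h1 ⊢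
    obtain ⟨h1a, h1b⟩ := h1
    have e4 : ε * ((Msh F n).card : ℝ) = ε / 2 * (Msh F n).card + 2 * (ε / 4 * (Msh F n).card) := by ring
    rw [e4]
    have hM0 : 0 ≤ ε / 4 * ((Msh F n).card : ℝ) := by positivity
    constructor
    · linarith
    · linarith
  · intro ε hε
    have h1 := (bad_limS U h2 (F := F)).eventually (gt_mem_nhds hε)
    filter_upwards [h1] with n h3
    rw [div_lt_iff₀ (by positivity)] at h3
    refine le_trans ?_ h3.le
    refine le_trans (sum_le_sum (g := fun f => (Nat.card (Sel (f.map (toK F))) : ℝ) - 1) ?_) ?_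
    · intro f hf
      have h5 := hd n f (mem_filter.1 hf).1
      rw [hw f h5]
      split_ifs
      · exact le_rfl
      · exact card_Sel_ge U h2 h5
    apply sum_le_sum_of_subset_of_nonneg
    · intro f hf
      rw [mem_filter, mem_Msh] at hf
      rw [mem_filter, mem_Sb]
      exact ⟨hf.1.1, hf.1.2.1, hf.2⟩
    · intro f hf _
      exact card_Sel_ge U h2 (mem_filter.1 hf).2.1
  · intro ε hε
    filter_upwards [hb F h2 (ε / 2) (half_pos hε)] with n h3
    have h5 : ∑ f ∈ (Msh F n).filter (fun f => BadC f), (if cls (crv f) ∈ Z then (2 : ℝ) else 0) ≤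
        ∑ f ∈ (Msh F n).filter (fun f => BadC f), (2 : ℝ) := by
      apply sum_le_sum
      intro f _
      split_ifs <;> norm_num
    rw [sum_const, nsmul_eq_mul] at h5
    have h7 : (((Msh F n).filter (fun f => BadC f)).card : ℝ) ≤ ((Sb F n).filter (fun f => BadC f)).card := by
      have : ((Msh F n).filter (fun f => BadC f)).card ≤ ((Sb F n).filter (fun f => BadC f)).card := by
        apply card_le_card
        intro f hf
        rw [mem_filter, mem_Msh] at hf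
        rw [mem_filter, mem_Sb]
        exact ⟨hf.1.1, hf.2⟩
      exact_mod_cast this
    have h8 : ε / 2 * (Fintype.card F : ℝ) ^ (12 * n + 3) * 2 = ε * (Fintype.card F : ℝ) ^ (12 * n + 3) := by ring
    linarith

open Classical in
/-- **the averages over the family `Z` for the 2-Selmer groups and for the elements killed by two of the Selmer groups
for `E[2^∞]`** -/
theorem fam_avg (hav : S_avc) (hcd : S_cardc) (hcl : S_clsC) (hlo : S_clsL) (hps : S_posc)
    (hcg : S_congr) (h2 : (2 : F) ≠ 0) {Z : Set (KC F)}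
    (hZ : IsCongr F Z) {d₀ : ℕ} {κ₀ : KC F} (hκ₀ : κ₀ ∈ CL F d₀) (hκZ : κ₀ ∈ Z) :
    ∃ δ : ℝ, 0 < δ ∧ (∀ᶠ d in atTop, δ * (CL F d).card ≤ (((CL F d).filter (· ∈ Z)).card : ℝ)) ∧
    ∀ ε : ℝ, 0 < ε → ∀ᶠ d in atTop,
      |∑ κ ∈ (CL F d).filter (· ∈ Z), (s2 κ : ℝ) - 3 * ((CL F d).filter (· ∈ Z)).card| ≤
        ε * ((CL F d).filter (· ∈ Z)).card ∧
      |∑ κ ∈ (CL F d).filter (· ∈ Z), (sI κ : ℝ) - 3 * ((CL F d).filter (· ∈ Z)).card| ≤
        ε * ((CL F d).filter (· ∈ Z)).card := by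
  obtain ⟨δ, hδ, hdens, hmain⟩ := fam_sel hypU_all hypL_all hav hcd hcl hlo hps hcg t_badc t_selinv h2 hZ hκ₀ hκZ
  refine ⟨δ, hδ, hdens, fun ε hε => ?_⟩
  filter_upwards [hmain (ε * δ / 2) (by positivity), hdens,
    two_small hypU_all t_badc (t_clsG t_badc) t_selinv h2 (ε * δ / 2) (by positivity)] with d h1 h3 h5
  have e1 : ∑ κ ∈ (CL F d).filter (· ∈ Z), (s2 κ : ℝ) = ∑ κ ∈ (CL F d).filter (· ∈ Z), (selC κ : ℝ) :=
    sum_congr rfl fun κ hκ => by rw [CL_s2 hypC_all t_transp t_selinv h2 (mem_filter.1 hκ).1]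
  have e2 : ε * δ / 2 * ((CL F d).card : ℝ) ≤ ε / 2 * ((CL F d).filter (· ∈ Z)).card := by
    have := mul_le_mul_of_nonneg_left h3 (by positivity : (0 : ℝ) ≤ ε / 2)
    linarith
  have e0 : 0 ≤ ε / 2 * (((CL F d).filter (· ∈ Z)).card : ℝ) := by positivity
  have h4 : ∀ κ ∈ CL F d, |(sI κ : ℝ) - s2 κ| ≤ if ∀ T : κ.out.toAffine.Point, 2 • T = 0 → T = 0 then (0 : ℝ) else selC κ := by
    intro κ hκ
    obtain ⟨f, hf, rfl⟩ := CL_crv h2 hκ
    obtain ⟨a, b, -, c⟩ := sI_le hypC_all t_transp hypU_all ctrl_all h2 hf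
    split_ifs with h
    · rw [c h, sub_self, abs_zero]
    · rw [← s2_eq hypC_all t_transp t_selinv h2 hf]
      have a' : (sI (cls (crv f)) : ℝ) ≤ s2 (cls (crv f)) := by exact_mod_cast a
      have b' : (0 : ℝ) ≤ sI (cls (crv f)) := Nat.cast_nonneg _
      rw [abs_le]
      constructor <;> linarith
  have e3 : |∑ κ ∈ (CL F d).filter (· ∈ Z), (sI κ : ℝ) - ∑ κ ∈ (CL F d).filter (· ∈ Z), (s2 κ : ℝ)| ≤
      ε * δ / 2 * (CL F d).card := by
    rw [← sum_sub_distrib]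
    refine (abs_sum_le_sum_abs _ _).trans ?_
    refine (sum_le_sum fun κ hκ => h4 κ (mem_filter.1 hκ).1).trans (le_trans ?_ h5)
    apply sum_le_sum_of_subset_of_nonneg (filter_subset _ _)
    intro κ _ _
    split_ifs
    · exact le_rfl
    · exact Nat.cast_nonneg _
  have e4 : |∑ κ ∈ (CL F d).filter (· ∈ Z), (s2 κ : ℝ) - 3 * ((CL F d).filter (· ∈ Z)).card| ≤
      ε * δ / 2 * (CL F d).card := by
    rw [e1]
    exact h1
  refine ⟨e4.trans (e2.trans (by linarith)), ?_⟩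
  have h6 : ∑ κ ∈ (CL F d).filter (· ∈ Z), (sI κ : ℝ) - 3 * ((CL F d).filter (· ∈ Z)).card =
      (∑ κ ∈ (CL F d).filter (· ∈ Z), (sI κ : ℝ) - ∑ κ ∈ (CL F d).filter (· ∈ Z), (s2 κ : ℝ)) +
      (∑ κ ∈ (CL F d).filter (· ∈ Z), (s2 κ : ℝ) - 3 * ((CL F d).filter (· ∈ Z)).card) := by ring
  rw [h6]
  refine (abs_add_le _ _).trans ?_
  linarith

end Pool.Agent.H456.Coh
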