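import Pool.Agent.H456.Coh.Asm
import Pool.Agent.H456.BQ.SFin

/-!
# The average order of the 2-Selmer groups
-/

set_option autoImplicit false
set_option linter.all false

open Polynomial WeierstrassCurve IsDedekindDomain Finset Filter
open Pool.Agent.H456.BQ Pool.Agent.H456.RN
open Pool.Agent.H456.EC

namespace Pool.Agent.H456.Coh

variable {F : Type} [Field F] [Fintype F]

open Classical in
/-- the order of the 2-Selmer group as a function of the class -/
noncomputable def s2 (κ : KC F) : ℕ := Nat.card (SelmerGroup κ.out (torsionPts κ.out 2))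

open Classical in
/-- the number of the elements of the Selmer group for `E[2^∞]` killed by two, as a function of the class -/
noncomputable def sI (κ : KC F) : ℕ := Nat.card {x : SelmerGroup κ.out (primaryPts κ.out 2) // 2 • x = 0}

theorem fK_disc {f : Cub F[X]} (hf : f.disc ≠ 0) : (f.map (toK F)).disc ≠ 0 := disc_ne hf

theorem crvK_Δ (h2 : (2 : F) ≠ 0) {f : Cub F[X]} (hf : f.disc ≠ 0) : ((crv f).map (toK F)).Δ ≠ 0 := by
  have h16 : (16 : F[X]) ≠ 0 := by
    have : (16 : F[X]) = C ((2 : F) ^ 4) := by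
      rw [C_pow, C_ofNat]; norm_num
    rw [this]
    exact C_ne_zero.2 (pow_ne_zero _ h2)
  rw [WeierstrassCurve.map_Δ]
  refine (map_ne_zero_iff _ toK_inj).2 ?_
  rw [crv_Δ]
  exact mul_ne_zero h16 hf

open Classical in
theorem equiv_s2 (H : HypC) (T : S_transp) (h2 : (2 : F) ≠ 0) {f : Cub F[X]} (hf : f.disc ≠ 0) :
    Nonempty (SelmerGroup (cls (crv f)).out (torsionPts (cls (crv f)).out 2) ≃ Sel (f.map (toK F))) := by
  obtain ⟨C, hC⟩ := out_cls (W := crv f)
  obtain ⟨e⟩ := (T F ((crv f).map (toK F)) C (crvK_Δ h2 hf) 2).1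
  obtain ⟨e'⟩ := equiv_selmer H h2 (fK_disc hf)
  rw [← hC]
  rw [crv_map] at e ⊢
  exact ⟨e.toEquiv.trans e'⟩

theorem s2_eq (H : HypC) (T : S_transp) (hi : S_selinv) (h2 : (2 : F) ≠ 0) {f : Cub F[X]} (hf : f.disc ≠ 0) :
    s2 (cls (crv f)) = selC (cls (crv f)) := by
  obtain ⟨e⟩ := equiv_s2 H T h2 hf
  rw [selC_crv hi h2]
  exact Nat.card_congr e

open Classical in
theorem finite_s2 (H : HypC) (T : S_transp) (U : HypU) (h2 : (2 : F) ≠ 0) {f : Cub F[X]} (hf : f.disc ≠ 0) :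
    Finite (SelmerGroup (cls (crv f)).out (torsionPts (cls (crv f)).out 2)) := by
  obtain ⟨e⟩ := equiv_s2 H T h2 hf
  have := finite_Sel U h2 hf
  exact Finite.of_equiv _ e.symm

theorem CL_s2 (H : HypC) (T : S_transp) (hi : S_selinv) (h2 : (2 : F) ≠ 0) {d : ℕ} {κ : KC F} (hκ : κ ∈ CL F d) :
    s2 κ = selC κ := by
  obtain ⟨f, hf, rfl⟩ := CL_crv h2 hκ
  exact s2_eq H T hi h2 hf

/-- **the average order of the 2-Selmer groups is `3`** -/
theorem s2_avg (H : HypC) (T : S_transp) (U : HypU) (L : HypL) (hc : S_clsG) (hi : S_selinv) (h2 : (2 : F) ≠ 0)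
    (ε : ℝ) (hε : 0 < ε) :
    ∀ᶠ d in atTop, |∑ κ ∈ CL F d, (s2 κ : ℝ) - 3 * (CL F d).card| ≤ ε * (CL F d).card := by
  filter_upwards [sel_avg U L hc hi h2 ε hε] with d hd
  rwa [sum_congr rfl fun κ hκ => by rw [CL_s2 H T hi h2 hκ]]

open Classical in
/-- the curves with a rational point of order two are negligible -/
theorem two_small (U : HypU) (hb : S_badc) (hc : S_clsG) (hi : S_selinv) (h2 : (2 : F) ≠ 0) (ε : ℝ) (hε : 0 < ε) :
    ∀ᶠ d in atTop, ∑ κ ∈ CL F d, (if ∀ T : κ.out.toAffine.Point, 2 • T = 0 → T = 0 then (0 : ℝ) else selC κ) ≤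
      ε * (CL F d).card := by
  set w : KC F → ℝ := fun κ => if ∀ T : κ.out.toAffine.Point, 2 • T = 0 → T = 0 then (0 : ℝ) else selC κ with hw
  have hw0 : ∀ κ, 0 ≤ w κ := by
    intro κ
    simp only [hw]
    split_ifs
    · exact le_rfl
    · exact Nat.cast_nonneg _
  have hwle : ∀ κ, w κ ≤ selC κ := by
    intro κ
    simp only [hw]
    split_ifs
    · exact Nat.cast_nonneg _
    · exact le_rfl
  have hgood : ∀ f : Cub F[X], f.disc ≠ 0 → ¬ BadC f → w (cls (crv f)) = 0 := by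
    intro f hf hb
    simp only [hw]
    rw [if_pos]
    obtain ⟨C, hC⟩ := out_cls (W := crv f)
    have hno : NoTwo f := fun r hr => hb (Or.inr ⟨r, hr⟩)
    rw [← hC]
    intro P hP
    let e := pEquiv ((crv f).map (toK F)) C (crvK_Δ h2 hf)
    have h1 : 2 • e P = 0 := by rw [← map_nsmul, hP, map_zero]
    have h3 : ∀ Q : ((crv f).map (toK F)).toAffine.Point, 2 • Q = 0 → Q = 0 := by
      rw [crv_map]
      exact fun Q hQ => hno.tors h2 hf Q hQ
    have h4 := h3 _ h1
    exact (map_eq_zero_iff e e.injective).1 h4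
  have hmain := hc F h2 w hw0 0 le_rfl ?_ ?_ (H3 h2) ε hε
  · filter_upwards [hmain] with d h1
    rw [zero_mul, sub_zero] at h1
    exact (le_abs_self _).trans h1
  · intro ε hε
    filter_upwards with n
    rw [sum_eq_zero fun f hf => ?_]
    · simp only [zero_mul, sub_zero, abs_zero]
      positivity
    · rw [mem_filter, mem_Msh] at hf
      exact hgood f hf.1.2.1 hf.2
  · intro ε hε
    have h1 := (bad_limS U h2 (F := F)).eventually (gt_mem_nhds (half_pos hε))
    filter_upwards [h1, hb F h2 (ε / 2) (half_pos hε)] with n h3 h4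
    have hq2 : 2 ≤ (Fintype.card F : ℝ) := q_ge
    have hq0 : (0 : ℝ) < Fintype.card F := by linarith
    rw [div_lt_iff₀ (by positivity)] at h3
    have h5 : ∑ f ∈ (Msh F n).filter (fun f => BadC f), w (cls (crv f)) ≤
        ∑ f ∈ (Msh F n).filter (fun f => BadC f), (((Nat.card (Sel (f.map (toK F))) : ℝ) - 1) + 1) := by
      apply sum_le_sum
      intro f hf
      refine (hwle _).trans (le_of_eq ?_)
      rw [selC_crv hi h2]
      ring
    rw [sum_add_distrib, sum_const, nsmul_eq_mul, mul_one] at h5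
    have h6 : ∑ f ∈ (Msh F n).filter (fun f => BadC f), ((Nat.card (Sel (f.map (toK F))) : ℝ) - 1) ≤
        ∑ f ∈ (Sb F n).filter (fun f => f.disc ≠ 0 ∧ BadC f), ((Nat.card (Sel (f.map (toK F))) : ℝ) - 1) := by
      apply sum_le_sum_of_subset_of_nonneg
      · intro f hf
        rw [mem_filter, mem_Msh] at hf
        rw [mem_filter, mem_Sb]
        exact ⟨hf.1.1, hf.1.2.1, hf.2⟩
      · intro f hf _
        exact card_Sel_ge U h2 (mem_filter.1 hf).2.1
    have h7 : (((Msh F n).filter (fun f => BadC f)).card : ℝ) ≤ ((Sb F n).filter (fun f => BadC f)).card := by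
      have : ((Msh F n).filter (fun f => BadC f)).card ≤ ((Sb F n).filter (fun f => BadC f)).card := by
        apply card_le_card
        intro f hf
        rw [mem_filter, mem_Msh] at hf
        rw [mem_filter, mem_Sb]
        exact ⟨hf.1.1, hf.2⟩
      exact_mod_cast this
    linarith

open Classical in
theorem sI_le (H : HypC) (T : S_transp) (U : HypU) (D : S_ctrl) (h2 : (2 : F) ≠ 0) {f : Cub F[X]} (hf : f.disc ≠ 0) :
    sI (cls (crv f)) ≤ s2 (cls (crv f)) ∧ 1 ≤ sI (cls (crv f)) ∧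
      Finite {x : SelmerGroup (cls (crv f)).out (primaryPts (cls (crv f)).out 2) // 2 • x = 0} ∧
    ((∀ P : (cls (crv f)).out.toAffine.Point, 2 • P = 0 → P = 0) → sI (cls (crv f)) = s2 (cls (crv f))) := by
  have hΔ : (cls (crv f)).out.Δ ≠ 0 := by
    obtain ⟨C, hC⟩ := out_cls (W := crv f)
    rw [← hC, variableChange_Δ]
    exact mul_ne_zero (pow_ne_zero _ (Units.ne_zero _)) (crvK_Δ h2 hf)
  obtain ⟨φ, hφ, hinj⟩ := D F h2 (cls (crv f)).out hΔ
  have hfin := finite_s2 H T U h2 hf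
  let ψ : SelmerGroup (cls (crv f)).out (torsionPts (cls (crv f)).out 2) →
      {x : SelmerGroup (cls (crv f)).out (primaryPts (cls (crv f)).out 2) // 2 • x = 0} :=
    fun y => ⟨φ y, (hφ _).1 ⟨y, rfl⟩⟩
  have hsurj : Function.Surjective ψ := by
    rintro ⟨x, hx⟩
    obtain ⟨y, hy⟩ := (hφ x).2 hx
    exact ⟨y, Subtype.ext hy⟩
  have hfin2 : Finite {x : SelmerGroup (cls (crv f)).out (primaryPts (cls (crv f)).out 2) // 2 • x = 0} :=
    Finite.of_surjective ψ hsurj
  refine ⟨Nat.card_le_card_of_surjective ψ hsurj, ?_, hfin2, fun h => ?_⟩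
  · have : Nonempty {x : SelmerGroup (cls (crv f)).out (primaryPts (cls (crv f)).out 2) // 2 • x = 0} :=
      ⟨⟨0, smul_zero _⟩⟩
    exact Nat.card_pos
  · symm
    apply Nat.card_congr
    refine Equiv.ofBijective ψ ⟨?_, hsurj⟩
    intro a b hab
    exact hinj (fun P hP => h P (by convert hP)) (congrArg Subtype.val hab)

open Classical in
/-- **the average number of the elements killed by two in the Selmer group for `E[2^∞]` is `3`** -/
theorem sI_avg (H : HypC) (T : S_transp) (D : S_ctrl) (U : HypU) (L : HypL) (hb : S_badc) (hc : S_clsG) (hi : S_selinv)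
    (h2 : (2 : F) ≠ 0) (ε : ℝ) (hε : 0 < ε) :
    ∀ᶠ d in atTop, |∑ κ ∈ CL F d, (sI κ : ℝ) - 3 * (CL F d).card| ≤ ε * (CL F d).card := by
  filter_upwards [s2_avg H T U L hc hi h2 (ε / 2) (half_pos hε), two_small U hb hc hi h2 (ε / 2) (half_pos hε)] with d h1 h3
  have h4 : ∀ κ ∈ CL F d, |(sI κ : ℝ) - s2 κ| ≤ if ∀ T : κ.out.toAffine.Point, 2 • T = 0 → T = 0 then (0 : ℝ) else selC κ := by
    intro κ hκ
    obtain ⟨f, hf, rfl⟩ := CL_crv h2 hκ
    obtain ⟨a, b, -, c⟩ := sI_le H T U D h2 hf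
    split_ifs with h
    · rw [c h, sub_self, abs_zero]
    · rw [← s2_eq H T hi h2 hf]
      have a' : (sI (cls (crv f)) : ℝ) ≤ s2 (cls (crv f)) := by exact_mod_cast a
      have b' : (0 : ℝ) ≤ sI (cls (crv f)) := Nat.cast_nonneg _
      rw [abs_le]
      constructor <;> linarith
  have h5 : |∑ κ ∈ CL F d, (sI κ : ℝ) - ∑ κ ∈ CL F d, (s2 κ : ℝ)| ≤ ε / 2 * (CL F d).card := by
    rw [← sum_sub_distrib]
    refine (abs_sum_le_sum_abs _ _).trans ?_
    exact (sum_le_sum h4).trans h3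
  have h6 : ∑ κ ∈ CL F d, (sI κ : ℝ) - 3 * (CL F d).card = (∑ κ ∈ CL F d, (sI κ : ℝ) - ∑ κ ∈ CL F d, (s2 κ : ℝ)) +
      (∑ κ ∈ CL F d, (s2 κ : ℝ) - 3 * (CL F d).card) := by ring
  rw [h6]
  refine (abs_add_le _ _).trans ?_
  linarith

end Pool.Agent.H456.Coh
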