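import Pool.Agent.H456.Coh.Fam
import Pool.Agent.H456.BQ.T_avc
import Pool.Agent.H456.BQ.T_clsC
import Pool.Agent.H456.BQ.T_posc
import Pool.Agent.H456.BQ.T_congr
import Pool.Agent.H456.BQ.Out

/-!
# The final forms of the theorems on the averages over congruence families
-/

set_option autoImplicit false
set_option linter.all false

open Polynomial WeierstrassCurve IsDedekindDomain Finset Filter
open Pool.Agent.H456.BQ Pool.Agent.H456.RN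
open Pool.Agent.H456.EC
open scoped Topology

namespace Pool.Agent.H456.Coh

variable {F : Type} [Field F] [Fintype F]

open Classical in
theorem coe_fam (d : ℕ) (Z : Set (KC F)) : (((CL F d).filter (· ∈ Z) : Finset (KC F)) : Set (KC F)) = cls '' Eqn F d ∩ Z := by
  ext κ
  rw [coe_filter, Set.mem_inter_iff, ← coe_CL, mem_coe, Set.mem_setOf_eq]

open Classical in
theorem fam_all (h2 : (2 : F) ≠ 0) {Z : Set (KC F)} (hZ : IsCongr F Z) (hne : ∃ d, (cls '' Eqn F d ∩ Z).Nonempty) :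
    ∃ δ : ℝ, 0 < δ ∧ (∀ᶠ d in atTop, δ * (CL F d).card ≤ (((CL F d).filter (· ∈ Z)).card : ℝ)) ∧
    ∀ ε : ℝ, 0 < ε → ∀ᶠ d in atTop,
      |∑ κ ∈ (CL F d).filter (· ∈ Z), (s2 κ : ℝ) - 3 * ((CL F d).filter (· ∈ Z)).card| ≤
        ε * ((CL F d).filter (· ∈ Z)).card ∧
      |∑ κ ∈ (CL F d).filter (· ∈ Z), (sI κ : ℝ) - 3 * ((CL F d).filter (· ∈ Z)).card| ≤
        ε * ((CL F d).filter (· ∈ Z)).card := by
  obtain ⟨d₀, κ₀, hκ⟩ := hne
  rw [← coe_fam, mem_coe, mem_filter] at hκ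
  exact fam_avg t_avc.1 t_avc.2 (t_clsC t_badc).1 (t_clsC t_badc).2 (t_posc t_avc.2 t_euler2) t_congr h2 hZ hκ.1 hκ.2

theorem CL_pos (h2 : (2 : F) ≠ 0) {d : ℕ} (hd : 1 ≤ d) : 0 < (CL F d).card := by
  obtain ⟨κ, hκ⟩ := ne_cls h2 hd
  rw [← coe_CL, mem_coe] at hκ
  exact card_pos.2 ⟨κ, hκ⟩

theorem mem_CL_iff {d : ℕ} {κ : KC F} : κ ∈ cls '' Eqn F d ↔ κ ∈ CL F d := by
  rw [← coe_CL, mem_coe]

open Classical in
/-- the averages as limits -/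
theorem fam_lim (h2 : (2 : F) ≠ 0) {Z : Set (KC F)} (hZ : IsCongr F Z) (hne : ∃ d, (cls '' Eqn F d ∩ Z).Nonempty) :
    (∃ δ : ℝ, 0 < δ ∧ ∀ᶠ d in atTop, δ * ((cls '' Eqn F d).ncard : ℝ) ≤ ((cls '' Eqn F d ∩ Z).ncard : ℝ)) ∧
    Tendsto (fun d => (∑ᶠ κ ∈ cls '' Eqn F d ∩ Z, (s2 κ : ℝ)) / ((cls '' Eqn F d ∩ Z).ncard : ℝ)) atTop (𝓝 3) ∧
    Tendsto (fun d => (∑ᶠ κ ∈ cls '' Eqn F d ∩ Z, (sI κ : ℝ)) / ((cls '' Eqn F d ∩ Z).ncard : ℝ)) atTop (𝓝 3) := by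
  obtain ⟨δ, hδ, hd, hm⟩ := fam_all h2 hZ hne
  have hn1 : ∀ d, ((cls '' Eqn F d).ncard : ℝ) = (CL F d).card := fun d => by
    rw [← coe_CL, Set.ncard_coe_finset]
  have hn2 : ∀ d, ((cls '' Eqn F d ∩ Z).ncard : ℝ) = ((CL F d).filter (· ∈ Z)).card := fun d => by
    rw [← coe_fam, Set.ncard_coe_finset]
  have hs : ∀ (w : KC F → ℝ) (d : ℕ), ∑ᶠ κ ∈ cls '' Eqn F d ∩ Z, w κ = ∑ κ ∈ (CL F d).filter (· ∈ Z), w κ := fun w d => by
    rw [← coe_fam, finsum_mem_coe_finset]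
  have hpos : ∀ᶠ d in atTop, (0 : ℝ) < ((CL F d).filter (· ∈ Z)).card := by
    filter_upwards [hd, eventually_ge_atTop 1] with d h1 h3
    have : (0 : ℝ) < (CL F d).card := by exact_mod_cast CL_pos h2 h3
    exact lt_of_lt_of_le (by positivity) h1
  have key : ∀ w : KC F → ℝ, (∀ ε : ℝ, 0 < ε → ∀ᶠ d in atTop,
      |∑ κ ∈ (CL F d).filter (· ∈ Z), w κ - 3 * ((CL F d).filter (· ∈ Z)).card| ≤
        ε * ((CL F d).filter (· ∈ Z)).card) →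
      Tendsto (fun d => (∑ᶠ κ ∈ cls '' Eqn F d ∩ Z, w κ) / ((cls '' Eqn F d ∩ Z).ncard : ℝ)) atTop (𝓝 3) := by
    intro w hw
    rw [Metric.tendsto_nhds]
    intro ε hε
    filter_upwards [hw (ε / 2) (half_pos hε), hpos] with d h1 h3
    rw [hs, hn2, Real.dist_eq]
    have e : (∑ κ ∈ (CL F d).filter (· ∈ Z), w κ) / (((CL F d).filter (· ∈ Z)).card : ℝ) - 3 =
        (∑ κ ∈ (CL F d).filter (· ∈ Z), w κ - 3 * ((CL F d).filter (· ∈ Z)).card) / (((CL F d).filter (· ∈ Z)).card : ℝ) := by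
      field_simp
    rw [e, abs_div, abs_of_pos h3, div_lt_iff₀ h3]
    refine lt_of_le_of_lt h1 ?_
    exact mul_lt_mul_of_pos_right (half_lt_self hε) h3
  refine ⟨⟨δ, hδ, ?_⟩, key _ (fun ε hε => (hm ε hε).mono fun d h => h.1), key _ (fun ε hε => (hm ε hε).mono fun d h => h.2)⟩
  filter_upwards [hd] with d h1
  rw [hn1, hn2]
  exact h1

open Classical in
theorem fin_s2 (h2 : (2 : F) ≠ 0) {d : ℕ} {κ : KC F} (hκ : κ ∈ cls '' Eqn F d) :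
    Finite (SelmerGroup κ.out (torsionPts κ.out 2)) := by
  obtain ⟨f, hf, rfl⟩ := CL_crv h2 (mem_CL_iff.1 hκ)
  exact finite_s2 hypC_all t_transp hypU_all h2 hf

open Classical in
theorem fin_sI (h2 : (2 : F) ≠ 0) {d : ℕ} {κ : KC F} (hκ : κ ∈ cls '' Eqn F d) :
    Finite {x : SelmerGroup κ.out (primaryPts κ.out 2) // 2 • x = 0} ∧ 1 ≤ sI κ := by
  obtain ⟨f, hf, rfl⟩ := CL_crv h2 (mem_CL_iff.1 hκ)
  have := sI_le hypC_all t_transp hypU_all ctrl_all h2 hf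
  exact ⟨this.2.2.1, this.2.1⟩

open Classical in
/-- the tail of the distribution -/
theorem tail_sI (h2 : (2 : F) ≠ 0) {Z : Set (KC F)} (hZ : IsCongr F Z) (hne : ∃ d, (cls '' Eqn F d ∩ Z).Nonempty)
    (m : ℕ) (hm : 2 ≤ m) (ε : ℝ) (hε : 0 < ε) : ∀ᶠ d in atTop,
      (({κ | κ ∈ cls '' Eqn F d ∩ Z ∧ m ≤ sI κ}).ncard : ℝ) ≤ (2 / (m - 1) + ε) * ((cls '' Eqn F d ∩ Z).ncard : ℝ) := by
  have hm1 : (1 : ℝ) ≤ (m : ℝ) - 1 := by
    have : (2 : ℝ) ≤ m := by exact_mod_cast hm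
    linarith
  obtain ⟨δ, hδ, hd, hmn⟩ := fam_all h2 hZ hne
  filter_upwards [hmn ε hε] with d h
  have h1 := (abs_le.1 h.2).2
  have hset : {κ | κ ∈ cls '' Eqn F d ∩ Z ∧ m ≤ sI κ} =
      ((((CL F d).filter (· ∈ Z)).filter (fun κ => m ≤ sI κ) : Finset (KC F)) : Set (KC F)) := by
    ext κ
    rw [coe_filter, Set.mem_setOf_eq, Set.mem_setOf_eq, ← coe_fam, mem_coe]
  rw [hset, Set.ncard_coe_finset, ← coe_fam, Set.ncard_coe_finset]
  set A := (CL F d).filter (· ∈ Z) with hA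
  have hge : ∀ κ ∈ A, (1 : ℝ) ≤ sI κ := by
    intro κ hκ
    exact_mod_cast (fin_sI h2 (mem_CL_iff.2 (mem_filter.1 hκ).1)).2
  have h3 : (((A.filter (fun κ => m ≤ sI κ)).card : ℝ)) * ((m : ℝ) - 1) ≤ ∑ κ ∈ A, ((sI κ : ℝ) - 1) := by
    rw [← nsmul_eq_mul, ← sum_const]
    refine le_trans (sum_le_sum (g := fun κ => (sI κ : ℝ) - 1) ?_) (sum_le_sum_of_subset_of_nonneg (filter_subset _ _) ?_)
    · intro κ hκ
      have : (m : ℝ) ≤ sI κ := by exact_mod_cast (mem_filter.1 hκ).2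
      linarith
    · intro κ hκ _
      linarith [hge κ hκ]
  rw [sum_sub_distrib, sum_const, nsmul_eq_mul, mul_one] at h3
  have h4 : ((A.filter (fun κ => m ≤ sI κ)).card : ℝ) * ((m : ℝ) - 1) ≤ (2 + ε) * A.card := by linarith
  have h5 : ((A.filter (fun κ => m ≤ sI κ)).card : ℝ) ≤ ((2 + ε) * A.card) / ((m : ℝ) - 1) := by
    rw [le_div_iff₀ (by linarith)]
    exact h4
  refine h5.trans ?_
  have h6 : ((2 + ε) * (A.card : ℝ)) / ((m : ℝ) - 1) = (2 / ((m : ℝ) - 1) + ε / ((m : ℝ) - 1)) * A.card := by ring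
  rw [h6]
  have h7 : ε / ((m : ℝ) - 1) ≤ ε := by
    rw [div_le_iff₀ (by linarith)]
    nlinarith
  exact mul_le_mul_of_nonneg_right (by linarith) (Nat.cast_nonneg _)

end Pool.Agent.H456.Coh
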