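import Pool.Agent.H456.Coh.Def
import Pool.Agent.H456.BQ.SDef
import Pool.Agent.H456.BQ.Stm5

/-!
# The 2-Selmer group and binary quartics: statements of the lemmas

`f` is a cubic over `K`, `crv f` the curve `y² = f(x)`.
-/

set_option autoImplicit false
set_option linter.all false

open Polynomial WeierstrassCurve IsDedekindDomain
open Pool.Agent.H456.BQ
open Pool.Agent.H456.EC (toK toK_inj sig toK_eq reflect_toK)

namespace Pool.Agent.H456.Coh

section defs

variable {K : Type} [Field K] {L : Type} [Field L] [Algebra K L]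

/-- the cubic over `L` -/
abbrev fL (f : Cub K) (L : Type) [Field L] [Algebra K L] : Cub L := f.map (algebraMap K L)

/-- the coordinates `(u, v, z)` of a point of `y² = f(x)` on the curve `z² = v · 4 f(u, v)` of the zero class -/
def vec {f : Cub K} : Pt (crv f) L → L × L × L
  | .zero => (1, 0, 0)
  | .some x y _ => (x, 1, 2 * y)

/-- the matrix of the translation by a point of order two (only for points with `2 T = 0`) -/
noncomputable def mT {f : Cub K} : Pt (crv f) L → M2 L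
  | .zero => ⟨1, 0, 0, 1⟩
  | .some x _ _ => ⟨x, (fL f L).dev x - x ^ 2, 1, -x⟩

/-- proportionality of triples `(u, v, z)`, `z` of weight two -/
def Rel3 (p q : L × L × L) : Prop := ∃ k : L, k ≠ 0 ∧ q = (k * p.1, k * p.2.1, k ^ 2 * p.2.2)

/-- action of a matrix on the triples -/
def act3 (M : M2 L) (p : L × L × L) : L × L × L := (M.α * p.1 + M.β * p.2.1, M.γ * p.1 + M.δ * p.2.1, M.det * p.2.2)

/-- the pair over `L` -/
def mapP (L : Type) [Field L] [Algebra K L] (s : Q4 K × K) : Q4 L × L := (s.1.map (algebraMap K L), algebraMap K L s.2)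

open Classical in
/-- a continuous cocycle with values in `E[2]`, `E : y² = f(x)` -/
structure IsCoc (f : Cub K) (c : Gal K → Pt (crv f) (SeparableClosure K)) : Prop where
  tors : ∀ σ, 2 • c σ = 0
  mul : ∀ σ τ, c (σ * τ) = c σ + Affine.Point.map σ.toAlgHom (c τ)
  cont : IsLocallyConstant c

/-- the cocycle `c` is attached to the pair `s` -/
def Assoc (f : Cub K) (c : Gal K → Pt (crv f) (SeparableClosure K)) (s : Q4 K × K) : Prop :=
  ∃ M : M2 (SeparableClosure K), PE M (zp (fL f (SeparableClosure K))) (mapP (SeparableClosure K) s) ∧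
    ∀ σ : Gal K, ∃ k : SeparableClosure K, k ≠ 0 ∧ M.map (σ.toAlgHom : SeparableClosure K →+* SeparableClosure K) =
      ((mT (c σ)).mul M).scal k

/-- `X` has trace zero and is fixed by the Galois action twisted by `c` -/
def Tw (f : Cub K) (c : Gal K → Pt (crv f) (SeparableClosure K)) (X : M2 (SeparableClosure K)) : Prop :=
  X.δ = -X.α ∧ ∀ σ : Gal K, (X.map (σ.toAlgHom : SeparableClosure K →+* SeparableClosure K)).mul (mT (c σ)) =
    (mT (c σ)).mul X

/-- the determinant of three matrices of trace zero -/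
def dt (X Y Z : M2 L) : L :=
  X.α * (Y.β * Z.γ - Y.γ * Z.β) - X.β * (Y.α * Z.γ - Y.γ * Z.α) + X.γ * (Y.α * Z.β - Y.β * Z.α)

/-- linear combination of three matrices -/
def lin3 (x y z : L) (X Y Z : M2 L) : M2 L :=
  ⟨x * X.α + y * Y.α + z * Z.α, x * X.β + y * Y.β + z * Z.β, x * X.γ + y * Y.γ + z * Z.γ,
    x * X.δ + y * Y.δ + z * Z.δ⟩

/-- ternary quadratic forms -/
@[ext] structure TF (R : Type) where
  A : R
  B : R
  C : R
  D : R
  E : R
  G : R

/-- the value -/
def TF.ev {R : Type} [CommRing R] (q : TF R) (x y z : R) : R :=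
  q.A * x ^ 2 + q.B * y ^ 2 + q.C * z ^ 2 + q.D * (x * y) + q.E * (x * z) + q.G * (y * z)

/-- image under a homomorphism -/
def TF.map {R S : Type} [CommRing R] [CommRing S] (φ : R →+* S) (q : TF R) : TF S :=
  ⟨φ q.A, φ q.B, φ q.C, φ q.D, φ q.E, φ q.G⟩

end defs

/-! ### geometry of `y² = f(x)` and of the quartic of the zero class -/

open Classical in
/-- **(C1)** translation by a point of order two. -/
def S_tr : Prop := ∀ (K L : Type) [Field K] [Field L] [Algebra K L], (2 : K) ≠ 0 → ∀ f : Cub K, f.disc ≠ 0 →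
  ∀ T Q : Pt (crv f) L, 2 • T = 0 → Rel3 (act3 (mT T) (vec Q)) (vec (Q + T))

/-- **(C2)** the coordinates determine the point. -/
def S_vinj : Prop := ∀ (K L : Type) [Field K] [Field L] [Algebra K L], (2 : K) ≠ 0 → ∀ f : Cub K,
  ∀ P Q : Pt (crv f) L, Rel3 (vec P) (vec Q) → P = Q

/-- **(C3)** all the points of the quartic of the zero class are obtained. -/
def S_vsurj : Prop := ∀ (K L : Type) [Field K] [Field L] [Algebra K L], (2 : K) ≠ 0 → ∀ f : Cub K, f.disc ≠ 0 →
  (∀ Q : Pt (crv f) L, ¬ ((vec Q).1 = 0 ∧ (vec Q).2.1 = 0) ∧ (vec Q).2.2 ^ 2 = (zp (fL f L)).1.ev (vec Q).1 (vec Q).2.1) ∧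
  ∀ u v z : L, ¬ (u = 0 ∧ v = 0) → z ^ 2 = (zp (fL f L)).1.ev u v → ∃ Q : Pt (crv f) L, Rel3 (vec Q) (u, v, z)

open Classical in
/-- **(C5)** the matrices of the translations. -/
def S_mPE : Prop := ∀ (K L : Type) [Field K] [Field L] [Algebra K L], (2 : K) ≠ 0 → ∀ f : Cub K, f.disc ≠ 0 →
  ∀ T : Pt (crv f) L, 2 • T = 0 → PE (mT T) (zp (fL f L)) (zp (fL f L))

open Classical in
/-- **(C6)** the stabilizer of the pair of the zero class. -/
def S_mstab : Prop := ∀ (K L : Type) [Field K] [Field L] [Algebra K L], (2 : K) ≠ 0 → ∀ f : Cub K, f.disc ≠ 0 →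
  ∀ M : M2 L, PE M (zp (fL f L)) (zp (fL f L)) → ∃ (T : Pt (crv f) L) (k : L), 2 • T = 0 ∧ k ≠ 0 ∧ M = (mT T).scal k

open Classical in
/-- **(C7)** products. -/
def S_mmul : Prop := ∀ (K L : Type) [Field K] [Field L] [Algebra K L], (2 : K) ≠ 0 → ∀ f : Cub K, f.disc ≠ 0 →
  ∀ T T' : Pt (crv f) L, 2 • T = 0 → 2 • T' = 0 → ∃ k : L, k ≠ 0 ∧ (mT T).mul (mT T') = (mT (T + T')).scal k

open Classical in
/-- **(C8)** the matrix determines the point of order two. -/
def S_minj : Prop := ∀ (K L : Type) [Field K] [Field L] [Algebra K L], (2 : K) ≠ 0 → ∀ f : Cub K, f.disc ≠ 0 →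
  ∀ (T T' : Pt (crv f) L) (k : L), 2 • T = 0 → 2 • T' = 0 → mT T = (mT T').scal k → T = T'

/-- **(C10)** over a separably closed field there is only one class. -/
def S_base : Prop := ∀ (L : Type) [Field L] [IsSepClosed L], (2 : L) ≠ 0 → ∀ f : Cub L, f.disc ≠ 0 →
  ∀ s : Q4 L × L, s.1.res = (f.sc 4).tr s.2 → ∃ M : M2 L, PE M (zp f) s

/-! ### cocycles and pairs -/

/-- **(C11)** existence of the cocycle. -/
def S_exc : Prop := ∀ (K : Type) [Field K], (2 : K) ≠ 0 → ∀ f : Cub K, f.disc ≠ 0 → ∀ s : Q4 K × K,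
  s.1.res = (f.sc 4).tr s.2 → ∃ c : Gal K → Pt (crv f) (SeparableClosure K), IsCoc f c ∧ Assoc f c s

open Classical in
/-- **(C12)** equivalent pairs have cohomologous cocycles. -/
def S_coh1 : Prop := ∀ (K : Type) [Field K], (2 : K) ≠ 0 → ∀ f : Cub K, f.disc ≠ 0 →
  ∀ c c' : Gal K → Pt (crv f) (SeparableClosure K), IsCoc f c → IsCoc f c' → ∀ s s' : Q4 K × K, Assoc f c s → Assoc f c' s' →
    (∃ N : M2 K, PE N s s') → ∃ T : Pt (crv f) (SeparableClosure K), 2 • T = 0 ∧
      ∀ σ, c' σ = c σ + (Affine.Point.map σ.toAlgHom T - T)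

open Classical in
/-- **(C13)** pairs with cohomologous cocycles are equivalent. -/
def S_coh2 : Prop := ∀ (K : Type) [Field K], (2 : K) ≠ 0 → ∀ f : Cub K, f.disc ≠ 0 →
  ∀ c c' : Gal K → Pt (crv f) (SeparableClosure K), IsCoc f c → IsCoc f c' → ∀ s s' : Q4 K × K, Assoc f c s → Assoc f c' s' →
    ∀ T : Pt (crv f) (SeparableClosure K), 2 • T = 0 → (∀ σ, c' σ = c σ + (Affine.Point.map σ.toAlgHom T - T)) →
      ∃ N : M2 K, PE N s s'

/-- **(C14)** a soluble pair has a locally trivial cocycle. -/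
def S_loc1 : Prop := ∀ (K Kv : Type) [Field K] [Field Kv] [Algebra K Kv], (2 : K) ≠ 0 → ∀ f : Cub K, f.disc ≠ 0 →
  ∀ c : Gal K → Pt (crv f) (SeparableClosure K), IsCoc f c → ∀ s : Q4 K × K, Assoc f c s →
    (s.1.map (algebraMap K Kv)).Sol → LocTriv (crv f) Kv c

/-- **(C15)** a pair with a locally trivial cocycle is soluble. -/
def S_loc2 : Prop := ∀ (K Kv : Type) [Field K] [Field Kv] [Algebra K Kv], (2 : K) ≠ 0 → ∀ f : Cub K, f.disc ≠ 0 →
  ∀ c : Gal K → Pt (crv f) (SeparableClosure K), IsCoc f c → ∀ s : Q4 K × K, Assoc f c s →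
    LocTriv (crv f) Kv c → (s.1.map (algebraMap K Kv)).Sol

/-! ### from locally trivial cocycles to pairs -/

/-- **(C16a)** Galois descent: a vector space with a continuous semilinear action is spanned by the fixed vectors. -/
def S_desc : Prop := ∀ (K V : Type) [Field K] [AddCommGroup V] [Module (SeparableClosure K) V]
  (ρ : Gal K → V →+ V), (∀ σ (a : SeparableClosure K) v, ρ σ (a • v) = σ a • ρ σ v) → (∀ v, ρ 1 v = v) →
  (∀ σ τ v, ρ (σ * τ) v = ρ σ (ρ τ v)) → (∀ v, IsOpen {σ | ρ σ v = v}) →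
  Submodule.span (SeparableClosure K) {v | ∀ σ, ρ σ v = v} = ⊤

/-- **(C16)** basis of the twisted matrices. -/
def S_basis : Prop := ∀ (K : Type) [Field K], (2 : K) ≠ 0 → ∀ f : Cub K, f.disc ≠ 0 →
  ∀ c : Gal K → Pt (crv f) (SeparableClosure K), IsCoc f c →
    ∃ X Y Z : M2 (SeparableClosure K), Tw f c X ∧ Tw f c Y ∧ Tw f c Z ∧ dt X Y Z ≠ 0

/-- **(C17)** a locally trivial cocycle has an isotropic twisted matrix over the completion. -/
def S_iso : Prop := ∀ (K Kv : Type) [Field K] [Field Kv] [Algebra K Kv], (2 : K) ≠ 0 → ∀ f : Cub K, f.disc ≠ 0 →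
  ∀ c : Gal K → Pt (crv f) (SeparableClosure K), IsCoc f c → LocTriv (crv f) Kv c →
    ∀ ι : SeparableClosure K →ₐ[K] SeparableClosure Kv, ∃ W : M2 (SeparableClosure Kv),
      W ≠ ⟨0, 0, 0, 0⟩ ∧ W.δ = -W.α ∧ W.det = 0 ∧ ∀ (σ : Gal Kv) (τ : Gal K), (∀ x, ι (τ x) = σ (ι x)) →
        (W.map (σ.toAlgHom : SeparableClosure Kv →+* SeparableClosure Kv)).mul
          ((mT (c τ)).map (ι : SeparableClosure K →+* SeparableClosure Kv)) =
        ((mT (c τ)).map (ι : SeparableClosure K →+* SeparableClosure Kv)).mul W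

/-- **(C18a)** the determinant is a quadratic form over `K`. -/
def S_coef : Prop := ∀ (K : Type) [Field K], (2 : K) ≠ 0 → ∀ f : Cub K, f.disc ≠ 0 →
  ∀ c : Gal K → Pt (crv f) (SeparableClosure K), IsCoc f c →
    ∀ X Y Z : M2 (SeparableClosure K), Tw f c X → Tw f c Y → Tw f c Z → ∃ q : TF K, ∀ x y z : SeparableClosure K,
      (lin3 x y z X Y Z).det = (q.map (algebraMap K (SeparableClosure K))).ev x y z

/-- **(C18)** the form is isotropic over the completion. -/
def S_coord : Prop := ∀ (K Kv : Type) [Field K] [Field Kv] [Algebra K Kv], (2 : K) ≠ 0 → ∀ f : Cub K, f.disc ≠ 0 →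
  ∀ c : Gal K → Pt (crv f) (SeparableClosure K), IsCoc f c → LocTriv (crv f) Kv c →
    ∀ X Y Z : M2 (SeparableClosure K), Tw f c X → Tw f c Y → Tw f c Z → dt X Y Z ≠ 0 →
    ∀ q : TF K, (∀ x y z : SeparableClosure K,
      (lin3 x y z X Y Z).det = (q.map (algebraMap K (SeparableClosure K))).ev x y z) →
    ∃ x y z : Kv, ¬ (x = 0 ∧ y = 0 ∧ z = 0) ∧ (q.map (algebraMap K Kv)).ev x y z = 0

/-- **(C19)** the Hasse principle for ternary quadratic forms over `F(t)`. -/
def S_hasse : Prop := ∀ (F : Type) [Field F] [Finite F], (2 : F) ≠ 0 → ∀ q : TF (RatFunc F),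
  (∀ v : HeightOneSpectrum F[X], ∃ x y z : v.adicCompletion (RatFunc F), ¬ (x = 0 ∧ y = 0 ∧ z = 0) ∧
    (q.map (algebraMap (RatFunc F) (v.adicCompletion (RatFunc F)))).ev x y z = 0) →
  ∃ x y z : RatFunc F, ¬ (x = 0 ∧ y = 0 ∧ z = 0) ∧ q.ev x y z = 0

/-- **(C20)** an isotropic twisted matrix gives a pair. -/
def S_nil : Prop := ∀ (K : Type) [Field K], (2 : K) ≠ 0 → ∀ f : Cub K, f.disc ≠ 0 →
  ∀ c : Gal K → Pt (crv f) (SeparableClosure K), IsCoc f c →
    ∀ X Y Z W : M2 (SeparableClosure K), Tw f c X → Tw f c Y → Tw f c Z → dt X Y Z ≠ 0 → Tw f c W →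
      W ≠ ⟨0, 0, 0, 0⟩ → W.det = 0 → ∃ s : Q4 K × K, s.1.res = (f.sc 4).tr s.2 ∧ Assoc f c s

/-! ### general curves, and the group `E[2^∞]` -/

/-- **(C21)** invariance of the Selmer groups under changes of variables. -/
def S_transp : Prop := ∀ (F : Type) [Field F] [DecidableEq (RatFunc F)] (E : WeierstrassCurve (RatFunc F))
  (C : VariableChange (RatFunc F)), E.Δ ≠ 0 → ∀ n : ℕ,
    Nonempty (SelmerGroup (C • E) (torsionPts (C • E) n) ≃+ SelmerGroup E (torsionPts E n)) ∧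
    Nonempty (SelmerGroup (C • E) (primaryPts (C • E) n) ≃+ SelmerGroup E (primaryPts E n))

open Classical in
/-- **(C22)** the points over a separably closed field are divisible by two. -/
def S_div : Prop := ∀ (L : Type) [Field L] [IsSepClosed L], (2 : L) ≠ 0 → ∀ E : WeierstrassCurve L, E.Δ ≠ 0 →
  ∀ P : E.toAffine.Point, ∃ Q : E.toAffine.Point, 2 • Q = P

open Classical in
/-- **(C23)** comparison of the Selmer groups for `E[2]` and `E[2^∞]`. -/
def S_ctrl : Prop := ∀ (F : Type) [Field F] [DecidableEq (RatFunc F)], (2 : F) ≠ 0 → ∀ E : WeierstrassCurve (RatFunc F),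
  E.Δ ≠ 0 → ∃ φ : SelmerGroup E (torsionPts E 2) →+ SelmerGroup E (primaryPts E 2),
    (∀ x, (∃ y, φ y = x) ↔ 2 • x = 0) ∧ ((∀ T : E.toAffine.Point, 2 • T = 0 → T = 0) → Function.Injective φ)

end Pool.Agent.H456.Coh
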