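import Pool.Agent.H456.Coh.Stm

/-!
(C20) `S_nil`. `Ks = SeparableClosure K`, `m_σ = mT (c σ)`, `det m_σ ≠ 0` (`S_mPE`). `W` has trace zero, determinant zero, `W ≠ 0`: let `v = (v₁, v₂) ≠ 0` be in the kernel of `W` (e.g. `(W.β, -W.α)` or `(W.δ, -W.γ)`, at least one is nonzero); the kernel is a line. `(W.map σ) m_σ = m_σ W` gives `W.map σ = m_σ W m_σ⁻¹`; `σ v` is in the kernel of
`W.map σ`, so `m_σ⁻¹ σ v ∈ ker W`, `σ v = λ_σ m_σ v`. One of `X, Y, Z` (say `X`) satisfies `X v ∉ Ks v`: otherwise `det [v | X v] = 0` for the three, but for `X = ⟨α, β, γ, -α⟩` `det [v | X v] = v₁ (γ v₁ - α v₂) - v₂ (α v₁ + β v₂)` is a nonzero linear form in `(α, β, γ)` (coefficients `-2 v₁ v₂, -v₂², v₁²`), and `dt X Y Z ≠ 0` says that `X, Y, Z` is a basis. Put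
`M = ⟨v₁, (Xv)₁, v₂, (Xv)₂⟩` (columns `v`, `X v`), `det M ≠ 0`. `σ (X v) = (X.map σ) (σ v) = m_σ X m_σ⁻¹ λ_σ m_σ v = λ_σ m_σ X v`; so `M.map σ = (m_σ.mul M).scal λ_σ`. Let `s' = (((zp).1.sub M).smul (det M)⁻², (zp).1.tau M / (det M)²)` over `Ks` (`zp = zp (fL f Ks)`, second component `0`): `PE M zp s'`. For `σ`: `PE (M.map σ) zp (σ s')` and
`PE (m_σ M) zp s'` (`PE.trans` with `S_mPE`), `PE.scal`: `PE (M.map σ) zp s'`; a pair is determined by `M` and `zp` (`Q4.smul_cancel`), so `σ s' = s'` and `s'` comes from a pair `s` over `K` (fixed field of the absolute Galois group: `IsGalois`, `InfiniteGalois.mem_bot_iff_fixed`). `s.1.res = (f.sc 4).tr s.2` follows over `Ks` from `PE.res` and `zp_res`, and then over `K` by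
injectivity (`Q4.map_res`, `Cub.map_sc`, `Cub.map_tr`).
-/

set_option autoImplicit false
set_option linter.all false

open Polynomial WeierstrassCurve IsDedekindDomain
open Pool.Agent.H456.BQ
open Pool.Agent.H456.EC (toK toK_inj sig toK_eq reflect_toK)

namespace Pool.Agent.H456.Coh

/-! ### linear algebra -/

section nil_field

variable {L : Type*} [Field L]

/-- a nonzero singular matrix of trace zero has a kernel -/
theorem nil_ker {W : M2 L} (hd : W.δ = -W.α) (hdet : W.det = 0) :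
    ∃ v₁ v₂ : L, ¬ (v₁ = 0 ∧ v₂ = 0) ∧ W.α * v₁ + W.β * v₂ = 0 ∧ W.γ * v₁ + W.δ * v₂ = 0 := by
  simp only [M2.det, hd] at hdet
  by_cases h : W.β = 0 ∧ W.α = 0
  · refine ⟨0, 1, fun h0 => one_ne_zero h0.2, ?_, ?_⟩
    · rw [h.1]; ring
    · rw [hd, h.2]; ring
  · refine ⟨W.β, -W.α, fun h0 => h ⟨h0.1, neg_eq_zero.1 h0.2⟩, by ring, ?_⟩
    rw [hd]
    linear_combination -hdet

/-- the kernel of a nonzero matrix is at most a line -/
theorem nil_prop {W : M2 L} (hW : W ≠ ⟨0, 0, 0, 0⟩) {v₁ v₂ u₁ u₂ : L} (hv : ¬ (v₁ = 0 ∧ v₂ = 0))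
    (h1 : W.α * v₁ + W.β * v₂ = 0) (h2 : W.γ * v₁ + W.δ * v₂ = 0)
    (h3 : W.α * u₁ + W.β * u₂ = 0) (h4 : W.γ * u₁ + W.δ * u₂ = 0) :
    ∃ k : L, u₁ = k * v₁ ∧ u₂ = k * v₂ := by
  have hc : v₁ * u₂ - v₂ * u₁ = 0 := by
    by_contra hne
    apply hW
    have e1 : W.α * (v₁ * u₂ - v₂ * u₁) = 0 := by linear_combination u₂ * h1 - v₂ * h3
    have e2 : W.β * (v₁ * u₂ - v₂ * u₁) = 0 := by linear_combination v₁ * h3 - u₁ * h1
    have e3 : W.γ * (v₁ * u₂ - v₂ * u₁) = 0 := by linear_combination u₂ * h2 - v₂ * h4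
    have e4 : W.δ * (v₁ * u₂ - v₂ * u₁) = 0 := by linear_combination v₁ * h4 - u₁ * h2
    ext
    · exact (mul_eq_zero.1 e1).resolve_right hne
    · exact (mul_eq_zero.1 e2).resolve_right hne
    · exact (mul_eq_zero.1 e3).resolve_right hne
    · exact (mul_eq_zero.1 e4).resolve_right hne
  by_cases h0 : v₁ = 0
  · have h0' : v₂ ≠ 0 := fun h => hv ⟨h0, h⟩
    rw [h0, zero_mul, zero_sub, neg_eq_zero] at hc
    refine ⟨u₂ / v₂, ?_, ?_⟩
    · rw [h0, mul_zero]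
      exact (mul_eq_zero.1 hc).resolve_left h0'
    · rw [div_mul_cancel₀ _ h0']
  · refine ⟨u₁ / v₁, ?_, ?_⟩
    · rw [div_mul_cancel₀ _ h0]
    · rw [div_mul_eq_mul_div, eq_div_iff h0]
      linear_combination hc

/-- the kernels of `W` and of `m W m⁻¹` -/
theorem nil_line {m W W' : M2 L} (hm : m.det ≠ 0) (h : W'.mul m = m.mul W)
    (hW : W ≠ ⟨0, 0, 0, 0⟩) {v₁ v₂ u₁ u₂ : L} (hv : ¬ (v₁ = 0 ∧ v₂ = 0)) (hu : ¬ (u₁ = 0 ∧ u₂ = 0))
    (h1 : W.α * v₁ + W.β * v₂ = 0) (h2 : W.γ * v₁ + W.δ * v₂ = 0)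
    (h3 : W'.α * u₁ + W'.β * u₂ = 0) (h4 : W'.γ * u₁ + W'.δ * u₂ = 0) :
    ∃ k : L, k ≠ 0 ∧ u₁ = k * (m.α * v₁ + m.β * v₂) ∧ u₂ = k * (m.γ * v₁ + m.δ * v₂) := by
  have ha := congrArg M2.α h
  have hb := congrArg M2.β h
  have hc := congrArg M2.γ h
  have hd := congrArg M2.δ h
  simp only [M2.mul] at ha hb hc hd
  -- `w = adj m u` satisfies `m (W w) = W' (m w) = det m • W' u = 0`
  have e1 : m.α * (W.α * (m.δ * u₁ - m.β * u₂) + W.β * (-m.γ * u₁ + m.α * u₂)) +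
      m.β * (W.γ * (m.δ * u₁ - m.β * u₂) + W.δ * (-m.γ * u₁ + m.α * u₂)) = 0 := by
    linear_combination (-(m.δ * u₁ - m.β * u₂)) * ha - (-m.γ * u₁ + m.α * u₂) * hb +
      (m.α * m.δ - m.β * m.γ) * h3
  have e2 : m.γ * (W.α * (m.δ * u₁ - m.β * u₂) + W.β * (-m.γ * u₁ + m.α * u₂)) +
      m.δ * (W.γ * (m.δ * u₁ - m.β * u₂) + W.δ * (-m.γ * u₁ + m.α * u₂)) = 0 := by
    linear_combination (-(m.δ * u₁ - m.β * u₂)) * hc - (-m.γ * u₁ + m.α * u₂) * hd +
      (m.α * m.δ - m.β * m.γ) * h4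
  have e3 : W.α * (m.δ * u₁ - m.β * u₂) + W.β * (-m.γ * u₁ + m.α * u₂) = 0 := by
    have : m.det * (W.α * (m.δ * u₁ - m.β * u₂) + W.β * (-m.γ * u₁ + m.α * u₂)) = 0 := by
      simp only [M2.det]
      linear_combination m.δ * e1 - m.β * e2
    exact (mul_eq_zero.1 this).resolve_left hm
  have e4 : W.γ * (m.δ * u₁ - m.β * u₂) + W.δ * (-m.γ * u₁ + m.α * u₂) = 0 := by
    have : m.det * (W.γ * (m.δ * u₁ - m.β * u₂) + W.δ * (-m.γ * u₁ + m.α * u₂)) = 0 := by
      simp only [M2.det]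
      linear_combination m.α * e2 - m.γ * e1
    exact (mul_eq_zero.1 this).resolve_left hm
  obtain ⟨k, k1, k2⟩ := nil_prop hW hv h1 h2 e3 e4
  have r1 : m.det * u₁ = k * (m.α * v₁ + m.β * v₂) := by
    simp only [M2.det]
    linear_combination m.α * k1 + m.β * k2
  have r2 : m.det * u₂ = k * (m.γ * v₁ + m.δ * v₂) := by
    simp only [M2.det]
    linear_combination m.γ * k1 + m.δ * k2
  have s1 : u₁ = k / m.det * (m.α * v₁ + m.β * v₂) := by
    rw [div_mul_eq_mul_div, ← r1, mul_div_cancel_left₀ _ hm]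
  have s2 : u₂ = k / m.det * (m.γ * v₁ + m.δ * v₂) := by
    rw [div_mul_eq_mul_div, ← r2, mul_div_cancel_left₀ _ hm]
  refine ⟨k / m.det, fun h0 => hu ?_, s1, s2⟩
  rw [s1, s2, h0, zero_mul, zero_mul]
  exact ⟨rfl, rfl⟩

/-- one of three independent matrices of trace zero moves the line of `v` -/
theorem nil_move {X Y Z : M2 L} (hX : X.δ = -X.α) (hY : Y.δ = -Y.α) (hZ : Z.δ = -Z.α)
    (hdt : X.α * (Y.β * Z.γ - Y.γ * Z.β) - X.β * (Y.α * Z.γ - Y.γ * Z.α) + X.γ * (Y.α * Z.β - Y.β * Z.α) ≠ 0)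
    {v₁ v₂ : L} (hv : ¬ (v₁ = 0 ∧ v₂ = 0))
    (h1 : v₁ * (X.γ * v₁ + X.δ * v₂) - v₂ * (X.α * v₁ + X.β * v₂) = 0)
    (h2 : v₁ * (Y.γ * v₁ + Y.δ * v₂) - v₂ * (Y.α * v₁ + Y.β * v₂) = 0)
    (h3 : v₁ * (Z.γ * v₁ + Z.δ * v₂) - v₂ * (Z.α * v₁ + Z.β * v₂) = 0) : False := by
  rw [hX] at h1
  rw [hY] at h2
  rw [hZ] at h3
  apply hv
  constructor
  · by_contra h0
    apply hdt
    have : v₁ ^ 2 * (X.α * (Y.β * Z.γ - Y.γ * Z.β) - X.β * (Y.α * Z.γ - Y.γ * Z.α) +
        X.γ * (Y.α * Z.β - Y.β * Z.α)) = 0 := by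
      linear_combination (Y.α * Z.β - Y.β * Z.α) * h1 - (X.α * Z.β - X.β * Z.α) * h2 +
        (X.α * Y.β - X.β * Y.α) * h3
    exact (mul_eq_zero.1 this).resolve_left (pow_ne_zero 2 h0)
  · by_contra h0
    apply hdt
    have : v₂ ^ 2 * (X.α * (Y.β * Z.γ - Y.γ * Z.β) - X.β * (Y.α * Z.γ - Y.γ * Z.α) +
        X.γ * (Y.α * Z.β - Y.β * Z.α)) = 0 := by
      linear_combination (Y.α * Z.γ - Y.γ * Z.α) * h1 - (X.α * Z.γ - X.γ * Z.α) * h2 +
        (X.α * Y.γ - X.γ * Y.α) * h3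
    exact (mul_eq_zero.1 this).resolve_left (pow_ne_zero 2 h0)

/-- images of `PE` -/
theorem nil_PE_map {S : Type*} [Field S] (φ : L →+* S) {M : M2 L} {s s' : Q4 L × L} (h : PE M s s') :
    PE (M.map φ) (s.1.map φ, φ s.2) (s'.1.map φ, φ s'.2) := by
  refine ⟨?_, ?_, ?_⟩
  · rw [M2.map_det]
    exact fun h0 => h.det ((map_eq_zero φ).1 h0)
  · show (s.1.map φ).sub (M.map φ) = (s'.1.map φ).smul ((M.map φ).det ^ 2)
    rw [← Q4.map_sub, h.sub, Q4.map_smul, M2.map_det, map_pow]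
  · show (s.1.map φ).tau (M.map φ) = (φ s'.2 - φ s.2) * (M.map φ).det ^ 2
    rw [Q4.map_tau, h.tau, M2.map_det, map_mul, map_sub, map_pow]

/-- the image pair is unique -/
theorem nil_PE_uniq {M : M2 L} {s s' s'' : Q4 L × L} (h : PE M s s') (h' : PE M s s'') : s' = s'' := by
  apply Prod.ext
  · exact Q4.smul_cancel (pow_ne_zero 2 h.det) (h.sub.symm.trans h'.sub)
  · have := h.tau.symm.trans h'.tau
    have h2 := mul_right_cancel₀ (pow_ne_zero 2 h.det) this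
    linear_combination h2

/-- every matrix gives a pair -/
theorem nil_PE_exists {M : M2 L} (h : M.det ≠ 0) (s : Q4 L × L) : ∃ s', PE M s s' := by
  have h2 : M.det ^ 2 ≠ 0 := pow_ne_zero 2 h
  refine ⟨((s.1.sub M).smul (M.det ^ 2)⁻¹, s.2 + s.1.tau M / M.det ^ 2), h, ?_, ?_⟩
  · show s.1.sub M = ((s.1.sub M).smul (M.det ^ 2)⁻¹).smul (M.det ^ 2)
    rw [Q4.smul_smul, inv_mul_cancel₀ h2, Q4.smul_one]
  · show s.1.tau M = (s.2 + s.1.tau M / M.det ^ 2 - s.2) * M.det ^ 2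
    rw [add_sub_cancel_left, div_mul_cancel₀ _ h2]

end nil_field

/-- the elements fixed by the Galois group -/
theorem nil_fixed {K : Type} [Field K] {a : SeparableClosure K} (h : ∀ σ : Gal K, σ a = a) :
    ∃ b : K, algebraMap K (SeparableClosure K) b = a :=
  (InfiniteGalois.mem_range_algebraMap_iff_fixed a).2 h

/-- a fixed pair comes from `K` -/
theorem nil_fixed_pair {K : Type} [Field K] {s : Q4 (SeparableClosure K) × SeparableClosure K}
    (h : ∀ σ : Gal K, (s.1.map (σ.toAlgHom : SeparableClosure K →+* SeparableClosure K),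
      (σ.toAlgHom : SeparableClosure K →+* SeparableClosure K) s.2) = s) :
    ∃ t : Q4 K × K, mapP (SeparableClosure K) t = s := by
  have h1 : ∀ σ : Gal K, s.1.map (σ.toAlgHom : SeparableClosure K →+* SeparableClosure K) = s.1 :=
    fun σ => congrArg Prod.fst (h σ)
  obtain ⟨A, hA⟩ := nil_fixed (a := s.1.A) fun σ => congrArg Q4.A (h1 σ)
  obtain ⟨B, hB⟩ := nil_fixed (a := s.1.B) fun σ => congrArg Q4.B (h1 σ)
  obtain ⟨C, hC⟩ := nil_fixed (a := s.1.C) fun σ => congrArg Q4.C (h1 σ)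
  obtain ⟨D, hD⟩ := nil_fixed (a := s.1.D) fun σ => congrArg Q4.D (h1 σ)
  obtain ⟨E, hE⟩ := nil_fixed (a := s.1.E) fun σ => congrArg Q4.E (h1 σ)
  obtain ⟨r, hr⟩ := nil_fixed (a := s.2) fun σ => congrArg Prod.snd (h σ)
  exact ⟨(⟨A, B, C, D, E⟩, r), Prod.ext (Q4.ext hA hB hC hD hE) hr⟩

/-- the pair of the zero class is fixed -/
theorem nil_zp_map {K : Type} [Field K] (f : Cub K) (σ : Gal K) :
    ((zp (fL f (SeparableClosure K))).1.map (σ.toAlgHom : SeparableClosure K →+* SeparableClosure K),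
      (σ.toAlgHom : SeparableClosure K →+* SeparableClosure K) (zp (fL f (SeparableClosure K))).2) =
      zp (fL f (SeparableClosure K)) := by
  have hc : ∀ a : K, (σ.toAlgHom : SeparableClosure K →+* SeparableClosure K)
      (algebraMap K (SeparableClosure K) a) = algebraMap K (SeparableClosure K) a := fun a => σ.commutes a
  apply Prod.ext
  · ext <;> simp only [zp, Q4.map, Cub.map, map_mul, map_zero, map_ofNat, hc]
  · simp only [zp, map_zero]

/-- the equation `2 T = 0` does not depend on the decidability instance -/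
theorem nil_inst {L : Type*} [Field L] {W : WeierstrassCurve L} (d1 d2 : DecidableEq L) {T : W.toAffine.Point}
    (h : letI := d1; 2 • T = 0) : letI := d2; 2 • T = 0 := by
  have e : d1 = d2 := Subsingleton.elim _ _
  subst e
  exact h

theorem t_nil : S_mPE → S_nil := by
  intro hmPE K _ h2 f hf c hc X Y Z W hX hY hZ hdt hW hW0 hWdet
  have hm : ∀ σ : Gal K, PE (mT (c σ)) (zp (fL f (SeparableClosure K))) (zp (fL f (SeparableClosure K))) :=
    fun σ => hmPE K (SeparableClosure K) h2 f hf (c σ) (nil_inst _ _ (hc.tors σ))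
  obtain ⟨v₁, v₂, hv, k1, k2⟩ := nil_ker hW.1 hWdet
  -- one of the three matrices moves the line
  obtain ⟨V, hV, hVd⟩ : ∃ V : M2 (SeparableClosure K), Tw f c V ∧
      v₁ * (V.γ * v₁ + V.δ * v₂) - v₂ * (V.α * v₁ + V.β * v₂) ≠ 0 := by
    by_contra hcon
    push Not at hcon
    exact nil_move hX.1 hY.1 hZ.1 hdt hv (hcon X hX) (hcon Y hY) (hcon Z hZ)
  set M : M2 (SeparableClosure K) := ⟨v₁, V.α * v₁ + V.β * v₂, v₂, V.γ * v₁ + V.δ * v₂⟩ with hM
  have hMdet : M.det ≠ 0 := by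
    intro h0
    apply hVd
    simp only [M2.det, hM] at h0
    linear_combination h0
  have hMσ : ∀ σ : Gal K, ∃ k : SeparableClosure K, k ≠ 0 ∧
      M.map (σ.toAlgHom : SeparableClosure K →+* SeparableClosure K) = ((mT (c σ)).mul M).scal k := by
    intro σ
    have hu : ¬ ((σ.toAlgHom : SeparableClosure K →+* SeparableClosure K) v₁ = 0 ∧
        (σ.toAlgHom : SeparableClosure K →+* SeparableClosure K) v₂ = 0) :=
      fun h => hv ⟨(map_eq_zero _).1 h.1, (map_eq_zero _).1 h.2⟩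
    have l1 := congrArg (σ.toAlgHom : SeparableClosure K →+* SeparableClosure K) k1
    have l2 := congrArg (σ.toAlgHom : SeparableClosure K →+* SeparableClosure K) k2
    rw [map_add, map_mul, map_mul, map_zero] at l1 l2
    obtain ⟨k, hk, r1, r2⟩ := nil_line (hm σ).det (hW.2 σ) hW0 hv hu k1 k2 l1 l2
    refine ⟨k, hk, ?_⟩
    have hV2 := hV.2 σ
    have ha := congrArg M2.α hV2
    have hb := congrArg M2.β hV2
    have hcc := congrArg M2.γ hV2
    have hd := congrArg M2.δ hV2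
    simp only [M2.mul, M2.map] at ha hb hcc hd
    refine M2.ext ?_ ?_ ?_ ?_
    · simp only [M2.map, M2.scal, M2.mul, hM]
      rw [r1]
    · simp only [M2.map, M2.scal, M2.mul, hM]
      rw [map_add, map_mul, map_mul, r1, r2]
      linear_combination k * v₁ * ha + k * v₂ * hb
    · simp only [M2.map, M2.scal, M2.mul, hM]
      rw [r2]
    · simp only [M2.map, M2.scal, M2.mul, hM]
      rw [map_add, map_mul, map_mul, r1, r2]
      linear_combination k * v₁ * hcc + k * v₂ * hd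
  obtain ⟨s', hs'⟩ := nil_PE_exists hMdet (zp (fL f (SeparableClosure K)))
  obtain ⟨s, hs⟩ : ∃ t : Q4 K × K, mapP (SeparableClosure K) t = s' := by
    refine nil_fixed_pair fun σ => ?_
    obtain ⟨k, hk, hkM⟩ := hMσ σ
    have p1 := nil_PE_map (σ.toAlgHom : SeparableClosure K →+* SeparableClosure K) hs'
    rw [nil_zp_map, hkM] at p1
    exact nil_PE_uniq p1 (((hm σ).trans hs').scal hk)
  refine ⟨s, ?_, M, ?_, hMσ⟩
  · apply Cub.map_inj (algebraMap K (SeparableClosure K)) (algebraMap K (SeparableClosure K)).injective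
    have h3 := hs'.res (f := (fL f (SeparableClosure K)).sc 4) (zp_res _)
    rw [← hs] at h3
    have h4 : (s.1.map (algebraMap K (SeparableClosure K))).res =
        ((fL f (SeparableClosure K)).sc 4).tr (algebraMap K (SeparableClosure K) s.2) := h3
    rw [← Q4.map_res, h4, Cub.map_tr, Cub.map_sc, map_ofNat]
  · rw [hs]
    exact hs'

end Pool.Agent.H456.Coh
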